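import Mathlib
import Pool.Agent.Work.MP_787500_nt.H9_Alg

/-!
Definitions for the sharp rank bound (all modules of this folder). Do not change.
-/

set_option autoImplicit false

namespace Pool.Agent.Work.MP_787500_nt.RS

open WithZero IsDedekindDomain NumberField WeierstrassCurve WeierstrassCurve.Affine

section localPart

variable {C : Type*} [Field C]

/-- square roots near one exist (true in the completion at a dyadic place) -/
def SqNear (V : Valuation C ℤᵐ⁰) : Prop :=
  ∀ z : C, V (z - 1) < V 4 → ∃ r : C, r ^ 2 = z ∧ V (r - 1) < V 2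

/-- bounded sets are covered by finitely many small discs -/
def TotBdd (V : Valuation C ℤᵐ⁰) : Prop :=
  ∀ δ γ : ℤᵐ⁰, γ ≠ 0 → ∃ S : Finset C, ∀ x : C, V x ≤ δ → ∃ s ∈ S, V (x - s) < γ

/-- the radius `p` is small enough for the curve `y^2 = (x-e1)(x-e2)(x-e3)` -/
structure Small (V : Valuation C ℤᵐ⁰) (e1 e2 e3 p : C) : Prop where
  two : V 2 < 1
  ne : p ≠ 0
  h12 : V (p ^ 2 * (e2 - e1)) < V 4
  h13 : V (p ^ 2 * (e3 - e1)) < V 4

/-- the neighbourhood of zero of the points `(x, y)` with `|x - e1| ≥ |p|^(-2)` -/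
def InG (V : Valuation C ℤᵐ⁰) (e1 p : C) {W : WeierstrassCurve.Affine C} : W.Point → Prop
  | .zero => True
  | .some x _ _ => 1 ≤ V (p ^ 2 * (x - e1))

/-- the parameter `t = (x - e1) / y` at the zero point -/
noncomputable def tpar (e1 : C) {W : WeierstrassCurve.Affine C} : W.Point → C
  | .zero => 0
  | .some x y _ => (x - e1) / y

end localPart

section dyadic

variable {F : Type*} [Field F] [NumberField F]

/-- the integers which are divisible by 2 at the place `v` -/
noncomputable def dyIdeal (v : HeightOneSpectrum (𝓞 F)) : Ideal (𝓞 F) where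
  carrier := {t | v.valuation F (algebraMap (𝓞 F) F t) ≤ v.valuation F 2}
  zero_mem' := by
    show v.valuation F (algebraMap (𝓞 F) F 0) ≤ v.valuation F 2
    rw [map_zero, map_zero]
    exact zero_le
  add_mem' := by
    intro a b ha hb
    show v.valuation F (algebraMap (𝓞 F) F (a + b)) ≤ v.valuation F 2
    rw [map_add]
    exact ((v.valuation F).map_add _ _).trans (max_le ha hb)
  smul_mem' := by
    intro c a ha
    show v.valuation F (algebraMap (𝓞 F) F (c * a)) ≤ v.valuation F 2
    rw [map_mul, map_mul]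
    calc v.valuation F (algebraMap (𝓞 F) F c) * v.valuation F (algebraMap (𝓞 F) F a)
        ≤ 1 * v.valuation F 2 := mul_le_mul' (HeightOneSpectrum.valuation_le_one v c) ha
      _ = v.valuation F 2 := one_mul _

theorem mem_dyIdeal {v : HeightOneSpectrum (𝓞 F)} {t : 𝓞 F} :
    t ∈ dyIdeal v ↔ v.valuation F (algebraMap (𝓞 F) F t) ≤ v.valuation F 2 := Iff.rfl

end dyadic

section isogeny

variable {L : Type*} [Field L]

/-- data of an isogeny of degree two from `y^2 = (x-e1)(x-e2)(x-e3)` to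
`y^2 = (x-f1)(x-f2)(x-f3)` with kernel generated by `(e1, 0)` -/
structure IsogData (e1 e2 e3 f1 f2 f3 d u : L) : Prop where
  hd : d ^ 2 = (e1 - e2) * (e1 - e3)
  hu : u ≠ 0
  h2 : f2 - f1 = u ^ 2 * (2 * e1 - e2 - e3 + 2 * d)
  h3 : f3 - f1 = u ^ 2 * (2 * e1 - e2 - e3 - 2 * d)

/-- first coordinate of the isogeny -/
noncomputable def isogX (e1 f1 u x y : L) : L := f1 + u ^ 2 * y ^ 2 / (x - e1) ^ 2

/-- second coordinate of the isogeny -/
noncomputable def isogY (e1 e2 e3 u x y : L) : L :=
  u ^ 3 * y * ((e1 - e2) * (e1 - e3) - (x - e1) ^ 2) / (x - e1) ^ 2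

end isogeny

section abelian

variable (K Ω : Type*) [Field K] [Field Ω] [Algebra K Ω]

/-- the elements of `Ω` on which the automorphisms of `Ω` over `K` commute -/
def abField : IntermediateField K Ω where
  carrier := {x | ∀ σ τ : Ω ≃ₐ[K] Ω, σ (τ x) = τ (σ x)}
  mul_mem' := by
    intro a b ha hb σ τ
    rw [map_mul, map_mul, map_mul, map_mul, ha σ τ, hb σ τ]
  one_mem' := by
    intro σ τ
    rw [map_one, map_one, map_one]
  add_mem' := by
    intro a b ha hb σ τ
    rw [map_add, map_add, map_add, map_add, ha σ τ, hb σ τ]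
  zero_mem' := by
    intro σ τ
    rw [map_zero, map_zero, map_zero]
  algebraMap_mem' := by
    intro r σ τ
    rw [AlgEquiv.commutes, AlgEquiv.commutes, AlgEquiv.commutes]
  inv_mem' := by
    intro a ha σ τ
    rw [map_inv₀, map_inv₀, map_inv₀, map_inv₀, ha σ τ]

variable {K Ω}

theorem mem_abField {x : Ω} :
    x ∈ abField K Ω ↔ ∀ σ τ : Ω ≃ₐ[K] Ω, σ (τ x) = τ (σ x) := Iff.rfl

/-- the coordinates of all points of order a power of two are in `M` -/
def TorsIn [DecidableEq Ω] (M : IntermediateField K Ω) (W : WeierstrassCurve.Affine Ω) : Prop :=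
  ∀ (k : ℕ) (x y : Ω) (hn : W.Nonsingular x y),
    (2 ^ k) • (Point.some x y hn : W.Point) = 0 → x ∈ M ∧ y ∈ M

end abelian

section agm

/-- `w`, `w'` are the roots of `X^2 - X + 2` and `i^2 = -1`; `a`, `b` is a sequence of the
arithmetic-geometric mean, up to the index `n`, and `u ^ 4 = 1 - (b / a) ^ 2`. -/
structure Agm {F : Type*} [Field F] (w w' i : F) (a b u : ℕ → F) (n : ℕ) : Prop where
  add : w + w' = 1
  mul : w * w' = 2
  i2 : i ^ 2 = -1
  a0 : a 0 = w ^ 2
  b0 : b 0 = -i * w' ^ 2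
  u0 : u 0 = -1 / w
  as : ∀ m < n, a (m + 1) = (a m + b m) / 2
  bs : ∀ m < n, b (m + 1) ^ 2 = a m * b m
  us : ∀ m < n, u (m + 1) = u m ^ 2 * a m / (2 * a (m + 1))

end agm

end Pool.Agent.Work.MP_787500_nt.RS
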