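import Mathlib
import Pool.Agent.Work.MP_787500_nt.H9_Alg
import Pool.Agent.Work.MP_787500_nt.RS.Defs

/-!
The isogeny of degree two as a map on points (definitions, proved).
-/

set_option autoImplicit false

namespace Pool.Agent.Work.MP_787500_nt.RS

open WeierstrassCurve WeierstrassCurve.Affine

variable {L : Type*} [Field L] [CharZero L]
variable {W W' : WeierstrassCurve.Affine L} {e1 e2 e3 f1 f2 f3 d u : L}

theorem isog_eq (D : IsogData e1 e2 e3 f1 f2 f3 d u) {x y : L}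
    (heq : y ^ 2 = (x - e1) * (x - e2) * (x - e3)) (hx : x ≠ e1) :
    isogY e1 e2 e3 u x y ^ 2 =
      (isogX e1 f1 u x y - f1) * (isogX e1 f1 u x y - f2) * (isogX e1 f1 u x y - f3) := by
  have hx' : x - e1 ≠ 0 := sub_ne_zero.2 hx
  have hd := D.hd
  have g2 : isogX e1 f1 u x y - f2 = u ^ 2 * ((x - e2) * (x - e3) / (x - e1) -
      (2 * e1 - e2 - e3 + 2 * d)) := by
    have : f2 = f1 + u ^ 2 * (2 * e1 - e2 - e3 + 2 * d) := by rw [← D.h2]; ring
    rw [isogX, this, heq]
    field_simp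
    ring
  have g3 : isogX e1 f1 u x y - f3 = u ^ 2 * ((x - e2) * (x - e3) / (x - e1) -
      (2 * e1 - e2 - e3 - 2 * d)) := by
    have : f3 = f1 + u ^ 2 * (2 * e1 - e2 - e3 - 2 * d) := by rw [← D.h3]; ring
    rw [isogX, this, heq]
    field_simp
    ring
  have g1 : isogX e1 f1 u x y - f1 = u ^ 2 * y ^ 2 / (x - e1) ^ 2 := by
    rw [isogX]; ring
  rw [g1, g2, g3, isogY]
  field_simp
  linear_combination (4 * u ^ 6 * y ^ 2 * (x - e1) ^ 2) * hd

theorem isog_nonsingular (h : TwoTors W e1 e2 e3) (h' : TwoTors W' f1 f2 f3)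
    (D : IsogData e1 e2 e3 f1 f2 f3 d u) {x y : L} (hn : W.Nonsingular x y) (hx : x ≠ e1) :
    W'.Nonsingular (isogX e1 f1 u x y) (isogY e1 e2 e3 u x y) :=
  h'.nonsingular_of_eq (isog_eq D (h.eq_of_nonsingular hn) hx)

open scoped Classical in
/-- the isogeny as a map on points -/
noncomputable def isogFun (h : TwoTors W e1 e2 e3) (h' : TwoTors W' f1 f2 f3)
    (D : IsogData e1 e2 e3 f1 f2 f3 d u) : W.Point → W'.Point
  | .zero => 0
  | .some x _ hn => if hx : x = e1 then 0 else .some _ _ (isog_nonsingular h h' D hn hx)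

theorem isogFun_zero (h : TwoTors W e1 e2 e3) (h' : TwoTors W' f1 f2 f3)
    (D : IsogData e1 e2 e3 f1 f2 f3 d u) : isogFun h h' D 0 = 0 := rfl

theorem isogFun_some (h : TwoTors W e1 e2 e3) (h' : TwoTors W' f1 f2 f3)
    (D : IsogData e1 e2 e3 f1 f2 f3 d u) {x y : L} (hn : W.Nonsingular x y) (hx : x ≠ e1) :
    isogFun h h' D (Point.some x y hn) = Point.some _ _ (isog_nonsingular h h' D hn hx) := by
  rw [isogFun, dif_neg hx]

theorem isogFun_of_eq (h : TwoTors W e1 e2 e3) (h' : TwoTors W' f1 f2 f3)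
    (D : IsogData e1 e2 e3 f1 f2 f3 d u) {x y : L} (hn : W.Nonsingular x y) (hx : x = e1) :
    isogFun h h' D (Point.some x y hn) = 0 := by
  rw [isogFun, dif_pos hx]

end Pool.Agent.Work.MP_787500_nt.RS
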