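import Mathlib
import Pool.Agent.Work.MP_787500_nt.RS.IsogDefs

/-!
# Module ISOGDBL: the isogeny of degree two commutes with doubling

With `X = x - e1`, `p = e1 - e2`, `q = e1 - e3`: `y^2 = X (X + p) (X + q)`; both sides of the
identity are compared by means of explicit forms of the doubling formulas.
-/

set_option autoImplicit false

namespace Pool.Agent.Work.MP_787500_nt.RS

open WeierstrassCurve WeierstrassCurve.Affine

section field

variable {L : Type*} [Field L] [CharZero L]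

/-- first of the three factors of the doubling formula at the image -/
private lemma id_k1 {X p q y u : L} (hX : X ≠ 0) (hy : y ≠ 0) (hM : X ^ 2 - p * q ≠ 0)
    (hu : u ≠ 0) :
    ((u ^ 2 * ((X + p) * (X + q) / X)) ^ 2 - u ^ 4 * ((p + q) ^ 2 - 4 * (p * q))) /
      (2 * (u ^ 3 * y * (p * q - X ^ 2) / X ^ 2)) =
    -(u * ((X ^ 2 + 2 * p * X + p * q) * (X ^ 2 + 2 * q * X + p * q))) /
      (2 * y * (X ^ 2 - p * q)) := by
  have hM' : p * q - X ^ 2 = -(X ^ 2 - p * q) := by ring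
  rw [hM']
  field_simp
  ring

/-- product of the other two factors -/
private lemma id_k23 {X p q y u d : L} (hX : X ≠ 0) (hy : y ≠ 0) (hM : X ^ 2 - p * q ≠ 0)
    (hu : u ≠ 0) (hd : d ^ 2 = p * q) :
    (((u ^ 2 * ((X + p) * (X + q) / X - (p + q + 2 * d))) ^ 2 -
        (4 * d * u ^ 2) * (u ^ 2 * (p + q + 2 * d))) /
      (2 * (u ^ 3 * y * (p * q - X ^ 2) / X ^ 2))) *
    (((u ^ 2 * ((X + p) * (X + q) / X - (p + q - 2 * d))) ^ 2 -
        (-(u ^ 2 * (p + q - 2 * d))) * (4 * d * u ^ 2)) /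
      (2 * (u ^ 3 * y * (p * q - X ^ 2) / X ^ 2))) =
    u ^ 2 * ((X ^ 2 - p * q) ^ 4 - 16 * (p * q) * (X * (X + p) * (X + q)) ^ 2) /
      (4 * y ^ 2 * (X ^ 2 - p * q) ^ 2) := by
  have hM' : p * q - X ^ 2 = -(X ^ 2 - p * q) := by ring
  have hw : (X + p) * (X + q) / X - (p + q) = (X ^ 2 + p * q) / X := by
    field_simp
    ring
  have e1 : (u ^ 2 * ((X + p) * (X + q) / X - (p + q + 2 * d))) ^ 2 -
        (4 * d * u ^ 2) * (u ^ 2 * (p + q + 2 * d)) =
      u ^ 4 * (((X ^ 2 + p * q) / X) ^ 2 - 4 * d * ((X ^ 2 + p * q) / X) - 4 * d ^ 2 -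
        4 * d * (p + q)) := by
    rw [← hw]
    ring
  have e2 : (u ^ 2 * ((X + p) * (X + q) / X - (p + q - 2 * d))) ^ 2 -
        (-(u ^ 2 * (p + q - 2 * d))) * (4 * d * u ^ 2) =
      u ^ 4 * (((X ^ 2 + p * q) / X) ^ 2 + 4 * d * ((X ^ 2 + p * q) / X) - 4 * d ^ 2 +
        4 * d * (p + q)) := by
    rw [← hw]
    ring
  have e3 : (((X ^ 2 + p * q) / X) ^ 2 - 4 * d * ((X ^ 2 + p * q) / X) - 4 * d ^ 2 -
        4 * d * (p + q)) * (((X ^ 2 + p * q) / X) ^ 2 + 4 * d * ((X ^ 2 + p * q) / X) - 4 * d ^ 2 +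
        4 * d * (p + q)) =
      (((X ^ 2 + p * q) / X) ^ 2 - 4 * (p * q)) ^ 2 -
        16 * (p * q) * ((X ^ 2 + p * q) / X + (p + q)) ^ 2 := by
    linear_combination (-4 * (2 * ((X ^ 2 + p * q) / X) ^ 2 - 4 * d ^ 2 - 4 * (p * q)) -
      16 * ((X ^ 2 + p * q) / X + (p + q)) ^ 2) * hd
  rw [e1, e2, div_mul_div_comm]
  have e4 : u ^ 4 * (((X ^ 2 + p * q) / X) ^ 2 - 4 * d * ((X ^ 2 + p * q) / X) - 4 * d ^ 2 -
        4 * d * (p + q)) * (u ^ 4 * (((X ^ 2 + p * q) / X) ^ 2 + 4 * d * ((X ^ 2 + p * q) / X) -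
        4 * d ^ 2 + 4 * d * (p + q))) =
      u ^ 8 * ((((X ^ 2 + p * q) / X) ^ 2 - 4 * (p * q)) ^ 2 -
        16 * (p * q) * ((X ^ 2 + p * q) / X + (p + q)) ^ 2) := by
    rw [← e3]
    ring
  rw [e4, hM']
  field_simp
  ring

/-- second coordinate of the double -/
private lemma id_y {X p q y u : L} (hy : y ≠ 0) (hM : X ^ 2 - p * q ≠ 0)
    (heq : y ^ 2 = X * (X + p) * (X + q)) :
    -(u * ((X ^ 2 + 2 * p * X + p * q) * (X ^ 2 + 2 * q * X + p * q))) /
      (2 * y * (X ^ 2 - p * q)) *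
    (u ^ 2 * ((X ^ 2 - p * q) ^ 4 - 16 * (p * q) * (X * (X + p) * (X + q)) ^ 2) /
      (4 * y ^ 2 * (X ^ 2 - p * q) ^ 2)) =
    u ^ 3 * ((X ^ 2 - p * q) / (2 * y) * ((X ^ 2 + 2 * p * X + p * q) / (2 * y)) *
      ((X ^ 2 + 2 * q * X + p * q) / (2 * y))) *
      (p * q - (((X ^ 2 - p * q) / (2 * y)) ^ 2) ^ 2) / (((X ^ 2 - p * q) / (2 * y)) ^ 2) ^ 2 := by
  rw [← heq]
  field_simp
  ring

end field

variable {L : Type*} [Field L] [CharZero L] [DecidableEq L]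
variable {W W' : WeierstrassCurve.Affine L} {e1 e2 e3 f1 f2 f3 d u : L}

theorem isogFun_double (h : TwoTors W e1 e2 e3) (h' : TwoTors W' f1 f2 f3)
    (D : IsogData e1 e2 e3 f1 f2 f3 d u) (P : W.Point) :
    isogFun h h' D (P + P) = isogFun h h' D P + isogFun h h' D P := by
  rcases P with _ | ⟨x, y, hn⟩
  · rw [← Point.zero_def, add_zero, isogFun_zero, add_zero]
  have heq := h.eq_of_nonsingular hn
  by_cases hy : y = 0
  · subst hy
    rw [(add_self_eq_zero_iff h hn).2 rfl, isogFun_zero]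
    by_cases hx : x = e1
    · rw [isogFun_of_eq h h' D hn hx, add_zero]
    · rw [isogFun_some h h' D hn hx]
      symm
      rw [add_self_eq_zero_iff h', isogY]
      ring
  have hx : x ≠ e1 := by
    rintro rfl
    apply hy
    have : y ^ 2 = 0 := by rw [heq]; ring
    exact pow_eq_zero_iff (two_ne_zero) |>.1 this
  obtain ⟨X, hXdef⟩ : ∃ X, X = x - e1 := ⟨_, rfl⟩
  obtain ⟨p, hp⟩ : ∃ p, p = e1 - e2 := ⟨_, rfl⟩
  obtain ⟨q, hq⟩ : ∃ q, q = e1 - e3 := ⟨_, rfl⟩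
  have hX : X ≠ 0 := by rw [hXdef]; exact sub_ne_zero.2 hx
  have heq' : y ^ 2 = X * (X + p) * (X + q) := by
    rw [heq, hXdef, hp, hq]; ring
  have hd := D.hd
  have hu := D.hu
  rw [← hp, ← hq] at hd
  have hf2 : f2 = f1 + u ^ 2 * (p + q + 2 * d) := by
    rw [hp, hq]; linear_combination D.h2
  have hf3 : f3 = f1 + u ^ 2 * (p + q - 2 * d) := by
    rw [hp, hq]; linear_combination D.h3
  obtain ⟨X2, y2, hn2, hadd, hX2, hy2⟩ := add_self_some h hn hy
  have r1 : ((x - e1) ^ 2 - (e1 - e2) * (e1 - e3)) / (2 * y) = (X ^ 2 - p * q) / (2 * y) := by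
    rw [hXdef, hp, hq]
  have r2 : ((x - e2) ^ 2 - (e2 - e3) * (e2 - e1)) / (2 * y) =
      (X ^ 2 + 2 * p * X + p * q) / (2 * y) := by
    rw [hXdef, hp, hq]; congr 1; ring
  have r3 : ((x - e3) ^ 2 - (e3 - e1) * (e3 - e2)) / (2 * y) =
      (X ^ 2 + 2 * q * X + p * q) / (2 * y) := by
    rw [hXdef, hp, hq]; congr 1; ring
  rw [r1] at hX2
  rw [r1, r2, r3] at hy2
  have hXf : isogX e1 f1 u x y - f1 = u ^ 2 * ((X + p) * (X + q) / X) := by
    rw [isogX, heq', ← hXdef]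
    field_simp
    ring
  have hYf : isogY e1 e2 e3 u x y = u ^ 3 * y * (p * q - X ^ 2) / X ^ 2 := by
    rw [isogY, ← hXdef, ← hp, ← hq]
  rw [hadd, isogFun_some h h' D hn hx]
  by_cases hM : X ^ 2 - p * q = 0
  · have hX2' : X2 = e1 := by
      rw [hM, zero_div, zero_pow (by norm_num)] at hX2
      exact sub_eq_zero.1 hX2
    rw [isogFun_of_eq h h' D hn2 hX2']
    symm
    rw [add_self_eq_zero_iff h', hYf]
    have : p * q - X ^ 2 = 0 := by linear_combination -hM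
    rw [this]
    simp
  · have h2' : (2 : L) ≠ 0 := two_ne_zero
    have hM' : p * q - X ^ 2 ≠ 0 := by
      intro h0
      apply hM
      linear_combination -h0
    have hX20 : X2 - e1 ≠ 0 := by
      rw [hX2]
      exact pow_ne_zero 2 (div_ne_zero hM (mul_ne_zero h2' hy))
    have hY0 : isogY e1 e2 e3 u x y ≠ 0 := by
      rw [hYf]
      exact div_ne_zero (mul_ne_zero (mul_ne_zero (pow_ne_zero 3 hu) hy) hM') (pow_ne_zero 2 hX)
    obtain ⟨X', Y', hn', hadd', hX', hY'⟩ := add_self_some h'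
      (isog_nonsingular h h' D hn hx) hY0
    rw [isogFun_some h h' D hn2 (sub_ne_zero.1 hX20), hadd', Point.some.injEq]
    -- the factors at the image
    have g1 : ((isogX e1 f1 u x y - f1) ^ 2 - (f1 - f2) * (f1 - f3)) /
        (2 * isogY e1 e2 e3 u x y) =
        -(u * ((X ^ 2 + 2 * p * X + p * q) * (X ^ 2 + 2 * q * X + p * q))) /
          (2 * y * (X ^ 2 - p * q)) := by
      rw [← id_k1 hX hy hM hu, hXf, hYf]
      congr 2
      rw [hf2, hf3]
      linear_combination (-4 * u ^ 4) * hd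
    have g23 : ((isogX e1 f1 u x y - f2) ^ 2 - (f2 - f3) * (f2 - f1)) /
        (2 * isogY e1 e2 e3 u x y) *
        (((isogX e1 f1 u x y - f3) ^ 2 - (f3 - f1) * (f3 - f2)) /
        (2 * isogY e1 e2 e3 u x y)) =
        u ^ 2 * ((X ^ 2 - p * q) ^ 4 - 16 * (p * q) * (X * (X + p) * (X + q)) ^ 2) /
          (4 * y ^ 2 * (X ^ 2 - p * q) ^ 2) := by
      rw [← id_k23 hX hy hM hu hd, hYf]
      have t2 : isogX e1 f1 u x y - f2 =
          u ^ 2 * ((X + p) * (X + q) / X - (p + q + 2 * d)) := by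
        rw [hf2]; linear_combination hXf
      have t3 : isogX e1 f1 u x y - f3 =
          u ^ 2 * ((X + p) * (X + q) / X - (p + q - 2 * d)) := by
        rw [hf3]; linear_combination hXf
      have t4 : (f2 - f3) * (f2 - f1) = (4 * d * u ^ 2) * (u ^ 2 * (p + q + 2 * d)) := by
        rw [hf2, hf3]; ring
      have t5 : (f3 - f1) * (f3 - f2) = (-(u ^ 2 * (p + q - 2 * d))) * (4 * d * u ^ 2) := by
        rw [hf2, hf3]; ring
      rw [t2, t3, t4, t5]
    rw [g1] at hX'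
    rw [mul_assoc, g23, g1] at hY'
    constructor
    · have e4 : X' = f1 + (-(u * ((X ^ 2 + 2 * p * X + p * q) * (X ^ 2 + 2 * q * X + p * q))) /
          (2 * y * (X ^ 2 - p * q))) ^ 2 := by
        rw [← hX']; ring
      rw [e4, isogX, hX2, hy2]
      field_simp
    · rw [hY', id_y hy hM heq', isogY, hX2, hy2, ← hp, ← hq]

end Pool.Agent.Work.MP_787500_nt.RS
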