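import Mathlib
import Pool.Agent.Work.MP_787500_nt.RS.IsogDefs

/-!
# Module ISOGGEN: additivity of the isogeny of degree two for points in general position

With `X = x - e1`, `p = e1 - e2`, `q = e1 - e3` the curve is `y^2 = X (X + p) (X + q)`. The line
`y = m X + c` through two points is mapped to the line `Y = m' Z + c'`, `m' = (p q - c m) / c`,
`c' = -(c^2 - (p + q) c m + p q m^2) / c`, where `Z = y^2 / X^2`, `Y = y (p q - X^2) / X^2`.
-/

set_option autoImplicit false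

namespace Pool.Agent.Work.MP_787500_nt.RS

open WeierstrassCurve WeierstrassCurve.Affine

section field

variable {L : Type*} [Field L]

/-- the image of a point of the line -/
private lemma ig_line {X p q y m c : L} (hX : X ≠ 0) (hc : c ≠ 0)
    (heq : y ^ 2 = X * (X + p) * (X + q)) (hl : y = m * X + c) :
    y * (p * q - X ^ 2) / X ^ 2 = (p * q - c * m) / c * (y ^ 2 / X ^ 2) +
      (-(c ^ 2 - (p + q) * c * m + p * q * m ^ 2) / c) := by
  field_simp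
  subst hl
  linear_combination (c * m) * heq

/-- the symmetric functions of the three points of the line -/
private lemma ig_sym {X1 X2 p q y1 y2 m c : L} (h12 : X1 ≠ X2)
    (h1 : y1 ^ 2 = X1 * (X1 + p) * (X1 + q)) (h2 : y2 ^ 2 = X2 * (X2 + p) * (X2 + q))
    (l1 : y1 = m * X1 + c) (l2 : y2 = m * X2 + c) :
    X1 * X2 + X1 * (m ^ 2 - (p + q) - X1 - X2) + X2 * (m ^ 2 - (p + q) - X1 - X2) =
      p * q - 2 * m * c ∧
    X1 * X2 * (m ^ 2 - (p + q) - X1 - X2) = c ^ 2 := by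
  subst l1 l2
  have h12' : X1 - X2 ≠ 0 := sub_ne_zero.2 h12
  have g1 : X1 * X2 + X1 * (m ^ 2 - (p + q) - X1 - X2) + X2 * (m ^ 2 - (p + q) - X1 - X2) =
      p * q - 2 * m * c := by
    apply mul_left_cancel₀ h12'
    linear_combination h1 - h2
  refine ⟨g1, ?_⟩
  linear_combination X1 * g1 - h1

end field

variable {L : Type*} [Field L] [CharZero L] [DecidableEq L]
variable {W W' : WeierstrassCurve.Affine L} {e1 e2 e3 f1 f2 f3 d u : L}

theorem isogFun_add_generic (h : TwoTors W e1 e2 e3) (h' : TwoTors W' f1 f2 f3)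
    (D : IsogData e1 e2 e3 f1 f2 f3 d u) {x1 y1 x2 y2 : L} (hn1 : W.Nonsingular x1 y1)
    (hn2 : W.Nonsingular x2 y2) (g1 : x1 ≠ e1) (g2 : x2 ≠ e1) (hx : x1 ≠ x2)
    (hB : (x1 - e1) * (x2 - e1) ≠ (e1 - e2) * (e1 - e3)) :
    isogFun h h' D (Point.some x1 y1 hn1 + Point.some x2 y2 hn2) =
      isogFun h h' D (Point.some x1 y1 hn1) + isogFun h h' D (Point.some x2 y2 hn2) := by
  have heq1 := h.eq_of_nonsingular hn1
  have heq2 := h.eq_of_nonsingular hn2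
  have hu := D.hu
  obtain ⟨X1, hX1⟩ : ∃ X, X = x1 - e1 := ⟨_, rfl⟩
  obtain ⟨X2, hX2⟩ : ∃ X, X = x2 - e1 := ⟨_, rfl⟩
  obtain ⟨p, hp⟩ : ∃ p, p = e1 - e2 := ⟨_, rfl⟩
  obtain ⟨q, hq⟩ : ∃ q, q = e1 - e3 := ⟨_, rfl⟩
  have hX10 : X1 ≠ 0 := by rw [hX1]; exact sub_ne_zero.2 g1
  have hX20 : X2 ≠ 0 := by rw [hX2]; exact sub_ne_zero.2 g2
  have hX12 : X1 ≠ X2 := by
    rw [hX1, hX2]
    intro h0
    exact hx (sub_left_inj.1 h0)
  have hX12' : X1 - X2 ≠ 0 := sub_ne_zero.2 hX12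
  rw [← hX1, ← hX2, ← hp, ← hq] at hB
  have k1 : y1 ^ 2 = X1 * (X1 + p) * (X1 + q) := by rw [heq1, hX1, hp, hq]; ring
  have k2 : y2 ^ 2 = X2 * (X2 + p) * (X2 + q) := by rw [heq2, hX2, hp, hq]; ring
  have hf2 : f2 = f1 + u ^ 2 * (p + q + 2 * d) := by
    rw [hp, hq]; linear_combination D.h2
  have hf3 : f3 = f1 + u ^ 2 * (p + q - 2 * d) := by
    rw [hp, hq]; linear_combination D.h3
  -- the line
  obtain ⟨m, hm⟩ : ∃ m, m = W.slope x1 x2 y1 y2 := ⟨_, rfl⟩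
  have hs : m * (X1 - X2) = y1 - y2 := by
    have hx' : x1 - x2 ≠ 0 := sub_ne_zero.2 hx
    rw [hm, slope_of_X_ne hx, hX1, hX2]
    rw [show x1 - e1 - (x2 - e1) = x1 - x2 by ring, div_mul_cancel₀ _ hx']
  obtain ⟨c, hc⟩ : ∃ c, c = y1 - m * X1 := ⟨_, rfl⟩
  have l1 : y1 = m * X1 + c := by rw [hc]; ring
  have l2 : y2 = m * X2 + c := by rw [hc]; linear_combination hs
  obtain ⟨s2, s3⟩ := ig_sym hX12 k1 k2 l1 l2
  obtain ⟨X3, hX3⟩ : ∃ X, X = m ^ 2 - (p + q) - X1 - X2 := ⟨_, rfl⟩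
  rw [← hX3] at s2 s3
  have hX30 : X3 ≠ 0 := by
    intro h0
    rw [h0, mul_zero] at s3
    have hc0 : c = 0 := pow_eq_zero_iff (two_ne_zero) |>.1 s3.symm
    rw [h0, hc0] at s2
    apply hB
    linear_combination s2
  have hc0 : c ≠ 0 := by
    intro h0
    rw [h0, zero_pow two_ne_zero] at s3
    exact (mul_ne_zero (mul_ne_zero hX10 hX20) hX30) s3
  -- the sum on `W`
  obtain ⟨y3, hy3⟩ : ∃ y, y = W.addY x1 x2 y1 m := ⟨_, rfl⟩
  obtain ⟨x3, hx3⟩ : ∃ x, x = W.addX x1 x2 m := ⟨_, rfl⟩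
  have hx3X : x3 - e1 = X3 := by
    rw [hx3, hX3, hX1, hX2, hp, hq, addX, h.a1, h.a2]
    ring
  have l3 : -y3 = m * X3 + c := by
    rw [hy3, addY, negAddY, ← hx3, h.negY_eq, ← hx3X, l1, hX1]
    ring
  have k3 : (-y3) ^ 2 = X3 * (X3 + p) * (X3 + q) := by
    rw [l3]
    linear_combination X3 * s2 - s3 - X3 ^ 2 * hX3
  have hadd : (Point.some x1 y1 hn1 : W.Point) + Point.some x2 y2 hn2 =
      Point.some x3 y3 (h.nonsingular_of_eq (by
        have : y3 ^ 2 = X3 * (X3 + p) * (X3 + q) := by rw [← k3]; ring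
        rw [this, ← hx3X, hp, hq]
        ring)) := by
    rw [Point.add_of_X_ne hx, Point.some.injEq]
    exact ⟨by rw [hx3, hm], by rw [hy3, hm]⟩
  have hx3e : x3 ≠ e1 := by
    intro h0
    apply hX30
    rw [← hx3X, h0, sub_self]
  rw [hadd, isogFun_some h h' D _ hx3e, isogFun_some h h' D hn1 g1, isogFun_some h h' D hn2 g2]
  -- images
  have z1 : isogX e1 f1 u x1 y1 = f1 + u ^ 2 * (y1 ^ 2 / X1 ^ 2) := by
    rw [isogX, ← hX1]; ring
  have z2 : isogX e1 f1 u x2 y2 = f1 + u ^ 2 * (y2 ^ 2 / X2 ^ 2) := by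
    rw [isogX, ← hX2]; ring
  have z3 : isogX e1 f1 u x3 y3 = f1 + u ^ 2 * ((-y3) ^ 2 / X3 ^ 2) := by
    rw [isogX, hx3X]; ring
  have w1 : isogY e1 e2 e3 u x1 y1 = u ^ 3 * (y1 * (p * q - X1 ^ 2) / X1 ^ 2) := by
    rw [isogY, ← hX1, ← hp, ← hq]; ring
  have w2 : isogY e1 e2 e3 u x2 y2 = u ^ 3 * (y2 * (p * q - X2 ^ 2) / X2 ^ 2) := by
    rw [isogY, ← hX2, ← hp, ← hq]; ring
  have w3 : isogY e1 e2 e3 u x3 y3 = -(u ^ 3 * (-y3 * (p * q - X3 ^ 2) / X3 ^ 2)) := by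
    rw [isogY, hx3X, ← hp, ← hq]; ring
  have i1 := ig_line hX10 hc0 k1 l1
  have i2 := ig_line hX20 hc0 k2 l2
  have i3 := ig_line hX30 hc0 k3 l3
  obtain ⟨m', hm'⟩ : ∃ m', m' = (p * q - c * m) / c := ⟨_, rfl⟩
  obtain ⟨c', hc'⟩ : ∃ c', c' = -(c ^ 2 - (p + q) * c * m + p * q * m ^ 2) / c := ⟨_, rfl⟩
  rw [← hm', ← hc'] at i1 i2 i3
  rw [i1] at w1
  rw [i2] at w2
  rw [i3] at w3
  -- the values `Z`
  have v1 : y1 ^ 2 / X1 ^ 2 = X1 + (p + q) + p * q / X1 := by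
    rw [k1]; field_simp; ring
  have v2 : y2 ^ 2 / X2 ^ 2 = X2 + (p + q) + p * q / X2 := by
    rw [k2]; field_simp; ring
  have v3 : (-y3) ^ 2 / X3 ^ 2 = X3 + (p + q) + p * q / X3 := by
    rw [k3]; field_simp; ring
  have hZsum : (X1 + (p + q) + p * q / X1) + (X2 + (p + q) + p * q / X2) +
      (X3 + (p + q) + p * q / X3) = m' ^ 2 + 2 * (p + q) := by
    have t1 : p * q / X1 + p * q / X2 + p * q / X3 = p * q * (p * q - 2 * m * c) / c ^ 2 := by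
      rw [← s2, ← s3]
      field_simp
      ring
    have t2 : X1 + X2 + X3 = m ^ 2 - (p + q) := by rw [hX3]; ring
    have t3 : m' ^ 2 = m ^ 2 + p * q * (p * q - 2 * m * c) / c ^ 2 := by
      rw [hm']
      field_simp
      ring
    linear_combination t1 + t2 - t3
  have hZ12 : y1 ^ 2 / X1 ^ 2 - y2 ^ 2 / X2 ^ 2 ≠ 0 := by
    rw [v1, v2]
    have : X1 + (p + q) + p * q / X1 - (X2 + (p + q) + p * q / X2) =
        (X1 - X2) * (X1 * X2 - p * q) / (X1 * X2) := by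
      field_simp
      ring
    rw [this]
    exact div_ne_zero (mul_ne_zero hX12' (sub_ne_zero.2 hB)) (mul_ne_zero hX10 hX20)
  have hne : isogX e1 f1 u x1 y1 ≠ isogX e1 f1 u x2 y2 := by
    rw [z1, z2]
    intro h0
    apply hZ12
    have h1 : u ^ 2 * (y1 ^ 2 / X1 ^ 2 - y2 ^ 2 / X2 ^ 2) = 0 := by linear_combination h0
    exact (mul_eq_zero.1 h1).resolve_left (pow_ne_zero 2 hu)
  have hslope : W'.slope (isogX e1 f1 u x1 y1) (isogX e1 f1 u x2 y2)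
      (isogY e1 e2 e3 u x1 y1) (isogY e1 e2 e3 u x2 y2) = u * m' := by
    rw [slope_of_X_ne hne, div_eq_iff (sub_ne_zero.2 hne), z1, z2, w1, w2]
    ring
  rw [Point.add_of_X_ne hne, Point.some.injEq, hslope]
  have hX' : W'.addX (isogX e1 f1 u x1 y1) (isogX e1 f1 u x2 y2) (u * m') =
      isogX e1 f1 u x3 y3 := by
    rw [addX, h'.a1, h'.a2, z1, z2, z3, v1, v2, v3, hf2, hf3]
    linear_combination (-u ^ 2) * hZsum
  constructor
  · exact hX'.symm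
  · rw [addY, negAddY, hX', h'.negY_eq, z1, z3, w1, w3]
    ring

end Pool.Agent.Work.MP_787500_nt.RS
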