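import Mathlib
import Pool.Agent.Work.MP_787500_nt.RS.IsogDefs

/-!
# Module ISOGTOR: the isogeny of degree two, negation and translation by the kernel

`isogFun_neg`: `φ (-P) = - φ P` (`isogX` is even, `isogY` odd in `y`; `negY_eq`).
`isogFun_add_tor`: `φ (P + T) = φ P` for `T = tor h = (e1, 0)`. For `P = (x, y)`, `x ≠ e1`,
`some_add_tor` (H9_Alg) gives `P + T = (x', y')` with `(x' - e1)(x - e1) = B`,
`y' (x - e1)^2 = - y B`, `B = (e1 - e2)(e1 - e3) ≠ 0`, so `x' ≠ e1`, and the coordinates agree.
-/

set_option autoImplicit false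

namespace Pool.Agent.Work.MP_787500_nt.RS

open WeierstrassCurve WeierstrassCurve.Affine

variable {L : Type*} [Field L] [CharZero L] [DecidableEq L]
variable {W W' : WeierstrassCurve.Affine L} {e1 e2 e3 f1 f2 f3 d u : L}

theorem isogFun_neg (h : TwoTors W e1 e2 e3) (h' : TwoTors W' f1 f2 f3)
    (D : IsogData e1 e2 e3 f1 f2 f3 d u) (P : W.Point) :
    isogFun h h' D (-P) = -isogFun h h' D P := by
  rcases P with _ | ⟨x, y, hn⟩
  · rfl
  · rw [Point.neg_some]
    by_cases hx : x = e1
    · rw [isogFun_of_eq h h' D _ hx, isogFun_of_eq h h' D hn hx, neg_zero]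
    · rw [isogFun_some h h' D _ hx, isogFun_some h h' D hn hx, Point.neg_some, Point.some.injEq]
      constructor
      · rw [h.negY_eq, isogX, isogX, neg_sq]
      · rw [h.negY_eq, h'.negY_eq, isogY, isogY]
        ring

theorem isogFun_add_tor (h : TwoTors W e1 e2 e3) (h' : TwoTors W' f1 f2 f3)
    (D : IsogData e1 e2 e3 f1 f2 f3 d u) (P : W.Point) :
    isogFun h h' D (P + tor h) = isogFun h h' D P := by
  rcases P with _ | ⟨x, y, hn⟩
  · rw [← Point.zero_def, zero_add, isogFun_zero]
    exact isogFun_of_eq h h' D (h.nonsingular_of_eq (by ring)) rfl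
  · by_cases hx : x = e1
    · subst hx
      have heq := h.eq_of_nonsingular hn
      have hy : y = 0 := by
        have : y ^ 2 = 0 := by rw [heq]; ring
        exact pow_eq_zero_iff (two_ne_zero) |>.1 this
      subst hy
      have h1 : (Point.some x 0 hn : W.Point) = tor h := rfl
      rw [h1, tor_add_tor h, isogFun_zero, ← h1, isogFun_of_eq h h' D hn rfl]
    · obtain ⟨X, Y, hn', hadd, hX, hY⟩ := some_add_tor h hn hx
      have hx' : x - e1 ≠ 0 := sub_ne_zero.2 hx
      have hd : (e1 - e2) * (e1 - e3) ≠ 0 :=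
        mul_ne_zero (sub_ne_zero.2 h.h12) (sub_ne_zero.2 h.h31.symm)
      have hX0 : X - e1 ≠ 0 := by
        intro h0
        rw [h0, zero_mul] at hX
        exact hd hX.symm
      have hXe : X ≠ e1 := sub_ne_zero.1 hX0
      rw [hadd, isogFun_some h h' D _ hXe, isogFun_some h h' D hn hx, Point.some.injEq]
      have e1' : X - e1 = (e1 - e2) * (e1 - e3) / (x - e1) := by
        rw [eq_div_iff hx', hX]
      have e2' : Y = -y * ((e1 - e2) * (e1 - e3)) / (x - e1) ^ 2 := by
        rw [eq_div_iff (pow_ne_zero 2 hx'), hY]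
      have h12 : e1 - e2 ≠ 0 := sub_ne_zero.2 h.h12
      have h13 : e1 - e3 ≠ 0 := sub_ne_zero.2 h.h31.symm
      constructor
      · rw [isogX, isogX, e1', e2']
        field_simp
      · rw [isogY, isogY, e1', e2']
        field_simp
        ring

end Pool.Agent.Work.MP_787500_nt.RS
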