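import Mathlib
import Pool.Agent.Work.MP_787500_nt.H9_Alg
import Pool.Agent.Work.MP_787500_nt.RS.Defs
import Pool.Agent.Work.MP_787500_nt.RS.IsogDefs
import Pool.Agent.Work.MP_787500_nt.RS.IsogTor
import Pool.Agent.Work.MP_787500_nt.RS.IsogDbl
import Pool.Agent.Work.MP_787500_nt.RS.IsogGen

/-!
# Module ISOG: the isogeny of degree two is a homomorphism

Assembly: `isogFun` is additive.
* `P1 = 0` or `P2 = 0`: trivial. `x1 = e1` or `x2 = e1` (then `y = 0` and the point is `T = tor h`):
  `isogFun_add_tor` (and commutativity).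
* `x1 = x2`: `P2 = P1` (`isogFun_double`) or `P2 = -P1` (`isogFun_neg`).
* `x1 ≠ x2`, `(x1 - e1)(x2 - e1) = B := (e1 - e2)(e1 - e3)`: by `some_add_tor`, `P1 + T` has first
  coordinate `x2`, so `P2 = ±(P1 + T)` : `P2 = P1 + T`: `φ (2 P1 + T) = φ (2 P1) = 2 φ P1`;
  `P2 = -(P1 + T)`: `P1 + P2 = -T = T`, `φ = 0`, and `φ P2 = - φ P1`.
* otherwise `isogFun_add_generic`.
-/

set_option autoImplicit false

namespace Pool.Agent.Work.MP_787500_nt.RS

open WeierstrassCurve WeierstrassCurve.Affine

variable {L : Type*} [Field L] [CharZero L] [DecidableEq L]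
variable {W W' : WeierstrassCurve.Affine L} {e1 e2 e3 f1 f2 f3 d u : L}

private lemma is_eq_tor (h : TwoTors W e1 e2 e3) {x y : L} (hn : W.Nonsingular x y)
    (hx : x = e1) : (Point.some x y hn : W.Point) = tor h := by
  subst hx
  have heq := h.eq_of_nonsingular hn
  have hy : y = 0 := by
    have : y ^ 2 = 0 := by rw [heq]; ring
    exact pow_eq_zero_iff (two_ne_zero) |>.1 this
  subst hy
  rfl

private lemma is_tor (h : TwoTors W e1 e2 e3) (h' : TwoTors W' f1 f2 f3)
    (D : IsogData e1 e2 e3 f1 f2 f3 d u) : isogFun h h' D (tor h) = 0 :=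
  isogFun_of_eq h h' D (h.nonsingular_of_eq (by ring)) rfl

/-- points with the same first coordinate -/
private lemma is_same_x (h : TwoTors W e1 e2 e3) {x y y' : L} (hn : W.Nonsingular x y)
    (hn' : W.Nonsingular x y') : (Point.some x y' hn' : W.Point) = Point.some x y hn ∨
      (Point.some x y' hn' : W.Point) = -Point.some x y hn := by
  have h1 := h.eq_of_nonsingular hn
  have h2 := h.eq_of_nonsingular hn'
  have h3 : (y' - y) * (y' + y) = 0 := by linear_combination h2 - h1
  rcases mul_eq_zero.1 h3 with h4 | h4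
  · left
    rw [Point.some.injEq]
    exact ⟨rfl, sub_eq_zero.1 h4⟩
  · right
    rw [Point.neg_some, Point.some.injEq, h.negY_eq]
    exact ⟨rfl, by linear_combination h4⟩

theorem isogFun_add (h : TwoTors W e1 e2 e3) (h' : TwoTors W' f1 f2 f3)
    (D : IsogData e1 e2 e3 f1 f2 f3 d u) (P Q : W.Point) :
    isogFun h h' D (P + Q) = isogFun h h' D P + isogFun h h' D Q := by
  rcases P with _ | ⟨x1, y1, hn1⟩
  · rw [← Point.zero_def, zero_add, isogFun_zero, zero_add]
  rcases Q with _ | ⟨x2, y2, hn2⟩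
  · rw [← Point.zero_def, add_zero, isogFun_zero, add_zero]
  by_cases g1 : x1 = e1
  · rw [is_eq_tor h hn1 g1, add_comm, isogFun_add_tor, is_tor, zero_add]
  by_cases g2 : x2 = e1
  · rw [is_eq_tor h hn2 g2, isogFun_add_tor, is_tor, add_zero]
  by_cases hx : x1 = x2
  · subst hx
    rcases is_same_x h hn1 hn2 with h1 | h1
    · rw [h1, isogFun_double]
    · rw [h1, add_neg_cancel, isogFun_neg, add_neg_cancel, isogFun_zero]
  by_cases hB : (x1 - e1) * (x2 - e1) = (e1 - e2) * (e1 - e3)
  · obtain ⟨X, Y, hn, hadd, hX, hY⟩ := some_add_tor h hn1 g1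
    have hXx : X = x2 := by
      have h1 : (X - x2) * (x1 - e1) = 0 := by linear_combination hX - hB
      exact sub_eq_zero.1 ((mul_eq_zero.1 h1).resolve_right (sub_ne_zero.2 g1))
    subst hXx
    rcases is_same_x h hn hn2 with h1 | h1
    · rw [h1, ← hadd, ← add_assoc, isogFun_add_tor, isogFun_double, isogFun_add_tor]
    · rw [h1, ← hadd]
      have h2 : (Point.some x1 y1 hn1 : W.Point) + -(Point.some x1 y1 hn1 + tor h) = -tor h := by
        abel
      rw [h2, isogFun_neg, is_tor, isogFun_neg, isogFun_add_tor, neg_zero, add_neg_cancel]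
  · exact isogFun_add_generic h h' D hn1 hn2 g1 g2 hx hB

theorem exists_isog (h : TwoTors W e1 e2 e3) (h' : TwoTors W' f1 f2 f3)
    (D : IsogData e1 e2 e3 f1 f2 f3 d u) :
    ∃ φ : W.Point →+ W'.Point, φ (tor h) = 0 ∧
      ∀ (x y : L) (hn : W.Nonsingular x y), x ≠ e1 →
        ∃ hn' : W'.Nonsingular (isogX e1 f1 u x y) (isogY e1 e2 e3 u x y),
          φ (Point.some x y hn) = Point.some _ _ hn' :=
  ⟨{ toFun := isogFun h h' D
     map_zero' := isogFun_zero h h' D
     map_add' := isogFun_add h h' D }, isogFun_of_eq h h' D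
      (x := e1) (y := 0) (h.nonsingular_of_eq (by ring)) rfl,
    fun _ _ hn hx => ⟨isog_nonsingular h h' D hn hx, isogFun_some h h' D hn hx⟩⟩

end Pool.Agent.Work.MP_787500_nt.RS
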