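import Mathlib
import Pool.Agent.Work.MP_787500_nt.H9_Descent
import Pool.Agent.Work.MP_787500_nt.RS.Defs
import Pool.Agent.Work.MP_787500_nt.RS.Isog

/-!
# Module CM: the torsion of the curve with complex multiplication generates an abelian extension

`w + w' = 1`, `w w' = 2` in `K`; `W` over `K` is `y^2 = x (x - 1)(x - w'^4)`. Over `Ω` the isogeny
with `(e1, e2, e3) = (0, w'^4, 1)`, `(f1, f2, f3) = (1, w'^4, 0)`, `d = w'^2`, `u = 1/w` maps `W` to
itself (`w^4 + w'^4 = 1`, `1 + w'^2 = -w`, `(1 - w'^2)^2 = w^6`, so `IsogData` holds); call it `α`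
(`exists_isog`; the `TwoTors` are rotations/swaps of the given one). It commutes with the action
`Point.map σ` of the automorphisms `σ` of `Ω` over `K` because its coefficients are in `K`.
`α (w'^4, 0) = (1, 0)` (explicit formula), and `(w'^4, 0)`, `(1, 0)` generate the 2-torsion.
For `k ≥ 1` take `P` with `2^(k-1) P = (w'^4, 0)` (`exists_half` in H9_Descent, repeatedly). Then
every `Q` with `2^k Q = 0` is `m P + n α P` with integers `m`, `n`: induction, for `2^j Q = 0` and
the points `2^(k-j) P`, `2^(k-j) α P` in place of `P`, `α P`: `2 Q = m (2P') + n (2 α P')`, and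
`Q - m P' - n α P'` is a 2-torsion point, hence a combination of `2^(j-1) P'`, `2^(j-1) α P'`
(`two_torsion_cases`). So `σ P = m P + n α P`, `τ P = m' P + n' α P`, and
`σ τ P = m' σ P + n' α σ P = τ σ P`; hence `σ τ Q = τ σ Q` for all `Q` with `2^k Q = 0`, which says
that the coordinates of `Q` are in `abField K Ω`.
-/

set_option autoImplicit false

namespace Pool.Agent.Work.MP_787500_nt.RS

open WeierstrassCurve WeierstrassCurve.Affine

private theorem cm_data {L : Type*} [Field L] [CharZero L] {w v : L} (hadd : w + v = 1)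
    (hmul : w * v = 2) : IsogData 0 (v ^ 4) 1 1 (v ^ 4) 0 (v ^ 2) (1 / w) := by
  have hw : w ≠ 0 := by
    rintro rfl
    norm_num at hmul
  have hv : w = 1 - v := by linear_combination hadd
  have hq : v ^ 2 = v - 2 := by
    subst hv
    linear_combination -hmul
  have hw2 : w ^ 2 ≠ 0 := pow_ne_zero 2 hw
  have k1 : 1 + v ^ 2 = -w := by rw [hv, hq]; ring
  have k2 : v ^ 2 - 1 = w ^ 3 := by
    subst hv
    linear_combination (v - 1) * hq
  refine ⟨by ring, one_div_ne_zero hw, ?_, ?_⟩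
  · rw [one_div, inv_pow, eq_inv_mul_iff_mul_eq₀ hw2]
    have : v ^ 4 = (1 + v ^ 2) * (v ^ 2 - 1) + 1 := by ring
    have e1 : v ^ 4 - 1 = -w ^ 4 := by rw [this, k1, k2]; ring
    have e2 : 2 * 0 - v ^ 4 - 1 + 2 * v ^ 2 = -(v ^ 2 - 1) ^ 2 := by ring
    rw [e1, e2, k2]; ring
  · rw [one_div, inv_pow, eq_inv_mul_iff_mul_eq₀ hw2]
    have e2 : 2 * 0 - v ^ 4 - 1 - 2 * v ^ 2 = -(1 + v ^ 2) ^ 2 := by ring
    rw [e2, k1]; ring

private theorem span_aux {A : Type*} [AddCommGroup A] (α : A →+ A) {T : A}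
    (h2 : ∀ Q : A, Q + Q = 0 → ∃ m n : ℤ, Q = m • T + n • α T) (k : ℕ) :
    ∀ P : A, (2 ^ k) • P = T → ∀ Q : A, (2 ^ (k + 1)) • Q = 0 →
      ∃ m n : ℤ, Q = m • P + n • α P := by
  induction k with
  | zero =>
    intro P hP Q hQ
    rw [pow_zero, one_smul] at hP
    subst hP
    exact h2 Q (by rw [← two_nsmul]; simpa using hQ)
  | succ k ih =>
    intro P hP Q hQ
    obtain ⟨m, n, hmn⟩ := ih (2 • P) (by rw [smul_smul, ← pow_succ]; exact hP) (2 • Q)
      (by rw [smul_smul, ← pow_succ]; exact hQ)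
    obtain ⟨m', n', h'⟩ := h2 (Q - (m • P + n • α P)) (by
      rw [← two_nsmul, smul_sub, hmn, map_nsmul, smul_add, smul_comm (2 : ℕ) m P,
        smul_comm (2 : ℕ) n (α P), sub_self])
    refine ⟨m + m' * 2 ^ (k + 1), n + n' * 2 ^ (k + 1), ?_⟩
    have hT : T = ((2 ^ (k + 1) : ℕ) : ℤ) • P := by
      rw [← hP, natCast_zsmul]
    rw [hT, map_zsmul, smul_smul, smul_smul, sub_eq_iff_eq_add] at h'
    rw [h', add_smul, add_smul]
    push_cast
    abel

private theorem comm_aux {A : Type*} [AddCommGroup A] (α σ τ : A →+ A)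
    (hs : ∀ P, σ (α P) = α (σ P)) (ht : ∀ P, τ (α P) = α (τ P)) {P : A}
    (h1 : ∃ m n : ℤ, σ P = m • P + n • α P) (h2 : ∃ m n : ℤ, τ P = m • P + n • α P) {Q : A}
    (hQ : ∃ m n : ℤ, Q = m • P + n • α P) : σ (τ Q) = τ (σ Q) := by
  obtain ⟨m, n, h1⟩ := h1
  obtain ⟨m', n', h2⟩ := h2
  obtain ⟨r, s, hQ⟩ := hQ
  have key : σ (τ P) = τ (σ P) := by
    rw [h1, h2]
    simp only [map_add, map_zsmul, hs, ht, h1, h2, smul_add, smul_smul]
    rw [mul_comm m' m, mul_comm m' n, mul_comm n' m, mul_comm n' n]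
    abel
  rw [hQ]
  simp only [map_add, map_zsmul, hs, ht, key]

private theorem exists_root {A : Type*} [AddCommGroup A] (h : ∀ P : A, ∃ Q : A, Q + Q = P)
    (T : A) (k : ℕ) : ∃ P : A, (2 ^ k) • P = T := by
  induction k with
  | zero => exact ⟨T, by rw [pow_zero, one_smul]⟩
  | succ k ih =>
    obtain ⟨P, hP⟩ := ih
    obtain ⟨Q, hQ⟩ := h P
    exact ⟨Q, by rw [pow_succ, mul_smul, two_nsmul, hQ, hP]⟩

theorem cm_torsIn {K Ω : Type*} [Field K] [CharZero K] [Field Ω] [Algebra K Ω] [IsAlgClosed Ω]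
    [DecidableEq Ω] {w w' : K} (hadd : w + w' = 1) (hmul : w * w' = 2)
    {W : WeierstrassCurve.Affine K} (h : TwoTors W (w' ^ 4) 1 0) :
    TorsIn (abField K Ω) (W⁄Ω) := by
  have : CharZero Ω := charZero_of_injective_algebraMap (algebraMap K Ω).injective
  have ht : TwoTors (W⁄Ω) ((algebraMap K Ω w') ^ 4) 1 0 := by
    have := h.bc Ω
    rwa [map_pow, map_one, map_zero] at this
  set v : Ω := algebraMap K Ω w' with hv
  have D : IsogData 0 (v ^ 4) 1 1 (v ^ 4) 0 (v ^ 2) (1 / algebraMap K Ω w) := by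
    apply cm_data
    · rw [hv, ← map_add, hadd, map_one]
    · rw [hv, ← map_mul, hmul, map_ofNat]
  obtain ⟨α, hα0, hα⟩ := exists_isog ht.rot.rot ht.rot.swap D
  -- the value at the torsion point
  have hαT : α (tor ht) = tor ht.rot := by
    obtain ⟨hn, h1⟩ := hα (v ^ 4) 0 (ht.nonsingular_of_eq (by ring)) ht.h31.symm
    rw [tor, h1, tor]
    simp only [Point.some.injEq]
    refine ⟨?_, ?_⟩
    · rw [isogX]; ring
    · rw [isogY]; ring
  -- commutation with automorphisms
  have hcomm : ∀ (σ : Ω ≃ₐ[K] Ω) (P : (W⁄Ω).Point),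
      Point.map (W' := W) (σ : Ω →ₐ[K] Ω) (α P) = α (Point.map (W' := W) (σ : Ω →ₐ[K] Ω) P) := by
    intro σ P
    have hc : ∀ x : K, (σ : Ω →ₐ[K] Ω) (algebraMap K Ω x) = algebraMap K Ω x :=
      fun x => AlgHom.commutes _ x
    rcases P with _ | ⟨x, y, hn⟩
    · rw [← Point.zero_def, map_zero, map_zero, map_zero]
    · by_cases hx : x = 0
      · have hy : y = 0 := by
          have := ht.eq_of_nonsingular hn
          rw [hx, sub_zero, mul_zero] at this
          exact pow_eq_zero_iff (two_ne_zero) |>.1 this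
        have hP : (Point.some x y hn : (W⁄Ω).Point) = tor ht.rot.rot := by
          rw [tor]
          simp only [Point.some.injEq]
          exact ⟨hx, hy⟩
        have hP' : Point.map (W' := W) (σ : Ω →ₐ[K] Ω) (tor ht.rot.rot) = tor ht.rot.rot := by
          rw [tor, Point.map_some]
          simp only [Point.some.injEq]
          exact ⟨map_zero _, map_zero _⟩
        rw [hP, hα0, hP', hα0, map_zero]
      · have hx' : (σ : Ω →ₐ[K] Ω) x ≠ 0 := by
          intro h0
          apply hx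
          exact (map_eq_zero_iff _ (σ : Ω →ₐ[K] Ω).injective).1 h0
        obtain ⟨hn1, h1⟩ := hα x y hn hx
        rw [h1, Point.map_some, Point.map_some]
        obtain ⟨hn2, h2⟩ := hα ((σ : Ω →ₐ[K] Ω) x) ((σ : Ω →ₐ[K] Ω) y)
          ((baseChange_nonsingular W (σ : Ω →ₐ[K] Ω).injective ..).mpr hn) hx'
        rw [h2]
        simp only [Point.some.injEq]
        have hcw := hc w
        have hcv := hc w'
        rw [← hv] at hcv
        refine ⟨?_, ?_⟩
        · rw [isogX, isogX]
          simp only [map_add, map_div₀, map_mul, map_pow, map_sub, map_one, map_zero, hcw]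
        · rw [isogY, isogY]
          simp only [map_div₀, map_mul, map_pow, map_sub, map_one, map_zero, hcw, hcv]
  have h2 : ∀ Q : (W⁄Ω).Point, Q + Q = 0 → ∃ m n : ℤ, Q = m • tor ht + n • α (tor ht) := by
    intro Q hQ
    rw [hαT]
    rcases two_torsion_cases ht hQ with hh | hh | hh | hh
    · exact ⟨0, 0, by rw [hh, zero_smul, zero_smul, add_zero]⟩
    · exact ⟨1, 0, by rw [hh, zero_smul, one_smul, add_zero]⟩
    · exact ⟨0, 1, by rw [hh, zero_smul, one_smul, zero_add]⟩
    · exact ⟨1, 1, by rw [hh, one_smul, one_smul, tor_add_rot]⟩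
  intro k x y hn hk
  obtain ⟨P, hP⟩ := exists_root (exists_half ht) (tor ht) k
  have hspan := span_aux α h2 k P hP
  have hP2 : (2 ^ (k + 1)) • P = 0 := by
    rw [pow_succ', mul_smul, hP, two_nsmul, tor_add_tor]
  have hmem : ∀ σ τ : Ω ≃ₐ[K] Ω,
      Point.map (W' := W) (σ : Ω →ₐ[K] Ω) (Point.map (W' := W) (τ : Ω →ₐ[K] Ω)
        (Point.some x y hn)) =
      Point.map (W' := W) (τ : Ω →ₐ[K] Ω) (Point.map (W' := W) (σ : Ω →ₐ[K] Ω)
        (Point.some x y hn)) := by
    intro σ τ
    refine comm_aux α (Point.map (W' := W) (σ : Ω →ₐ[K] Ω)) (Point.map (W' := W) (τ : Ω →ₐ[K] Ω))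
      (hcomm σ) (hcomm τ) (P := P) (hspan _ ?_) (hspan _ ?_) (hspan _ ?_)
    · rw [← map_nsmul, hP2, map_zero]
    · rw [← map_nsmul, hP2, map_zero]
    · rw [pow_succ', mul_smul, hk, smul_zero]
  refine ⟨?_, ?_⟩
  · rw [mem_abField]
    intro σ τ
    have := hmem σ τ
    rw [Point.map_some, Point.map_some, Point.map_some, Point.map_some] at this
    simp only [Point.some.injEq] at this
    exact this.1
  · rw [mem_abField]
    intro σ τ
    have := hmem σ τ
    rw [Point.map_some, Point.map_some, Point.map_some, Point.map_some] at this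
    simp only [Point.some.injEq] at this
    exact this.2

end Pool.Agent.Work.MP_787500_nt.RS
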