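import Mathlib
import Pool.Agent.Work.MP_787500_nt.RS.Defs

/-!
# Module ISO: near zero, `t = (x - e1) / y` is an isometry for subtraction

Write `X = x - e1`, `a = e2 - e1`, `b = e3 - e1`, so `y^2 = X (X - a) (X - b)`, and `t = X / y`.
For a point with `1 ≤ V (p^2 X)`: `V (a / X) < V 4 ≤ 1` and `V (b / X) < 1`, so
`V y ^ 2 = V X ^ 3`, `y ≠ 0` and `V t ^ 2 * V X = 1`  (this is `val_tpar`).
-/

set_option autoImplicit false

namespace Pool.Agent.Work.MP_787500_nt.RS

open WithZero WeierstrassCurve WeierstrassCurve.Affine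

variable {C : Type*} [Field C] [CharZero C] [DecidableEq C] {V : Valuation C ℤᵐ⁰}
variable {W : WeierstrassCurve.Affine C} {e1 e2 e3 p : C}

omit [CharZero C] [DecidableEq C] in
theorem iso_four (hp : Small V e1 e2 e3 p) : V 4 < 1 := by
  have h : (4 : C) = 2 * 2 := by norm_num
  rw [h, map_mul]
  exact mul_lt_one' hp.two hp.two

omit [CharZero C] [DecidableEq C] in
theorem iso_lt (hp : Small V e1 e2 e3 p) {X a : C} (ha : V (p ^ 2 * a) < V 4)
    (hX : 1 ≤ V (p ^ 2 * X)) : V a < V X := by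
  have hp2 : V (p ^ 2) ≠ 0 := (Valuation.ne_zero_iff V).2 (pow_ne_zero 2 hp.ne)
  have h1 : V (p ^ 2) * V a < V (p ^ 2) * V X := by
    rw [← map_mul, ← map_mul]
    exact (ha.trans (iso_four hp)).trans_le hX
  exact lt_of_mul_lt_mul_left' h1

omit [CharZero C] [DecidableEq C] in
theorem iso_sub (hp : Small V e1 e2 e3 p) {X a : C} (ha : V (p ^ 2 * a) < V 4)
    (hX : 1 ≤ V (p ^ 2 * X)) : V (X - a) = V X :=
  Valuation.map_sub_eq_of_lt_left V (iso_lt hp ha hX)

omit [CharZero C] [DecidableEq C] in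
theorem iso_y (h : TwoTors W e1 e2 e3) (hp : Small V e1 e2 e3 p) {x y : C}
    (hn : W.Nonsingular x y) (hG : 1 ≤ V (p ^ 2 * (x - e1))) :
    x - e1 ≠ 0 ∧ y ≠ 0 ∧ V (y ^ 2) = V ((x - e1) ^ 3) := by
  have hX : x - e1 ≠ 0 := by
    intro h0
    rw [h0, mul_zero, map_zero] at hG
    exact absurd hG (not_le.2 zero_lt_one)
  have heq := h.eq_of_nonsingular hn
  have h1 : V (x - e2) = V (x - e1) := by
    have := iso_sub hp hp.h12 hG
    rw [← this]
    congr 1
    ring
  have h2 : V (x - e3) = V (x - e1) := by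
    have := iso_sub hp hp.h13 hG
    rw [← this]
    congr 1
    ring
  have h3 : V (y ^ 2) = V ((x - e1) ^ 3) := by
    rw [heq, map_mul, map_mul, h1, h2, ← map_mul, ← map_mul]
    congr 1
    ring
  refine ⟨hX, ?_, h3⟩
  intro h0
  rw [h0, zero_pow (by norm_num), map_zero] at h3
  exact (Valuation.ne_zero_iff V).2 (pow_ne_zero 3 hX) h3.symm

omit [CharZero C] [DecidableEq C] in
theorem iso_tpar (h : TwoTors W e1 e2 e3) (hp : Small V e1 e2 e3 p) {x y : C}
    (hn : W.Nonsingular x y) (hG : 1 ≤ V (p ^ 2 * (x - e1))) :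
    y ≠ 0 ∧ V ((x - e1) / y) ^ 2 * V (x - e1) = 1 := by
  obtain ⟨hX, hy, h3⟩ := iso_y h hp hn hG
  refine ⟨hy, ?_⟩
  have e : ((x - e1) / y) ^ 2 * (x - e1) = (x - e1) ^ 3 / y ^ 2 := by
    rw [div_pow]
    ring
  rw [← map_pow, ← map_mul, e, map_div₀, h3]
  exact div_self ((Valuation.ne_zero_iff V).2 (pow_ne_zero 3 hX))

omit [DecidableEq C] in
theorem val_tpar (h : TwoTors W e1 e2 e3) (hp : Small V e1 e2 e3 p) {x y : C}
    (hn : W.Nonsingular x y) (hG : 1 ≤ V (p ^ 2 * (x - e1))) :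
    y ≠ 0 ∧ V ((x - e1) / y) ^ 2 * V (x - e1) = 1 :=
  iso_tpar h hp hn hG

omit [CharZero C] [DecidableEq C] in
theorem iso_tpar_le (h : TwoTors W e1 e2 e3) (hp : Small V e1 e2 e3 p) {x y : C}
    (hn : W.Nonsingular x y) (hG : 1 ≤ V (p ^ 2 * (x - e1))) : V ((x - e1) / y) ≤ V p := by
  obtain ⟨hX, hy, h3⟩ := iso_y h hp hn hG
  have h1 := (iso_tpar h hp hn hG).2
  have hX' : V (x - e1) ≠ 0 := (Valuation.ne_zero_iff V).2 hX
  have h2 : V ((x - e1) / y) ^ 2 * V (x - e1) ≤ V p ^ 2 * V (x - e1) := by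
    rw [h1, ← map_pow, ← map_mul]
    exact hG
  have h4 : V ((x - e1) / y) ^ 2 ≤ V p ^ 2 :=
    le_of_mul_le_mul_right h2 (zero_lt_iff.2 hX')
  exact (pow_le_pow_iff_left₀ zero_le zero_le (by norm_num)).1 h4

omit [CharZero C] [DecidableEq C] in
theorem val_tpar_le (h : TwoTors W e1 e2 e3) (hp : Small V e1 e2 e3 p) {P : W.Point}
    (hP : InG V e1 p P) : V (tpar e1 P) ≤ V p := by
  rcases P with _ | ⟨x, y, hn⟩
  · have e : tpar e1 (Point.zero : W.Point) = 0 := rfl
    rw [e, map_zero]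
    exact zero_le
  · exact iso_tpar_le h hp hn hP

omit [CharZero C] in
/-- subtraction of two points with different first coordinates -/
theorem sub_some_of_X_ne (h : TwoTors W e1 e2 e3) {x1 y1 x2 y2 : C} (h1 : W.Nonsingular x1 y1)
    (h2 : W.Nonsingular x2 y2) (hx : x1 ≠ x2) :
    ∃ (x3 y3 : C) (h3 : W.Nonsingular x3 y3),
      (Point.some x1 y1 h1 - Point.some x2 y2 h2 : W.Point) = Point.some x3 y3 h3 ∧
      x3 = ((y1 + y2) / (x1 - x2)) ^ 2 + (e1 + e2 + e3) - x1 - x2 := by
  rw [sub_eq_add_neg, Point.neg_some]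
  refine ⟨_, _, _, Point.add_of_X_ne hx, ?_⟩
  rw [addX, slope_of_X_ne hx, h.a1, h.a2, h.negY_eq]
  ring

omit [CharZero C] in
/-- subtraction of two points with equal first coordinates -/
theorem sub_some_of_X_eq (h : TwoTors W e1 e2 e3) {x1 y1 x2 y2 : C} (h1 : W.Nonsingular x1 y1)
    (h2 : W.Nonsingular x2 y2) (hx : x1 = x2) :
    (y1 = y2 ∧ (Point.some x1 y1 h1 - Point.some x2 y2 h2 : W.Point) = 0) ∨
      (y2 = -y1 ∧ (Point.some x1 y1 h1 - Point.some x2 y2 h2 : W.Point) =
        Point.some x1 y1 h1 + Point.some x1 y1 h1) := by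
  subst hx
  rcases Y_eq_of_X_eq h1.1 h2.1 rfl with hy | hy
  · left
    subst hy
    exact ⟨rfl, sub_self _⟩
  · right
    rw [h.negY_eq] at hy
    have hy' : y2 = -y1 := by rw [hy, neg_neg]
    subst hy'
    refine ⟨rfl, ?_⟩
    rw [sub_eq_add_neg, Point.neg_some]
    congr 1
    simp only [Point.some.injEq, true_and]
    rw [h.negY_eq, neg_neg]

theorem iso_aux (h : TwoTors W e1 e2 e3) (hp : Small V e1 e2 e3 p) {R : W.Point} {x3 y3 : C}
    {h3 : W.Nonsingular x3 y3} (hR : R = Point.some x3 y3 h3) {τ : C} (hτ : V τ ≤ V p)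
    (hX : V (x3 - e1) * V τ ^ 2 = 1) : InG V e1 p R ∧ V (tpar e1 R) = V τ := by
  subst hR
  have hG : 1 ≤ V (p ^ 2 * (x3 - e1)) := by
    rw [map_mul, map_pow, mul_comm, ← hX]
    exact mul_le_mul_right (pow_le_pow_left₀ zero_le hτ 2) _
  refine ⟨hG, ?_⟩
  have h1 := (val_tpar h hp h3 hG).2
  have hne : V (x3 - e1) ≠ 0 := by
    intro h0
    rw [h0, zero_mul] at hX
    exact zero_ne_one hX
  have h2 : V ((x3 - e1) / y3) ^ 2 = V τ ^ 2 := by
    rw [mul_comm] at hX
    exact mul_right_cancel₀ hne (h1.trans hX.symm)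
  exact (pow_left_inj₀ zero_le zero_le (by norm_num)).1 h2

theorem sub_mem (h : TwoTors W e1 e2 e3) (hp : Small V e1 e2 e3 p) {P Q : W.Point}
    (hP : InG V e1 p P) (hQ : InG V e1 p Q) :
    InG V e1 p (P - Q) ∧ V (tpar e1 (P - Q)) = V (tpar e1 P - tpar e1 Q) := by
  rcases P with _ | ⟨x1, y1, h1⟩
  · rcases Q with _ | ⟨x2, y2, h2⟩
    · have e : ((Point.zero : W.Point) - Point.zero) = Point.zero := sub_self _
      rw [e]
      refine ⟨trivial, ?_⟩
      simp [tpar]
    · have e : ((Point.zero : W.Point) - Point.some x2 y2 h2) =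
          Point.some _ _ ((nonsingular_neg ..).mpr h2) := zero_sub _
      rw [e]
      refine ⟨hQ, ?_⟩
      simp only [tpar]
      rw [h.negY_eq, zero_sub, div_neg, Valuation.map_neg]
  · rcases Q with _ | ⟨x2, y2, h2⟩
    · have e : ((Point.some x1 y1 h1 : W.Point) - Point.zero) = Point.some x1 y1 h1 := sub_zero _
      rw [e]
      refine ⟨hP, ?_⟩
      simp [tpar]
    · have hG1 : 1 ≤ V (p ^ 2 * (x1 - e1)) := hP
      have hG2 : 1 ≤ V (p ^ 2 * (x2 - e1)) := hQ
      obtain ⟨hX1, hy1, hv1⟩ := iso_y h hp h1 hG1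
      obtain ⟨hX2, hy2, hv2⟩ := iso_y h hp h2 hG2
      have E1 := h.eq_of_nonsingular h1
      have E2 := h.eq_of_nonsingular h2
      have hτ : V ((x1 - e1) / y1 - (x2 - e1) / y2) ≤ V p :=
        (Valuation.map_sub V _ _).trans
          (max_le (iso_tpar_le h hp h1 hG1) (iso_tpar_le h hp h2 hG2))
      by_cases hx : x1 = x2
      · rcases sub_some_of_X_eq h h1 h2 hx with ⟨hy, hz⟩ | ⟨hy, hz⟩
        · rw [hz]
          refine ⟨trivial, ?_⟩
          subst hx
          subst hy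
          have e : (tpar e1 (0 : W.Point)) = 0 := rfl
          rw [e]
          simp
        · obtain ⟨X3, Y3, h3, hadd, hX3, -⟩ := add_self_some h h1 hy1
          apply iso_aux h hp (hz.trans hadd) hτ
          subst hx
          subst hy
          have e1' : (x1 - e1) / y1 - (x1 - e1) / -y1 = 2 * ((x1 - e1) / y1) := by
            rw [div_neg]
            ring
          have hab : V ((e1 - e2) * (e1 - e3)) < V ((x1 - e1) ^ 2) := by
            rw [map_mul, pow_two, map_mul]
            have ha : V (e1 - e2) < V (x1 - e1) := by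
              rw [← Valuation.map_neg, neg_sub]
              exact iso_lt hp hp.h12 hG1
            have hb : V (e1 - e3) < V (x1 - e1) := by
              rw [← Valuation.map_neg, neg_sub]
              exact iso_lt hp hp.h13 hG1
            exact mul_lt_mul'' ha hb zero_le zero_le
          have hnum : V ((x1 - e1) ^ 2 - (e1 - e2) * (e1 - e3)) = V ((x1 - e1) ^ 2) :=
            Valuation.map_sub_eq_of_lt_left V hab
          have e2' : V ((X3 - e1) * (2 * ((x1 - e1) / y1)) ^ 2) = 1 := by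
            have h2' : (2 : C) ≠ 0 := two_ne_zero
            have e3' : (X3 - e1) * (2 * ((x1 - e1) / y1)) ^ 2 =
                ((x1 - e1) ^ 2 - (e1 - e2) * (e1 - e3)) ^ 2 * (x1 - e1) ^ 2 / (y1 ^ 2) ^ 2 := by
              rw [hX3]
              field_simp
            rw [e3', map_div₀, map_mul, map_pow, map_pow V (y1 ^ 2), hnum, hv1]
            have hne : V (x1 - e1) ≠ 0 := (Valuation.ne_zero_iff V).2 hX1
            rw [div_eq_one_iff_eq (pow_ne_zero 2 ((Valuation.ne_zero_iff V).2 (pow_ne_zero 3 hX1)))]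
            rw [← map_pow, ← map_mul, ← map_pow]
            congr 1
            ring
          rw [← map_pow, ← map_mul, e1']
          exact e2'
      · obtain ⟨x3, y3, h3, hsub, hx3⟩ := sub_some_of_X_ne h h1 h2 hx
        apply iso_aux h hp hsub hτ
        have hD : x1 - x2 ≠ 0 := sub_ne_zero.2 hx
        set D := x1 - x2 with hDd
        set s := (y1 + y2) / D with hs
        have hsD : s * D = y1 + y2 := div_mul_cancel₀ _ hD
        set X1 := x1 - e1 with hX1d
        set X2 := x2 - e1 with hX2d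
        have I1 : (x3 - e1) * (X1 * X2 * D ^ 2) = (X1 * y2 + X2 * y1) ^ 2 := by
          rw [hx3]
          simp only [hX1d, hX2d]
          linear_combination (x1 - e1) * (x2 - e1) * (s * D + (y1 + y2)) * hsD +
            D * (x2 - e1) * E1 - D * (x1 - e1) * E2
        have I2 : (X1 / y1 - X2 / y2) * (y1 * y2) = X1 * y2 - X2 * y1 := by
          field_simp
        have I3 : (X1 * y2 - X2 * y1) * (X1 * y2 + X2 * y1) =
            -(X1 * X2 * D * (X1 * X2 - (e1 - e2) * (e1 - e3))) := by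
          simp only [hX1d, hX2d, hDd]
          linear_combination (x1 - e1) ^ 2 * E2 - (x2 - e1) ^ 2 * E1
        have I4 : (x3 - e1) * (X1 / y1 - X2 / y2) ^ 2 * (y1 ^ 2 * y2 ^ 2) =
            X1 * X2 * (X1 * X2 - (e1 - e2) * (e1 - e3)) ^ 2 := by
          have hne : X1 * X2 * D ^ 2 ≠ 0 := mul_ne_zero (mul_ne_zero hX1 hX2) (pow_ne_zero 2 hD)
          apply mul_right_cancel₀ hne
          calc (x3 - e1) * (X1 / y1 - X2 / y2) ^ 2 * (y1 ^ 2 * y2 ^ 2) * (X1 * X2 * D ^ 2)
              = ((x3 - e1) * (X1 * X2 * D ^ 2)) * ((X1 / y1 - X2 / y2) * (y1 * y2)) ^ 2 := by ring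
            _ = ((X1 * y2 - X2 * y1) * (X1 * y2 + X2 * y1)) ^ 2 := by rw [I1, I2]; ring
            _ = _ := by rw [I3]; ring
        have hab : V ((e1 - e2) * (e1 - e3)) < V (X1 * X2) := by
          rw [map_mul, map_mul]
          have ha : V (e1 - e2) < V X1 := by
            rw [← Valuation.map_neg, neg_sub]
            exact iso_lt hp hp.h12 hG1
          have hb : V (e1 - e3) < V X2 := by
            rw [← Valuation.map_neg, neg_sub]
            exact iso_lt hp hp.h13 hG2
          exact mul_lt_mul'' ha hb zero_le zero_le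
        have hnum : V (X1 * X2 - (e1 - e2) * (e1 - e3)) = V (X1 * X2) :=
          Valuation.map_sub_eq_of_lt_left V hab
        have I5 := congrArg V I4
        rw [map_mul, map_mul V (y1 ^ 2), hv1, hv2, map_mul V (X1 * X2), map_pow V (X1 * X2 - _),
          hnum] at I5
        have hne : V (X1 ^ 3) * V (X2 ^ 3) ≠ 0 :=
          mul_ne_zero ((Valuation.ne_zero_iff V).2 (pow_ne_zero 3 hX1))
            ((Valuation.ne_zero_iff V).2 (pow_ne_zero 3 hX2))
        have I6 : V ((x3 - e1) * (X1 / y1 - X2 / y2) ^ 2) = 1 := by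
          apply mul_right_cancel₀ hne
          rw [I5, one_mul, ← map_pow, ← map_mul, ← map_mul]
          congr 1
          ring
        rw [← map_pow, ← map_mul]
        exact I6

theorem double_ne (h : TwoTors W e1 e2 e3) (hp : Small V e1 e2 e3 p) {P : W.Point}
    (hP : InG V e1 p P) (h2 : P + P = 0) : P = 0 := by
  rcases P with _ | ⟨x, y, hn⟩
  · rfl
  · exfalso
    have hy := (add_self_eq_zero_iff h hn).1 h2
    exact (val_tpar h hp hn hP).1 hy

end Pool.Agent.Work.MP_787500_nt.RS
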