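import Mathlib
import Pool.Agent.Work.MP_787500_nt.H9_Alg
import Pool.Agent.Work.MP_787500_nt.RS.Defs

/-!
# Module NONTOR: points with large first coordinate are not torsion

`W : y^2 = x (x - 1)(x + 1)`, `v` dyadic, `V x > 1`. Then `V y ^ 2 = V x ^ 3`, `y ≠ 0`, and `2 P` has
first coordinate `((x^2 + 1)/(2 y))^2` (`add_self_some` with `(e1, e2, e3) = (0, 1, -1)`) of
valuation `V x ^ 4 / (V 4 * V x ^ 3) = V x / V 4 > V x`. So the valuations of the first coordinates of
`2^k P` are strictly increasing in `k`, the points `2^k P` are pairwise different, and `P` is not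
torsion (a torsion point has finitely many multiples).
-/

set_option autoImplicit false

namespace Pool.Agent.Work.MP_787500_nt.RS

open WithZero IsDedekindDomain NumberField WeierstrassCurve WeierstrassCurve.Affine

variable {F : Type*} [Field F] [NumberField F] [DecidableEq F] {W : WeierstrassCurve.Affine F}

omit [NumberField F] in
private theorem double_large [CharZero F] (h : TwoTors W 0 1 (-1)) (V : Valuation F ℤᵐ⁰)
    (h2 : V 2 < 1) {x y : F} (hn : W.Nonsingular x y) (hx : 1 < V x) :
    ∃ (X Y : F) (hn' : W.Nonsingular X Y),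
      (Point.some x y hn : W.Point) + Point.some x y hn = Point.some X Y hn' ∧ V x < V X := by
  have hx0 : V x ≠ 0 := (zero_lt_one.trans hx).ne'
  have hm : V (x - 1) = V x := V.map_sub_eq_of_lt_left (by rw [map_one]; exact hx)
  have hp : V (x + 1) = V x := V.map_add_eq_of_lt_left (by rw [map_one]; exact hx)
  have heq := h.eq_of_nonsingular hn
  have hy2 : V y ^ 2 = V x ^ 3 := by
    rw [← map_pow, heq, map_mul, map_mul, sub_zero, hm, show x - -1 = x + 1 by ring, hp]
    rw [pow_succ, sq]
  have hy : y ≠ 0 := by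
    rintro rfl
    rw [map_zero, zero_pow two_ne_zero] at hy2
    exact pow_ne_zero 3 hx0 hy2.symm
  obtain ⟨X, Y, hn', hadd, hX, -⟩ := add_self_some h hn hy
  refine ⟨X, Y, hn', hadd, ?_⟩
  have h20 : V 2 ≠ 0 := (V.ne_zero_iff).2 two_ne_zero
  have hVy : V y ≠ 0 := (V.ne_zero_iff).2 hy
  have hx2 : V (x ^ 2 + 1) = V x ^ 2 := by
    rw [← map_pow]
    apply V.map_add_eq_of_lt_left
    rw [map_one, map_pow]
    exact one_lt_pow₀ hx two_ne_zero
  have hX' : V X * (V 2) ^ 2 = V x := by
    have e1 : X = ((x ^ 2 + 1) / (2 * y)) ^ 2 := by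
      rw [← sub_zero X, hX]
      congr 2
      ring
    have e2 : V X * (V 2 ^ 2 * V y ^ 2) = V x ^ 4 := by
      rw [e1, map_pow, map_div₀, hx2, map_mul, div_pow, mul_pow,
        div_mul_cancel₀ _ (mul_ne_zero (pow_ne_zero 2 h20) (pow_ne_zero 2 hVy)), ← pow_mul]
    rw [hy2] at e2
    apply mul_right_cancel₀ (pow_ne_zero 3 hx0)
    rw [mul_assoc, e2, ← pow_succ']
  by_contra hc
  rw [not_lt] at hc
  have h22 : V 2 ^ 2 < 1 := pow_lt_one₀ zero_le h2 two_ne_zero
  have : V X * V 2 ^ 2 < V x := by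
    calc V X * V 2 ^ 2 ≤ V x * V 2 ^ 2 := mul_le_mul_left hc _
      _ < V x * 1 := by
        apply mul_lt_mul_of_pos_left h22
        exact zero_lt_iff.2 hx0
      _ = V x := mul_one _
  exact this.ne hX'

theorem not_torsion_of_large (h : TwoTors W 0 1 (-1)) {v : HeightOneSpectrum (𝓞 F)}
    (hv : (2 : 𝓞 F) ∈ v.asIdeal) {x y : F} (hn : W.Nonsingular x y)
    (hx : 1 < v.valuation F x) {m : ℕ} (hm : m ≠ 0) :
    m • (Point.some x y hn : W.Point) ≠ 0 := by
  intro h0
  set V := v.valuation F with hV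
  have h2 : V 2 < 1 := by
    have e : (2 : F) = algebraMap (𝓞 F) F 2 := by rw [map_ofNat]
    rw [e, hV, HeightOneSpectrum.valuation_lt_one_iff_mem]
    exact hv
  set P : W.Point := Point.some x y hn with hP
  have hk : ∀ k : ℕ, ∃ (X Y : F) (hn' : W.Nonsingular X Y),
      (2 ^ k) • P = Point.some X Y hn' ∧ 1 < V X := by
    intro k
    induction k with
    | zero => exact ⟨x, y, hn, by rw [pow_zero, one_smul], hx⟩
    | succ k ih =>
      obtain ⟨X, Y, hn', he, hX⟩ := ih
      obtain ⟨X', Y', hn'', he', hX'⟩ := double_large h V h2 hn' hX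
      exact ⟨X', Y', hn'', by rw [pow_succ, mul_comm, mul_smul, he, two_smul, he'], hX.trans hX'⟩
  choose X Y hN hXe hX1 using hk
  have hmono : StrictMono fun k => V (X k) := by
    apply strictMono_nat_of_lt_succ
    intro k
    obtain ⟨X', Y', hn'', he', hX'⟩ := double_large h V h2 (hN k) (hX1 k)
    have e : (Point.some (X (k + 1)) (Y (k + 1)) (hN (k + 1)) : W.Point) =
        Point.some X' Y' hn'' := by
      rw [← hXe (k + 1), ← he', ← hXe k, pow_succ, mul_comm, mul_smul, two_smul]
    rw [Point.some.injEq] at e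
    rw [e.1]
    exact hX'
  have hfin : Finite (AddSubgroup.zmultiples P) := by
    have h1 : IsOfFinAddOrder P := by
      rw [isOfFinAddOrder_iff_nsmul_eq_zero]
      exact ⟨m, Nat.pos_of_ne_zero hm, h0⟩
    exact (finite_zmultiples.2 h1).to_subtype
  obtain ⟨j, k, hjk, he⟩ := Finite.exists_ne_map_eq_of_infinite
    (fun k : ℕ => (⟨(2 ^ k) • P, AddSubgroup.nsmul_mem_zmultiples P _⟩ :
      AddSubgroup.zmultiples P))
  have he' : (2 ^ j) • P = (2 ^ k) • P := congrArg Subtype.val he
  rw [hXe, hXe, Point.some.injEq] at he'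
  exact hjk (hmono.injective (by simp only [he'.1]))

end Pool.Agent.Work.MP_787500_nt.RS
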