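import Mathlib
import Pool.Agent.Work.MP_787500_nt.RS.Defs

/-!
# Module AGMSEQ: the arithmetic-geometric mean sequence

* `agm_ne`: in any field of characteristic 0, for `m ≤ n`: `a m ≠ 0`, `b m ≠ 0`, `a m + b m ≠ 0`,
  `a m - b m ≠ 0`, `u m ≠ 0` and `u m ^ 4 * a m ^ 2 = a m ^ 2 - b m ^ 2`. Induction:
  `a_0^2 - b_0^2 = w^4 + w'^4 = 1` (from `w + w' = 1`, `w w' = 2`), `w, w' ≠ 0`;
  `a_(m+1)^2 - b_(m+1)^2 = ((a_m - b_m)/2)^2`, `b_(m+1)^2 = a_m b_m`, `a_(m+1) = (a_m + b_m)/2`;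
  `u_(m+1)^4 a_(m+1)^2 = u_m^8 a_m^4/(16 a_(m+1)^2) = (a_m^2 - b_m^2)^2/(4 (a_m + b_m)^2)`.
* `exists_agm`: recursion with square roots in the algebraically closed field (`a (n+1)`, `b (n+1)`,
  `u (n+1)` from `a n`, `b n`, `u n`: iterate a function on triples).
-/

set_option autoImplicit false

namespace Pool.Agent.Work.MP_787500_nt.RS

theorem agm_ne {F : Type*} [Field F] [CharZero F] {w w' i : F} {a b u : ℕ → F} {n : ℕ}
    (h : Agm w w' i a b u n) {m : ℕ} (hm : m ≤ n) :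
    a m ≠ 0 ∧ b m ≠ 0 ∧ a m + b m ≠ 0 ∧ a m - b m ≠ 0 ∧ u m ≠ 0 ∧
      u m ^ 4 * a m ^ 2 = a m ^ 2 - b m ^ 2 := by
  have h2 : (2 : F) ≠ 0 := two_ne_zero
  induction m with
  | zero =>
    have hmul := h.mul
    have hadd := h.add
    have hi := h.i2
    have hw : w ≠ 0 := by
      rintro rfl
      rw [zero_mul] at hmul
      exact h2 hmul.symm
    have hw' : w' ≠ 0 := by
      rintro rfl
      rw [mul_zero] at hmul
      exact h2 hmul.symm
    have hi0 : i ≠ 0 := by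
      rintro rfl
      rw [zero_pow two_ne_zero] at hi
      exact one_ne_zero (neg_eq_zero.1 hi.symm)
    have e1 : a 0 ^ 2 - b 0 ^ 2 = 1 := by
      rw [h.a0, h.b0]
      have e : w ^ 4 + w' ^ 4 = ((w + w') ^ 2 - 2 * (w * w')) ^ 2 - 2 * (w * w') ^ 2 := by ring
      have e' : (w ^ 2) ^ 2 - (-i * w' ^ 2) ^ 2 = w ^ 4 - i ^ 2 * w' ^ 4 := by ring
      rw [e', hi, show w ^ 4 - -1 * w' ^ 4 = w ^ 4 + w' ^ 4 by ring, e, hadd, hmul]
      norm_num
    have e2 : (a 0 + b 0) * (a 0 - b 0) = 1 := by rw [← e1]; ring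
    refine ⟨?_, ?_, left_ne_zero_of_mul_eq_one e2, right_ne_zero_of_mul_eq_one e2, ?_, ?_⟩
    · rw [h.a0]; exact pow_ne_zero _ hw
    · rw [h.b0]; exact mul_ne_zero (neg_ne_zero.2 hi0) (pow_ne_zero _ hw')
    · rw [h.u0]; exact div_ne_zero (neg_ne_zero.2 one_ne_zero) hw
    · rw [e1, h.u0, h.a0]
      field_simp
  | succ m ih =>
    obtain ⟨ha, hb, hab, hamb, hu, heq⟩ := ih (by omega)
    have has := h.as m (by omega)
    have hbs := h.bs m (by omega)
    have hus := h.us m (by omega)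
    have ha' : a (m + 1) ≠ 0 := by rw [has]; exact div_ne_zero hab h2
    have hb' : b (m + 1) ≠ 0 := by
      intro hc
      rw [hc, zero_pow two_ne_zero] at hbs
      exact mul_ne_zero ha hb hbs.symm
    have e1 : a (m + 1) ^ 2 - b (m + 1) ^ 2 = ((a m - b m) / 2) ^ 2 := by
      rw [hbs, has]
      field_simp
      ring
    have e2 : (a (m + 1) + b (m + 1)) * (a (m + 1) - b (m + 1)) ≠ 0 := by
      rw [show (a (m + 1) + b (m + 1)) * (a (m + 1) - b (m + 1)) =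
        a (m + 1) ^ 2 - b (m + 1) ^ 2 by ring, e1]
      exact pow_ne_zero _ (div_ne_zero hamb h2)
    refine ⟨ha', hb', left_ne_zero_of_mul e2, right_ne_zero_of_mul e2, ?_, ?_⟩
    · rw [hus]
      exact div_ne_zero (mul_ne_zero (pow_ne_zero _ hu) ha) (mul_ne_zero h2 ha')
    · have e3 : u (m + 1) ^ 4 * a (m + 1) ^ 2 =
          (u m ^ 4 * a m ^ 2) ^ 2 / (16 * a (m + 1) ^ 2) := by
        rw [hus]
        field_simp
        ring
      rw [e3, heq, e1, has]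
      field_simp
      ring

theorem exists_agm {K Ω : Type*} [Field K] [CharZero K] [Field Ω] [Algebra K Ω] [IsAlgClosed Ω]
    {w w' : K} (hadd : w + w' = 1) (hmul : w * w' = 2) :
    ∃ (i : Ω) (a b u : ℕ → Ω), ∀ n, Agm (algebraMap K Ω w) (algebraMap K Ω w') i a b u n := by
  have hs : ∀ x : Ω, ∃ y : Ω, y ^ 2 = x := fun x => by
    obtain ⟨z, hz⟩ := IsAlgClosed.exists_pow_nat_eq x (n := 2) (by norm_num)
    exact ⟨z, hz⟩
  choose s hs using hs
  let i : Ω := s (-1)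
  let f : Ω × Ω × Ω → Ω × Ω × Ω := fun t =>
    ((t.1 + t.2.1) / 2, s (t.1 * t.2.1), t.2.2 ^ 2 * t.1 / (2 * ((t.1 + t.2.1) / 2)))
  let t0 : Ω × Ω × Ω := (algebraMap K Ω w ^ 2, -i * algebraMap K Ω w' ^ 2, -1 / algebraMap K Ω w)
  refine ⟨i, fun m => (f^[m] t0).1, fun m => (f^[m] t0).2.1, fun m => (f^[m] t0).2.2, fun n => ?_⟩
  refine ⟨?_, ?_, hs _, rfl, rfl, rfl, fun m _ => ?_, fun m _ => ?_, fun m _ => ?_⟩
  · rw [← map_add, hadd, map_one]
  · rw [← map_mul, hmul, map_ofNat]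
  · simp only [Function.iterate_succ', Function.comp_apply, f]
  · simp only [Function.iterate_succ', Function.comp_apply, f, hs]
  · simp only [Function.iterate_succ', Function.comp_apply, f]

end Pool.Agent.Work.MP_787500_nt.RS
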