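import Mathlib
import Pool.Agent.Work.MP_787500_nt.RS.Defs
import Pool.Agent.Work.MP_787500_nt.RS.AgmSeq

/-!
# Module AGMUNIT: the elements of the sequence are units away from two

`v` a place of `F` with `2 ∉ v`. By induction on `m ≤ n` the valuations of `a m`, `b m`, `u m` are 1:
`w w' = 2`, `w + w' = 1`: `w`, `w'` are roots of `X^2 - X + 2`, so they have valuation `≤ 1` and
product of valuation 1, hence valuation 1; `i^2 = -1`; `u_m^4 a_m^2 = (a_m - b_m)(a_m + b_m)`
(`agm_ne`) and the factors have valuation `≤ 1`, so both have valuation 1;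
`a_(m+1) = (a_m + b_m)/2`, `b_(m+1)^2 = a_m b_m`, `u_(m+1) = u_m^2 a_m/(2 a_(m+1))`.
-/

set_option autoImplicit false

namespace Pool.Agent.Work.MP_787500_nt.RS

open WithZero IsDedekindDomain NumberField

private theorem eq_one_of_sq {x : ℤᵐ⁰} (h : x ^ 2 = 1) : x = 1 :=
  (pow_eq_one_iff.1 h).resolve_right two_ne_zero

private theorem eq_one_of_mul {x y : ℤᵐ⁰} (h : x * y = 1) (hx : x ≤ 1) (hy : y ≤ 1) : x = 1 := by
  apply le_antisymm hx
  by_contra hc
  rw [not_le] at hc
  have : x * y < 1 := by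
    calc x * y ≤ x * 1 := mul_le_mul_right hy x
      _ = x := mul_one x
      _ < 1 := hc
  exact this.ne h

private theorem agm_unit_aux {F : Type*} [Field F] [CharZero F] (V : Valuation F ℤᵐ⁰)
    {w w' i : F} {a b u : ℕ → F} {n : ℕ}
    (h : Agm w w' i a b u n) (h2 : V 2 = 1) {m : ℕ} (hm : m ≤ n) :
    V (a m) = 1 ∧ V (b m) = 1 ∧ V (u m) = 1 := by
  induction m with
  | zero =>
    have hmul : V w * V w' = 1 := by rw [← map_mul, h.mul, h2]
    have hadd : V (w + w') = 1 := by rw [h.add, map_one]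
    have hw : V w = 1 := by
      rcases lt_trichotomy (V w) (V w') with hlt | heq | hlt
      · exfalso
        rw [V.map_add_eq_of_lt_right hlt] at hadd
        rw [hadd, mul_one] at hmul
        rw [hadd] at hlt
        exact hlt.ne hmul
      · rw [← heq, ← sq] at hmul
        exact eq_one_of_sq hmul
      · rw [V.map_add_eq_of_lt_left hlt] at hadd
        exact hadd
    have hw' : V w' = 1 := by rw [hw, one_mul] at hmul; exact hmul
    have hi : V i = 1 := by
      apply eq_one_of_sq
      rw [← map_pow, h.i2, Valuation.map_neg, map_one]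
    refine ⟨?_, ?_, ?_⟩
    · rw [h.a0, map_pow, hw, one_pow]
    · rw [h.b0, map_mul, Valuation.map_neg, map_pow, hi, hw', one_pow, mul_one]
    · rw [h.u0, map_div₀, Valuation.map_neg, map_one, hw, div_one]
  | succ m ih =>
    obtain ⟨ha, hb, hu⟩ := ih (by omega)
    obtain ⟨_, _, _, _, _, heq⟩ := agm_ne h (m := m) (by omega)
    have e1 : V (a m + b m) * V (a m - b m) = 1 := by
      rw [← map_mul, show (a m + b m) * (a m - b m) = a m ^ 2 - b m ^ 2 by ring, ← heq, map_mul,
        map_pow, map_pow, ha, hu, one_pow, one_pow, mul_one]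
    have hle1 : V (a m + b m) ≤ 1 := (V.map_add _ _).trans (by rw [ha, hb, max_self])
    have hle2 : V (a m - b m) ≤ 1 := (V.map_sub _ _).trans (by rw [ha, hb, max_self])
    have hab := eq_one_of_mul e1 hle1 hle2
    have ha' : V (a (m + 1)) = 1 := by
      rw [h.as m (by omega), map_div₀, hab, h2, div_one]
    refine ⟨ha', ?_, ?_⟩
    · apply eq_one_of_sq
      rw [← map_pow, h.bs m (by omega), map_mul, ha, hb, mul_one]
    · rw [h.us m (by omega), map_div₀, map_mul, map_mul, map_pow, hu, ha, h2, ha', one_pow, mul_one,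
        div_one]

theorem agm_unit {F : Type*} [Field F] [NumberField F] {w w' i : F} {a b u : ℕ → F} {n : ℕ}
    (h : Agm w w' i a b u n) {v : HeightOneSpectrum (𝓞 F)} (hv : (2 : 𝓞 F) ∉ v.asIdeal)
    {m : ℕ} (hm : m ≤ n) :
    v.valuation F (a m) = 1 ∧ v.valuation F (b m) = 1 ∧ v.valuation F (u m) = 1 := by
  refine agm_unit_aux (v.valuation F) h ?_ hm
  have e : (2 : F) = algebraMap (𝓞 F) F 2 := by rw [map_ofNat]
  rw [e]
  apply le_antisymm (HeightOneSpectrum.valuation_le_one v _)
  rw [← not_lt]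
  intro hlt
  rw [HeightOneSpectrum.valuation_lt_one_iff_mem] at hlt
  exact hv hlt

end Pool.Agent.Work.MP_787500_nt.RS
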