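import Mathlib
import Pool.Agent.Work.MP_787500_nt.RS.Defs
import Pool.Agent.Work.MP_787500_nt.RS.AgmSeq
import Pool.Agent.Work.MP_787500_nt.RS.AgmUnit

/-!
# Module UNR: no ramification away from two

The inertia group at a prime away from two is trivial, because its elements fix `i` and all `b_m`.
-/

set_option autoImplicit false

namespace Pool.Agent.Work.MP_787500_nt.RS

open WithZero IsDedekindDomain NumberField

/-- the elements of the inertia group move the integral elements by small elements -/
private theorem inertia_small {F : Type*} [Field F] [NumberField F] (Q : HeightOneSpectrum (𝓞 F))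
    (σ : F →+* F)
    (hσ : ∀ x : 𝓞 F, Q.valuation F (σ (algebraMap (𝓞 F) F x) - algebraMap (𝓞 F) F x) < 1)
    (z : F) (hz : Q.valuation F z ≤ 1) : Q.valuation F (σ z - z) < 1 := by
  obtain ⟨x, ⟨y, hy⟩, hxy⟩ := Q.exists_primeCompl_mul_eq_of_integer z hz
  have hy1 : Q.valuation F (algebraMap (𝓞 F) F y) = 1 := by
    rw [HeightOneSpectrum.valuation_of_algebraMap]
    exact (Q.intValuation_eq_one_iff_mem_primeCompl y).mpr hy
  have hxy' : z * algebraMap (𝓞 F) F y = algebraMap (𝓞 F) F x := hxy
  set X := algebraMap (𝓞 F) F x with hX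
  set Y := algebraMap (𝓞 F) F y with hY
  have hY0 : Y ≠ 0 := by
    intro h
    rw [h, map_zero] at hy1
    exact zero_ne_one hy1
  have hσY : Q.valuation F (σ Y) = 1 := by
    have h1 : σ Y = Y + (σ Y - Y) := by ring
    rw [h1, Valuation.map_add_eq_of_lt_left _ (by rw [hy1]; exact hσ y), hy1]
  have hσY0 : σ Y ≠ 0 := (map_ne_zero σ).2 hY0
  have hzσ : σ z * σ Y = σ X := by rw [← map_mul, hxy']
  have e : σ z - z = ((σ X - X) - z * (σ Y - Y)) / σ Y := by
    rw [eq_div_iff hσY0]
    linear_combination hzσ - hxy'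
  rw [e, map_div₀, hσY, div_one]
  refine lt_of_le_of_lt (Valuation.map_sub _ _ _) (max_lt (hσ x) ?_)
  rw [map_mul]
  calc Q.valuation F z * Q.valuation F (σ Y - Y) ≤ 1 * Q.valuation F (σ Y - Y) :=
        mul_le_mul' hz le_rfl
    _ = Q.valuation F (σ Y - Y) := one_mul _
    _ < 1 := hσ y

/-- a unit whose square is fixed is fixed -/
private theorem fixed_of_sq {F : Type*} [Field F] [NumberField F] (Q : HeightOneSpectrum (𝓞 F))
    (hQ : (2 : 𝓞 F) ∉ Q.asIdeal) (σ : F →+* F)
    (hσ : ∀ z : F, Q.valuation F z ≤ 1 → Q.valuation F (σ z - z) < 1)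
    (z : F) (hz : Q.valuation F z = 1) (h2 : σ (z ^ 2) = z ^ 2) : σ z = z := by
  have h3 : (σ z - z) * (σ z + z) = 0 := by
    rw [map_pow] at h2
    linear_combination h2
  rcases mul_eq_zero.1 h3 with h | h
  · exact sub_eq_zero.1 h
  · exfalso
    have h4 : σ z - z = -(2 * z) := by linear_combination h
    have h5 := hσ z hz.le
    have hv2 : Q.valuation F (2 : F) = 1 := by
      rw [show (2 : F) = algebraMap (𝓞 F) F 2 by rw [map_ofNat],
        HeightOneSpectrum.valuation_of_algebraMap]
      exact (Q.intValuation_eq_one_iff_mem_primeCompl 2).mpr hQ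
    rw [h4, Valuation.map_neg, map_mul, hv2, hz, one_mul] at h5
    exact lt_irrefl _ h5

theorem unramified {K F : Type*} [Field K] [NumberField K] [Field F] [NumberField F]
    [Algebra K F] [IsGalois K F] {w w' : K} {i : F} {a b u : ℕ → F} {n : ℕ}
    (h : Agm (algebraMap K F w) (algebraMap K F w') i a b u n)
    (htop : IntermediateField.adjoin K ({i} ∪ {z | ∃ m, m ≤ n ∧ z = b m}) = ⊤)
    (Q : HeightOneSpectrum (𝓞 F)) (hQ : (2 : 𝓞 F) ∉ Q.asIdeal) :
    Algebra.IsUnramifiedAt (𝓞 K) Q.asIdeal := by
  have hQprime : Q.asIdeal.IsPrime := Q.isPrime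
  have key : ∀ σ : Gal(F/K), σ ∈ Q.asIdeal.inertia Gal(F/K) → σ = 1 := by
    intro σ hσ
    have hσ1 : ∀ x : 𝓞 F, Q.valuation F ((σ : F →+* F) (algebraMap (𝓞 F) F x) -
        algebraMap (𝓞 F) F x) < 1 := by
      intro x
      have h1 : (σ : F →+* F) (algebraMap (𝓞 F) F x) - algebraMap (𝓞 F) F x =
          algebraMap (𝓞 F) F (σ • x - x) := by
        rw [map_sub]
        rfl
      rw [h1, HeightOneSpectrum.valuation_lt_one_iff_mem]
      exact hσ x
    have hσ2 := inertia_small Q (σ : F →+* F) hσ1
    have hfix := fixed_of_sq Q hQ (σ : F →+* F) hσ2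
    have hi : σ i = i := by
      refine hfix i ?_ ?_
      · have h2 : Q.valuation F i ^ 2 = 1 := by
          rw [← map_pow, h.i2, Valuation.map_neg, map_one]
        exact (pow_eq_one_iff_of_nonneg zero_le two_ne_zero).mp h2
      · rw [h.i2, map_neg, map_one]
    have hab : ∀ m, m ≤ n → σ (a m) = a m ∧ σ (b m) = b m := by
      intro m
      induction m with
      | zero =>
        intro _
        rw [h.a0, h.b0]
        constructor
        · rw [map_pow, AlgEquiv.commutes]
        · rw [map_mul, map_neg, map_pow, AlgEquiv.commutes, hi]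
      | succ m ih =>
        intro hm
        obtain ⟨h1, h2⟩ := ih (by omega)
        constructor
        · rw [h.as m (by omega), map_div₀, map_add, h1, h2, map_ofNat]
        · refine hfix (b (m + 1)) (agm_unit h hQ hm).2.1 ?_
          rw [h.bs m (by omega)]
          change σ (a m * b m) = a m * b m
          rw [map_mul, h1, h2]
    let E : IntermediateField K F :=
      { carrier := {x | σ x = x}
        mul_mem' := by
          intro x y hx hy
          change σ (x * y) = x * y
          rw [map_mul, hx, hy]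
        one_mem' := map_one σ
        add_mem' := by
          intro x y hx hy
          change σ (x + y) = x + y
          rw [map_add, hx, hy]
        zero_mem' := map_zero σ
        algebraMap_mem' := fun r => σ.commutes r
        inv_mem' := by
          intro x hx
          change σ x⁻¹ = x⁻¹
          rw [map_inv₀, hx] }
    have hE : IntermediateField.adjoin K ({i} ∪ {z | ∃ m, m ≤ n ∧ z = b m}) ≤ E := by
      rw [IntermediateField.adjoin_le_iff]
      rintro x (hx | ⟨m, hm, rfl⟩)
      · rw [Set.mem_singleton_iff] at hx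
        rw [hx]
        exact hi
      · exact (hab m hm).2
    rw [htop] at hE
    ext x
    exact hE (x := x) trivial
  have hcard : Nat.card (Q.asIdeal.inertia Gal(F/K)) = 1 := by
    rw [Nat.card_eq_one_iff_unique]
    refine ⟨⟨fun s t => ?_⟩, ⟨1⟩⟩
    apply Subtype.ext
    rw [key s.1 s.2, key t.1 t.2]
  rw [← Ideal.ramificationIdx_eq_one_iff,
    ← Ideal.ramificationIdxIn_eq_ramificationIdx (Q.asIdeal.under (𝓞 K)) _ Gal(F/K),
    ← Ideal.card_inertia_eq_ramificationIdxIn (G := Gal(F/K)) (Q.asIdeal.under (𝓞 K)) Q.asIdeal]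
  exact hcard

end Pool.Agent.Work.MP_787500_nt.RS
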