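import Mathlib
import Pool.Agent.Work.MP_787500_nt.H10_Quad
import Pool.Agent.Work.MP_787500_nt.RS.Defs

/-!
# Module DYAD: a dyadic place with a small local degree

`K` is imaginary quadratic with `s^2 = -q`, `q ≡ 7 mod 16`, so 2 splits in `K`: with
`W = (1 + s)/2` integral (`Quad.exists_W`), `W (1 - W) = (1 + q)/4` is even, so there are prime
ideals of `𝓞 K` containing `2, W` and `2, 1 - W`: they are different (their sum contains 1) [the
ideal `(2, W)` is proper: `𝓞 K = ℤ + ℤ W` and the map `a + b W ↦ a mod 2` is a ring homomorphism; or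
`exists_place` and the conjugation `Quad.exists_conj`; or see `Quad.dyadic`]. Let `w1`, `w2` be
places of `F` above them (`exists_above` in H10_Tower); then `W ∈ w1`, `1 - W ∈ w2`, so `w1 ≠ w2`.
The ideals `dyIdeal w1`, `dyIdeal w2` are powers of `w1.asIdeal`, `w2.asIdeal` (the valuation of 2 at
`w` is `exp (-e)` and `HeightOneSpectrum.valuation_le_pow_iff_mem`-like lemmas,
`intValuation_le_pow_iff_mem`), so they are coprime, and both contain 2. By the Chinese remainder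
theorem `card (𝓞 F ⧸ dyIdeal w1) * card (𝓞 F ⧸ dyIdeal w2) = card (𝓞 F ⧸ (dyIdeal w1 ⊓ dyIdeal w2))
≤ card (𝓞 F ⧸ (2)) = 2 ^ finrank ℚ F` (`Ideal.absNorm`, `Algebra.norm`; for instance
`Ideal.absNorm_span_singleton` and `Algebra.norm_algebraMap`), and
`finrank ℚ F = 2 * finrank K F`. So one of the two is at most `2 ^ finrank K F`.
-/

set_option autoImplicit false

namespace Pool.Agent.Work.MP_787500_nt.RS

open WithZero IsDedekindDomain NumberField

variable {K F : Type*} [Field K] [NumberField K] [Field F] [NumberField F] [Algebra K F]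

/-- a place of `K` containing `2` and `W` -/
private theorem dyad_place {q : ℕ} {s : K} (hs : s ^ 2 = -(q : K)) (hq : 0 < q) {W : 𝓞 K} {k : ℤ}
    (h1 : 2 * algebraMap (𝓞 K) K W = 1 + s) (h2 : W * (1 - W) = 2 * k)
    (h3 : ∀ x : 𝓞 K, ∃ a b : ℤ, x = a + b * W) :
    ∃ v : HeightOneSpectrum (𝓞 K), (2 : 𝓞 K) ∈ v.asIdeal ∧ W ∈ v.asIdeal := by
  have hne : Ideal.span {(2 : 𝓞 K), W} ≠ ⊤ := by
    intro htop
    have h4 : (1 : 𝓞 K) ∈ Ideal.span {(2 : 𝓞 K), W} := by rw [htop]; trivial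
    rw [Ideal.mem_span_pair] at h4
    obtain ⟨x, y, hxy⟩ := h4
    obtain ⟨a, b, rfl⟩ := h3 x
    obtain ⟨c, d, rfl⟩ := h3 y
    have h5 : ((2 * a - 2 * k * d : ℤ) : 𝓞 K) + ((2 * b + c + d : ℤ) : 𝓞 K) * W = 1 := by
      push_cast
      linear_combination hxy + (d : 𝓞 K) * h2
    have h6 : ((2 * a - 2 * k * d : ℤ) : K) + ((2 * b + c + d : ℤ) : K) *
        algebraMap (𝓞 K) K W = 1 := by
      have := congrArg (algebraMap (𝓞 K) K) h5
      rw [map_add, map_mul, map_intCast, map_intCast, map_one] at this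
      exact this
    have h7 : (((2 * (2 * a - 2 * k * d) + (2 * b + c + d) - 2 : ℤ) : ℚ) : K) +
        (((2 * b + c + d : ℤ) : ℚ) : K) * s = 0 := by
      push_cast at h6 ⊢
      linear_combination 2 * h6 - (2 * (b : K) + c + d) * h1
    obtain ⟨g1, g2⟩ := Quad.not_rat hs hq _ _ h7
    have g1' : 2 * (2 * a - 2 * k * d) + (2 * b + c + d) - 2 = 0 := by exact_mod_cast g1
    have g2' : 2 * b + c + d = 0 := by exact_mod_cast g2
    rw [g2'] at g1'
    have g3 : 2 * (a - k * d) = 1 := by linarith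
    omega
  obtain ⟨M, hM, hle⟩ := Ideal.exists_le_maximal _ hne
  have m2 : (2 : 𝓞 K) ∈ M := hle (Ideal.subset_span (by simp))
  have mW : W ∈ M := hle (Ideal.subset_span (by simp))
  refine ⟨⟨M, hM.isPrime, ?_⟩, m2, mW⟩
  rintro rfl
  exact two_ne_zero (α := 𝓞 K) m2

/-- the ideal of a dyadic place is a power -/
private theorem dyad_pow (w : HeightOneSpectrum (𝓞 F)) :
    ∃ e : ℕ, dyIdeal w = w.asIdeal ^ e := by
  have h2 : (2 : 𝓞 F) ≠ 0 := two_ne_zero
  obtain ⟨e, he⟩ : ∃ e : ℕ, w.intValuation (2 : 𝓞 F) = exp (-(e : ℤ)) :=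
    ⟨_, w.intValuation_if_neg h2⟩
  refine ⟨e, ?_⟩
  ext t
  rw [mem_dyIdeal, ← map_ofNat (algebraMap (𝓞 F) F) 2, HeightOneSpectrum.valuation_of_algebraMap,
    HeightOneSpectrum.valuation_of_algebraMap, he, w.intValuation_le_pow_iff_mem]

private theorem dyad_card (I1 I2 : Ideal (𝓞 F)) (hco : IsCoprime I1 I2) (h1 : (2 : 𝓞 F) ∈ I1)
    (h2 : (2 : 𝓞 F) ∈ I2) :
    Nat.card (𝓞 F ⧸ I1) * Nat.card (𝓞 F ⧸ I2) ≤ 2 ^ Module.finrank ℚ F := by
  rw [← Nat.card_prod, ← Nat.card_congr (Ideal.quotientInfEquivQuotientProd I1 I2 hco).toEquiv]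
  have hle : Ideal.span {(2 : 𝓞 F)} ≤ I1 ⊓ I2 := by
    rw [Ideal.span_singleton_le_iff_mem]
    exact ⟨h1, h2⟩
  have hcard : Nat.card (𝓞 F ⧸ Ideal.span {(2 : 𝓞 F)}) = 2 ^ Module.finrank ℚ F := by
    have h3 : Ideal.absNorm (Ideal.span {(2 : 𝓞 F)}) = Nat.card (𝓞 F ⧸ Ideal.span {(2 : 𝓞 F)}) :=
      Ideal.absNorm_apply _
    rw [← h3, Ideal.absNorm_span_singleton]
    have h4 : Algebra.norm ℤ (2 : 𝓞 F) = 2 ^ Module.finrank ℚ F := by
      have h5 := Algebra.norm_algebraMap_of_basis (RingOfIntegers.basis F) (2 : ℤ)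
      rw [map_ofNat] at h5
      rw [h5, ← Module.finrank_eq_card_basis (RingOfIntegers.basis F), RingOfIntegers.rank]
    rw [h4]
    simp [Int.natAbs_pow]
  rw [← hcard]
  have hfin : Finite (𝓞 F ⧸ Ideal.span {(2 : 𝓞 F)}) := by
    apply Nat.finite_of_card_ne_zero
    rw [hcard]
    positivity
  exact Nat.card_le_card_of_surjective (Ideal.Quotient.factor hle)
    (Ideal.Quotient.factor_surjective hle)

theorem exists_dyadic_small {q : ℕ} {s : K} (hK : Module.finrank ℚ K = 2) (hs : s ^ 2 = -(q : K))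
    (hq : q.Prime) (hq16 : q % 16 = 7) :
    ∃ w : HeightOneSpectrum (𝓞 F), (2 : 𝓞 F) ∈ w.asIdeal ∧
      Nat.card (𝓞 F ⧸ dyIdeal w) ≤ 2 ^ Module.finrank K F := by
  obtain ⟨W, k, hW1, hW2, hW3⟩ := Quad.exists_W hK hs hq (by omega)
  obtain ⟨v1, v12, v1W⟩ := dyad_place hs hq.pos hW1 hW2 hW3
  obtain ⟨v2, v22, v2W⟩ := dyad_place (s := -s) (q := q) (W := 1 - W) (k := k)
    (by rw [neg_sq]; exact hs) hq.pos (by rw [map_sub, map_one]; linear_combination -hW1)
    (by rw [← hW2]; ring) (fun x => by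
      obtain ⟨a, b, rfl⟩ := hW3 x
      exact ⟨a + b, -b, by push_cast; ring⟩)
  obtain ⟨w1, hw1⟩ := exists_above (L := F) v1
  obtain ⟨w2, hw2⟩ := exists_above (L := F) v2
  have w12 : (2 : 𝓞 F) ∈ w1.asIdeal := (two_mem_below (K := K) w1).1 (by rw [hw1]; exact v12)
  have w22 : (2 : 𝓞 F) ∈ w2.asIdeal := (two_mem_below (K := K) w2).1 (by rw [hw2]; exact v22)
  have w1W : algebraMap (𝓞 K) (𝓞 F) W ∈ w1.asIdeal := by
    have : W ∈ (below K w1).asIdeal := by rw [hw1]; exact v1W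
    exact this
  have w2W : algebraMap (𝓞 K) (𝓞 F) (1 - W) ∈ w2.asIdeal := by
    have : 1 - W ∈ (below K w2).asIdeal := by rw [hw2]; exact v2W
    exact this
  have hco : IsCoprime w1.asIdeal w2.asIdeal := by
    rw [Ideal.isCoprime_iff_exists]
    exact ⟨_, w1W, _, w2W, by rw [← map_add, add_sub_cancel, map_one]⟩
  have hco' : IsCoprime (dyIdeal w1) (dyIdeal w2) := by
    obtain ⟨a, ha⟩ := dyad_pow w1
    obtain ⟨b, hb⟩ := dyad_pow w2
    rw [ha, hb]
    exact hco.pow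
  have hmem : ∀ w : HeightOneSpectrum (𝓞 F), (2 : 𝓞 F) ∈ dyIdeal w := by
    intro w
    rw [mem_dyIdeal, map_ofNat]
  have h := dyad_card _ _ hco' (hmem w1) (hmem w2)
  have hdeg : Module.finrank ℚ F = Module.finrank K F + Module.finrank K F := by
    rw [← Module.finrank_mul_finrank ℚ K F, hK, two_mul]
  rw [hdeg, pow_add] at h
  by_cases hc : Nat.card (𝓞 F ⧸ dyIdeal w1) ≤ 2 ^ Module.finrank K F
  · exact ⟨w1, w12, hc⟩
  · refine ⟨w2, w22, ?_⟩
    by_contra hc2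
    push Not at hc hc2
    exact absurd h (not_le.2 (Nat.mul_lt_mul'' hc hc2))

end Pool.Agent.Work.MP_787500_nt.RS
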