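import Mathlib
import Pool.Agent.Work.MP_787500_nt.H10_Local
import Pool.Agent.Work.MP_787500_nt.RS.Defs

/-!
# Module COMPLA: approximation in the completion

* `exists_int_near`: integral elements of the completion are approximated by integers.
* `totBdd`: bounded sets are covered by finitely many small discs.
-/

set_option autoImplicit false

namespace Pool.Agent.Work.MP_787500_nt.RS

open WithZero IsDedekindDomain NumberField

variable {F : Type*} [Field F] [NumberField F] (v : HeightOneSpectrum (𝓞 F))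

theorem exists_int_near (x : v.adicCompletion F) (hx : VC v x ≤ 1) {γ : ℤᵐ⁰} (hγ : γ ≠ 0) :
    ∃ r : 𝓞 F, VC v (algebraMap F (v.adicCompletion F) (algebraMap (𝓞 F) F r) - x) < γ := by
  obtain ⟨k, hk⟩ := exists_close v x (min γ 1) (by
    rcases min_choice γ 1 with h | h <;> rw [h]
    · exact hγ
    · exact one_ne_zero)
  have hk1 : v.valuation F k ≤ 1 := by
    rw [← VC_algebraMap]
    have : algebraMap F (v.adicCompletion F) k = (algebraMap F (v.adicCompletion F) k - x) + x := by
      ring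
    rw [this]
    exact ((VC v).map_add _ _).trans (max_le (hk.le.trans (min_le_right _ _)) hx)
  obtain ⟨r, hr⟩ := HeightOneSpectrum.exists_valuation_sub_lt_of_integer v hk1 (Units.mk0 γ hγ)
  refine ⟨r, ?_⟩
  have e : algebraMap F (v.adicCompletion F) (algebraMap (𝓞 F) F r) - x =
      algebraMap F (v.adicCompletion F) (algebraMap (𝓞 F) F r - k) +
      (algebraMap F (v.adicCompletion F) k - x) := by
    rw [map_sub]; ring
  rw [e]
  refine lt_of_le_of_lt ((VC v).map_add _ _) (max_lt ?_ (hk.trans_le (min_le_left _ _)))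
  rw [VC_algebraMap]
  exact hr

private theorem exists_exp_lt {γ : ℤᵐ⁰} (hγ : γ ≠ 0) : ∃ n : ℕ, exp (-(n : ℤ)) < γ := by
  obtain ⟨g, hg⟩ : ∃ g : ℤ, γ = exp g := ⟨_, (exp_log hγ).symm⟩
  refine ⟨g.natAbs + 1, ?_⟩
  rw [hg, exp_lt_exp]
  omega

theorem totBdd : TotBdd (VC v) := by
  classical
  intro δ γ hγ
  by_cases hδ : δ = 0
  · refine ⟨{0}, fun x hx => ⟨0, Finset.mem_singleton_self 0, ?_⟩⟩
    rw [sub_zero]
    rw [hδ] at hx
    exact lt_of_le_of_lt hx (zero_lt_iff.mpr hγ)
  · obtain ⟨g, hg⟩ := v.valuedAdicCompletion_surjective F δ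
    have hg' : VC v g = δ := hg
    have hg0 : g ≠ 0 := by
      rintro rfl
      rw [map_zero] at hg'
      exact hδ hg'.symm
    have hγ' : γ * δ⁻¹ ≠ 0 := mul_ne_zero hγ (inv_ne_zero hδ)
    obtain ⟨n, hn⟩ := exists_exp_lt hγ'
    have hIn : v.asIdeal ^ n ≠ ⊥ := pow_ne_zero n v.ne_bot
    have hfin : Finite (𝓞 F ⧸ v.asIdeal ^ n) := Ring.HasFiniteQuotients.finiteQuotient hIn
    let _ : Fintype (𝓞 F ⧸ v.asIdeal ^ n) := Fintype.ofFinite _
    refine ⟨Finset.univ.image fun q : 𝓞 F ⧸ v.asIdeal ^ n =>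
      g * algebraMap F (v.adicCompletion F) (algebraMap (𝓞 F) F (Quotient.out q)), ?_⟩
    intro x hx
    have hx1 : VC v (x / g) ≤ 1 := by
      rw [map_div₀, hg']
      exact (div_le_one₀ (zero_lt_iff.mpr hδ)).mpr hx
    obtain ⟨r, hr⟩ := exists_int_near v (x / g) hx1 hγ'
    set q : 𝓞 F ⧸ v.asIdeal ^ n := Ideal.Quotient.mk _ r with hq
    refine ⟨g * algebraMap F (v.adicCompletion F) (algebraMap (𝓞 F) F (Quotient.out q)),
      Finset.mem_image_of_mem _ (Finset.mem_univ q), ?_⟩
    have hmem : r - Quotient.out q ∈ v.asIdeal ^ n := by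
      rw [← Ideal.Quotient.eq]
      have : (Ideal.Quotient.mk (v.asIdeal ^ n)) (Quotient.out q) = q := Ideal.Quotient.mk_out q
      rw [this]
    have hv1 : VC v (algebraMap F (v.adicCompletion F)
        (algebraMap (𝓞 F) F (r - Quotient.out q))) < γ * δ⁻¹ := by
      rw [VC_algebraMap, HeightOneSpectrum.valuation_of_algebraMap]
      exact lt_of_le_of_lt ((v.intValuation_le_pow_iff_mem _ n).mpr hmem) hn
    have e : x - g * algebraMap F (v.adicCompletion F) (algebraMap (𝓞 F) F (Quotient.out q)) =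
        g * (algebraMap F (v.adicCompletion F) (algebraMap (𝓞 F) F (r - Quotient.out q)) -
          (algebraMap F (v.adicCompletion F) (algebraMap (𝓞 F) F r) - x / g)) := by
      rw [map_sub, map_sub]
      field_simp
      ring
    rw [e, map_mul, hg']
    have h1 : VC v (algebraMap F (v.adicCompletion F) (algebraMap (𝓞 F) F (r - Quotient.out q)) -
          (algebraMap F (v.adicCompletion F) (algebraMap (𝓞 F) F r) - x / g)) < γ * δ⁻¹ :=
      lt_of_le_of_lt ((VC v).map_sub _ _) (max_lt hv1 hr)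
    calc δ * _ < δ * (γ * δ⁻¹) := (mul_lt_mul_iff_right₀ (zero_lt_iff.mpr hδ)).mpr h1
      _ = γ := by rw [mul_left_comm, mul_inv_cancel₀ hδ, mul_one]

end Pool.Agent.Work.MP_787500_nt.RS
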