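import Mathlib
import Pool.Agent.Work.MP_787500_nt.H10_Gen
import Pool.Agent.Work.MP_787500_nt.RS.Defs

/-!
# Module COMPLB: square roots near one in the completion at a dyadic place
-/

set_option autoImplicit false

namespace Pool.Agent.Work.MP_787500_nt.RS

open WithZero IsDedekindDomain NumberField

variable {F : Type*} [Field F] [NumberField F] (v : HeightOneSpectrum (𝓞 F))

private theorem ball_mem_nhds (r : v.adicCompletion F) {γ : ℤᵐ⁰} (hγ : γ ≠ 0) :
    {y : v.adicCompletion F | VC v (y - r) < γ} ∈ nhds r := by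
  obtain ⟨g, hg⟩ := v.valuedAdicCompletion_surjective F γ
  have hne : (VC v).restrict g ≠ 0 := by
    intro h
    have h2 := (Valuation.restrict_le_iff (v := VC v) (x := g) (y := 0)).1 (by
      rw [h]; exact zero_le)
    rw [map_zero] at h2
    have h3 : VC v g = γ := hg
    rw [h3, le_zero_iff] at h2
    exact hγ h2
  rw [Valued.mem_nhds]
  refine ⟨Units.mk0 _ hne, fun y hy => ?_⟩
  have hy' : (VC v).restrict (y - r) < (VC v).restrict g := hy
  have h3 : VC v g = γ := hg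
  have h4 : VC v (y - r) < VC v g := (Valuation.restrict_lt_iff (VC v)).1 hy'
  rw [h3] at h4
  exact h4

private theorem exists_lim (s : ℕ → v.adicCompletion F)
    (hs : ∀ γ : ℤᵐ⁰, γ ≠ 0 → ∃ N, ∀ n ≥ N, ∀ m ≥ N, VC v (s n - s m) < γ) :
    ∃ r, ∀ γ : ℤᵐ⁰, γ ≠ 0 → ∃ N, ∀ n ≥ N, VC v (s n - r) < γ := by
  have hc : Cauchy (Filter.map s Filter.atTop) := by
    rw [Valued.cauchy_iff]
    refine ⟨inferInstance, fun γ => ?_⟩
    have hγ0 : MonoidWithZeroHom.ValueGroup₀.embedding (γ : MonoidWithZeroHom.ValueGroup₀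
        (.ofClass (VC v))) ≠ 0 := by
      rw [Ne, map_eq_zero]
      exact γ.ne_zero
    obtain ⟨N, hN⟩ := hs _ hγ0
    refine ⟨s '' {n | N ≤ n}, Filter.image_mem_map (Filter.mem_atTop N), ?_⟩
    rintro _ ⟨n, hn, rfl⟩ _ ⟨m, hm, rfl⟩
    rw [Valuation.restrict_lt_iff_lt_embedding]
    exact hN m hm n hn
  obtain ⟨r, hr⟩ := CompleteSpace.complete hc
  refine ⟨r, fun γ hγ => ?_⟩
  have h1 := hr (ball_mem_nhds v r hγ)
  rw [Filter.mem_map, Filter.mem_atTop_sets] at h1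
  exact h1

private theorem exists_exp_lt' {γ : ℤᵐ⁰} (hγ : γ ≠ 0) : ∃ n : ℕ, exp (-(n : ℤ)) < γ := by
  obtain ⟨g, hg⟩ : ∃ g : ℤ, γ = exp g := ⟨_, (exp_log hγ).symm⟩
  refine ⟨g.natAbs + 1, ?_⟩
  rw [hg, exp_lt_exp]
  omega

theorem sqNear (hv : (2 : 𝓞 F) ∈ v.asIdeal) : SqNear (VC v) := by
  intro z hz
  have h2 : (2 : v.adicCompletion F) ≠ 0 := completion_two_ne_zero
  have hv2 : VC v (2 : v.adicCompletion F) < 1 := VC_two_lt hv
  set V := VC v with hV
  have h4 : (4 : v.adicCompletion F) ≠ 0 := by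
    rw [show (4 : v.adicCompletion F) = 2 * 2 by norm_num]
    exact mul_ne_zero h2 h2
  have hV2 : V 2 ≠ 0 := (V.ne_zero_iff).2 h2
  have hV4 : V 4 ≠ 0 := (V.ne_zero_iff).2 h4
  have hV42 : V 4 = V 2 * V 2 := by
    rw [show (4 : v.adicCompletion F) = 2 * 2 by norm_num, map_mul]
  have hx : V ((z - 1) / 4) < 1 := by
    rw [map_div₀]
    exact (div_lt_one₀ (zero_lt_iff.mpr hV4)).mpr hz
  have hsq := LocSq.one_add_four_mul (v := V) h2 hx hv2.le
  have hz' : 1 + 4 * ((z - 1) / 4) = z := by field_simp; ring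
  rw [hz'] at hsq
  -- approximate roots close to one
  have hy : ∀ n : ℕ, ∃ y : v.adicCompletion F, V (z - y ^ 2) < exp (-(n : ℤ)) ∧
      V (y - 1) < V 2 := by
    intro n
    obtain ⟨y, hy⟩ := hsq (min (exp (-(n : ℤ))) (V 4)) (by
      rcases min_choice (exp (-(n : ℤ))) (V 4) with h | h <;> rw [h]
      · exact exp_ne_zero
      · exact hV4)
    have h1 : V (z - y ^ 2) < exp (-(n : ℤ)) := hy.trans_le (min_le_left _ _)
    have h3 : V ((y - 1) * (y + 1)) < V 4 := by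
      have e : (y - 1) * (y + 1) = (z - 1) - (z - y ^ 2) := by ring
      rw [e]
      exact lt_of_le_of_lt (V.map_sub _ _) (max_lt hz (hy.trans_le (min_le_right _ _)))
    by_cases h5 : V (y - 1) < V 2
    · exact ⟨y, h1, h5⟩
    · refine ⟨-y, by rwa [neg_sq], ?_⟩
      have h6 : -y - 1 = -(y + 1) := by ring
      rw [h6, Valuation.map_neg]
      by_contra h7
      push Not at h5 h7
      rw [map_mul, hV42] at h3
      exact absurd (mul_le_mul' h5 h7) (not_le.mpr h3)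
  choose y hy1 hy2 using hy
  have hsum : ∀ a b : v.adicCompletion F, V (a - 1) < V 2 → V (b - 1) < V 2 →
      V (a + b) = V 2 := by
    intro a b ha hb
    have e : a + b = 2 + ((a - 1) + (b - 1)) := by ring
    rw [e]
    exact Valuation.map_add_eq_of_lt_left V (lt_of_le_of_lt (V.map_add _ _) (max_lt ha hb))
  obtain ⟨r, hr⟩ := exists_lim v y (by
    intro γ hγ
    obtain ⟨N, hN⟩ := exists_exp_lt' (γ := γ * V 2) (mul_ne_zero hγ hV2)
    refine ⟨N, fun n hn m hm => ?_⟩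
    have hmono : ∀ k : ℕ, k ≥ N → V (z - y k ^ 2) < γ * V 2 := by
      intro k hk
      refine (hy1 k).trans_le ((?_ : exp (-(k : ℤ)) ≤ exp (-(N : ℤ))).trans hN.le)
      rw [exp_le_exp]
      omega
    have h3 : V (y n - y m) * V 2 < γ * V 2 := by
      rw [← hsum (y n) (y m) (hy2 n) (hy2 m), ← map_mul,
        hsum (y n) (y m) (hy2 n) (hy2 m)]
      have e : (y n - y m) * (y n + y m) = (z - y m ^ 2) - (z - y n ^ 2) := by ring
      rw [e]
      exact lt_of_le_of_lt (V.map_sub _ _) (max_lt (hmono m hm) (hmono n hn))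
    exact lt_of_mul_lt_mul_right' h3)
  obtain ⟨N0, hN0⟩ := hr (V 2) hV2
  have hr1 : V (r - 1) < V 2 := by
    have e : r - 1 = (y N0 - 1) - (y N0 - r) := by ring
    rw [e]
    exact lt_of_le_of_lt (V.map_sub _ _) (max_lt (hy2 N0) (hN0 N0 le_rfl))
  refine ⟨r, ?_, hr1⟩
  have hall : ∀ γ : ℤᵐ⁰, γ ≠ 0 → V (r ^ 2 - z) < γ := by
    intro γ hγ
    obtain ⟨N1, hN1⟩ := hr γ hγ
    obtain ⟨N2, hN2⟩ := exists_exp_lt' hγ
    set n := max N1 N2 with hn
    have h3 : V (z - y n ^ 2) < γ := by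
      refine (hy1 n).trans_le ((?_ : exp (-(n : ℤ)) ≤ exp (-(N2 : ℤ))).trans hN2.le)
      rw [exp_le_exp]
      omega
    have e : r ^ 2 - z = -((z - y n ^ 2) + (y n - r) * (y n + r)) := by ring
    rw [e, Valuation.map_neg]
    refine lt_of_le_of_lt (V.map_add _ _) (max_lt h3 ?_)
    rw [map_mul, hsum (y n) r (hy2 n) hr1]
    calc V (y n - r) * V 2 ≤ V (y n - r) * 1 := mul_le_mul' le_rfl hv2.le
      _ = V (y n - r) := mul_one _
      _ < γ := hN1 n (le_max_left _ _)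
  have h0 : V (r ^ 2 - z) = 0 := by
    by_contra hne
    exact lt_irrefl _ (hall _ hne)
  exact sub_eq_zero.1 ((V.zero_iff).1 h0)

end Pool.Agent.Work.MP_787500_nt.RS
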