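import Mathlib
import Pool.Agent.Work.MP_787500_nt.RS.Defs
import Pool.Agent.Work.MP_787500_nt.RS.Iso

/-!
# Module CLOSE: two close points which are not near zero differ by a point near zero

Scaled variables `u = p^2 (x - e1)`, `α = p^2 (e2 - e1)`, `β = p^2 (e3 - e1)`, `η = p^3 y`, all of
valuation less than one, `η^2 = F(u) = u (u - α) (u - β)`, and the Bezout identity
`α^2 β^2 (α - β)^2 = A F + B F'` with integral `A`, `B`.
-/

set_option autoImplicit false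

namespace Pool.Agent.Work.MP_787500_nt.RS

open WithZero WeierstrassCurve WeierstrassCurve.Affine

variable {C : Type*} [Field C] [CharZero C] [DecidableEq C] {V : Valuation C ℤᵐ⁰}
variable {W : WeierstrassCurve.Affine C} {e1 e2 e3 p : C}

omit [CharZero C] [DecidableEq C] in
theorem close_bezout {u α β η : C} (hu : V u ≤ 1) (hα : V α ≤ 1) (hβ : V β ≤ 1)
    (hη : η ^ 2 = u * (u - α) * (u - β)) :
    V (α ^ 2 * β ^ 2 * (α - β) ^ 2) ≤ V (η ^ 2) ∨
      V (α ^ 2 * β ^ 2 * (α - β) ^ 2) ≤ V (3 * u ^ 2 - 2 * (α + β) * u + α * β) := by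
  have mu : u ∈ V.integer := hu
  have mα : α ∈ V.integer := hα
  have mβ : β ∈ V.integer := hβ
  set A : C := -6 * ((α + β) ^ 2 - 3 * (α * β)) * u + (α + β) * (4 * (α + β) ^ 2 - 15 * (α * β))
    with hA
  set B : C := 2 * ((α + β) ^ 2 - 3 * (α * β)) * u ^ 2 -
    (α + β) * (2 * (α + β) ^ 2 - 7 * (α * β)) * u + α * β * ((α + β) ^ 2 - 4 * (α * β)) with hB
  have mS : α + β ∈ V.integer := add_mem mα mβ
  have mP : α * β ∈ V.integer := mul_mem mα mβ
  have mn : ∀ n : ℕ, (n : C) ∈ V.integer := fun n => natCast_mem _ n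
  have m2 : (2 : C) ∈ V.integer := by exact_mod_cast mn 2
  have m3 : (3 : C) ∈ V.integer := by exact_mod_cast mn 3
  have m4 : (4 : C) ∈ V.integer := by exact_mod_cast mn 4
  have m6 : (6 : C) ∈ V.integer := by exact_mod_cast mn 6
  have m7 : (7 : C) ∈ V.integer := by exact_mod_cast mn 7
  have m15 : (15 : C) ∈ V.integer := by exact_mod_cast mn 15
  have mA : A ∈ V.integer :=
    add_mem (mul_mem (mul_mem (neg_mem m6) (_root_.sub_mem (pow_mem mS 2) (mul_mem m3 mP))) mu)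
      (mul_mem mS (_root_.sub_mem (mul_mem m4 (pow_mem mS 2)) (mul_mem m15 mP)))
  have mB : B ∈ V.integer :=
    add_mem (_root_.sub_mem (mul_mem (mul_mem m2 (_root_.sub_mem (pow_mem mS 2) (mul_mem m3 mP))) (pow_mem mu 2))
      (mul_mem (mul_mem mS (_root_.sub_mem (mul_mem m2 (pow_mem mS 2)) (mul_mem m7 mP))) mu))
      (mul_mem mP (_root_.sub_mem (pow_mem mS 2) (mul_mem m4 mP)))
  have e : α ^ 2 * β ^ 2 * (α - β) ^ 2 =
      A * η ^ 2 + B * (3 * u ^ 2 - 2 * (α + β) * u + α * β) := by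
    rw [hη, hA, hB]
    ring
  have h1 : V (A * η ^ 2) ≤ V (η ^ 2) := by
    rw [map_mul]
    exact mul_le_of_le_one_left zero_le mA
  have h2 : V (B * (3 * u ^ 2 - 2 * (α + β) * u + α * β)) ≤
      V (3 * u ^ 2 - 2 * (α + β) * u + α * β) := by
    rw [map_mul]
    exact mul_le_of_le_one_left zero_le mB
  rw [e]
  rcases le_total (V (A * η ^ 2)) (V (B * (3 * u ^ 2 - 2 * (α + β) * u + α * β))) with h3 | h3
  · right
    exact ((V.map_add _ _).trans (max_le h3 le_rfl)).trans h2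
  · left
    exact ((V.map_add _ _).trans (max_le le_rfl h3)).trans h1

omit [CharZero C] [DecidableEq C] in
theorem close_slope {u1 u2 α β η1 η2 : C} (h2 : V 2 ≤ 1) (hu1 : V u1 ≤ 1) (hu2 : V u2 ≤ 1)
    (hα : V α ≤ 1) (hβ : V β ≤ 1) (hη1 : η1 ^ 2 = u1 * (u1 - α) * (u1 - β))
    (hη2 : η2 ^ 2 = u2 * (u2 - α) * (u2 - β))
    (hD : α ^ 2 * β ^ 2 * (α - β) ^ 2 ≠ 0)
    (hu : V (u1 - u2) < V 2 * V (α ^ 2 * β ^ 2 * (α - β) ^ 2))
    (hη : V (η1 - η2) < V 2 * V (α ^ 2 * β ^ 2 * (α - β) ^ 2)) (hne : u1 ≠ u2) :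
    1 ≤ V ((η1 + η2) / (u1 - u2)) := by
  set D : C := α ^ 2 * β ^ 2 * (α - β) ^ 2 with hDd
  have hd : u1 - u2 ≠ 0 := sub_ne_zero.2 hne
  have hdpos : 0 < V (u1 - u2) := zero_lt_iff.2 ((Valuation.ne_zero_iff V).2 hd)
  have mn : ∀ n : ℕ, (n : C) ∈ V.integer := fun n => natCast_mem _ n
  have hD1 : V D ≤ 1 := by
    have m : D ∈ V.integer := by
      have mα : α ∈ V.integer := hα
      have mβ : β ∈ V.integer := hβ
      exact mul_mem (mul_mem (pow_mem mα 2) (pow_mem mβ 2)) (pow_mem (_root_.sub_mem mα mβ) 2)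
    exact m
  have hle : V 2 * V D ≤ V D := mul_le_of_le_one_left zero_le h2
  rw [map_div₀, le_div_iff₀ hdpos, one_mul]
  rcases close_bezout hu1 hα hβ hη1 with hc | hc
  · have h3 : V 2 * V D ≤ V (2 * η1) := by
      have h4 : (V 2 * V D) ^ 2 ≤ (V (2 * η1)) ^ 2 := by
        have h4' : (V (2 * η1)) ^ 2 = V 2 ^ 2 * V (η1 ^ 2) := by
          rw [map_mul, mul_pow, map_pow]
        have h4'' : V D ^ 2 ≤ V (η1 ^ 2) := by
          rw [pow_two]
          exact (mul_le_of_le_one_left zero_le hD1).trans hc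
        rw [h4', mul_pow]
        exact mul_le_mul_right h4'' _
      exact (pow_le_pow_iff_left₀ zero_le zero_le (by norm_num)).1 h4
    have h5 : V (η1 + η2) = V (2 * η1) := by
      have e : η1 + η2 = 2 * η1 - (η1 - η2) := by ring
      rw [e]
      exact Valuation.map_sub_eq_of_lt_left V (hη.trans_le h3)
    rw [h5]
    exact hu.le.trans h3
  · set G : C := u1 ^ 2 + u1 * u2 + u2 ^ 2 - (α + β) * (u1 + u2) + α * β with hG
    have hGf : (η1 - η2) * (η1 + η2) = (u1 - u2) * G := by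
      rw [hG]
      linear_combination hη1 - hη2
    have hr : V (u2 + 2 * u1 - (α + β)) ≤ 1 := by
      have m1 : u1 ∈ V.integer := hu1
      have m2 : u2 ∈ V.integer := hu2
      have mα : α ∈ V.integer := hα
      have mβ : β ∈ V.integer := hβ
      have m2' : (2 : C) ∈ V.integer := h2
      exact _root_.sub_mem (add_mem m2 (mul_mem m2' m1)) (add_mem mα mβ)
    have hVG : V G = V (3 * u1 ^ 2 - 2 * (α + β) * u1 + α * β) := by
      have e : G = (3 * u1 ^ 2 - 2 * (α + β) * u1 + α * β) -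
          (u1 - u2) * (u2 + 2 * u1 - (α + β)) := by
        rw [hG]
        ring
      rw [e]
      apply Valuation.map_sub_eq_of_lt_left V
      rw [map_mul]
      exact ((mul_le_of_le_one_right zero_le hr).trans_lt hu).trans_le (hle.trans hc)
    have hVG' : V D ≤ V G := by
      rw [hVG]
      exact hc
    have hDpos : 0 < V D := zero_lt_iff.2 ((Valuation.ne_zero_iff V).2 hD)
    have hGne : G ≠ 0 := (Valuation.ne_zero_iff V).1 (hDpos.trans_le hVG').ne'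
    have hyne : η1 - η2 ≠ 0 := by
      intro h0
      rw [h0, zero_mul] at hGf
      exact (mul_ne_zero hd hGne) hGf.symm
    have hypos : 0 < V (η1 - η2) := zero_lt_iff.2 ((Valuation.ne_zero_iff V).2 hyne)
    have h6 : V (η1 - η2) * V (u1 - u2) ≤ V (η1 - η2) * V (η1 + η2) := by
      rw [← map_mul V (η1 - η2) (η1 + η2), hGf, map_mul, mul_comm]
      exact mul_le_mul_right (hη.le.trans (hle.trans hVG')) _
    exact le_of_mul_le_mul_left h6 hypos

omit [CharZero C] [DecidableEq C] in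
theorem close_double {u1 α β η1 : C} (h2 : V 2 ≤ 1) (hu1 : V u1 ≤ 1)
    (hα : V α ≤ 1) (hβ : V β ≤ 1) (hη1 : η1 ^ 2 = u1 * (u1 - α) * (u1 - β))
    (hη : V (2 * η1) < V 2 * V (α ^ 2 * β ^ 2 * (α - β) ^ 2)) (hne : 2 * η1 ≠ 0) :
    1 ≤ V ((3 * u1 ^ 2 - 2 * (α + β) * u1 + α * β) / (2 * η1)) := by
  set D : C := α ^ 2 * β ^ 2 * (α - β) ^ 2 with hDd
  have hD1 : V D ≤ 1 := by
    have m : D ∈ V.integer := by
      have mα : α ∈ V.integer := hα
      have mβ : β ∈ V.integer := hβ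
      exact mul_mem (mul_mem (pow_mem mα 2) (pow_mem mβ 2)) (pow_mem (_root_.sub_mem mα mβ) 2)
    exact m
  have hle : V 2 * V D ≤ V D := mul_le_of_le_one_left zero_le h2
  have hpos : 0 < V (2 * η1) := zero_lt_iff.2 ((Valuation.ne_zero_iff V).2 hne)
  rw [map_div₀, le_div_iff₀ hpos, one_mul]
  rcases close_bezout hu1 hα hβ hη1 with hc | hc
  · exfalso
    have h3 : V 2 * V D ≤ V (2 * η1) := by
      have h4 : (V 2 * V D) ^ 2 ≤ (V (2 * η1)) ^ 2 := by
        have h4' : (V (2 * η1)) ^ 2 = V 2 ^ 2 * V (η1 ^ 2) := by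
          rw [map_mul, mul_pow, map_pow]
        have h4'' : V D ^ 2 ≤ V (η1 ^ 2) := by
          rw [pow_two]
          exact (mul_le_of_le_one_left zero_le hD1).trans hc
        rw [h4', mul_pow]
        exact mul_le_mul_right h4'' _
      exact (pow_le_pow_iff_left₀ zero_le zero_le (by norm_num)).1 h4
    exact absurd hη (not_lt.2 h3)
  · exact hη.le.trans (hle.trans hc)

omit [CharZero C] [DecidableEq C] in
theorem close_final {r σ : C} (hr : V r < 1) (hσ : 1 ≤ V σ) : 1 ≤ V (σ ^ 2 + r) := by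
  have h1 : 1 ≤ V (σ ^ 2) := by
    rw [map_pow]
    exact one_le_pow₀ hσ
  rw [Valuation.map_add_eq_of_lt_left V (hr.trans_le h1)]
  exact h1

theorem close_points (h : TwoTors W e1 e2 e3) (hp : Small V e1 e2 e3 p) :
    ∃ γ : ℤᵐ⁰, γ ≠ 0 ∧ ∀ (x1 y1 x2 y2 : C) (h1 : W.Nonsingular x1 y1) (h2 : W.Nonsingular x2 y2),
      V (p ^ 2 * (x1 - e1)) < 1 → V (p ^ 2 * (x2 - e1)) < 1 → V (x1 - x2) < γ → V (y1 - y2) < γ →
      InG V e1 p (Point.some x1 y1 h1 - Point.some x2 y2 h2 : W.Point) := by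
  set α : C := p ^ 2 * (e2 - e1) with hα
  set β : C := p ^ 2 * (e3 - e1) with hβ
  have hp2 : p ^ 2 ≠ 0 := pow_ne_zero 2 hp.ne
  have hp3 : p ^ 3 ≠ 0 := pow_ne_zero 3 hp.ne
  have hα1 : V α < 1 := hp.h12.trans (iso_four hp)
  have hβ1 : V β < 1 := hp.h13.trans (iso_four hp)
  have hαne : α ≠ 0 := mul_ne_zero hp2 (sub_ne_zero.2 h.h12.symm)
  have hβne : β ≠ 0 := mul_ne_zero hp2 (sub_ne_zero.2 h.h31)
  have hαβ : α - β ≠ 0 := by
    have e : α - β = p ^ 2 * (e2 - e3) := by rw [hα, hβ]; ring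
    rw [e]
    exact mul_ne_zero hp2 (sub_ne_zero.2 h.h23)
  have hD : α ^ 2 * β ^ 2 * (α - β) ^ 2 ≠ 0 :=
    mul_ne_zero (mul_ne_zero (pow_ne_zero 2 hαne) (pow_ne_zero 2 hβne)) (pow_ne_zero 2 hαβ)
  set γ0 : ℤᵐ⁰ := V 2 * V (α ^ 2 * β ^ 2 * (α - β) ^ 2) with hγ0
  have h20 : (2 : C) ≠ 0 := two_ne_zero
  have hγ0ne : γ0 ≠ 0 :=
    mul_ne_zero ((Valuation.ne_zero_iff V).2 h20) ((Valuation.ne_zero_iff V).2 hD)
  have hVp2 : V (p ^ 2) ≠ 0 := (Valuation.ne_zero_iff V).2 hp2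
  have hVp3 : V (p ^ 3) ≠ 0 := (Valuation.ne_zero_iff V).2 hp3
  have hpos2 : 0 < V (p ^ 2) := zero_lt_iff.2 hVp2
  have hpos3 : 0 < V (p ^ 3) := zero_lt_iff.2 hVp3
  refine ⟨min (γ0 / V (p ^ 2)) (γ0 / V (p ^ 3)), ?_, ?_⟩
  · have h1 : 0 < γ0 / V (p ^ 2) := zero_lt_iff.2 (div_ne_zero hγ0ne hVp2)
    have h2 : 0 < γ0 / V (p ^ 3) := zero_lt_iff.2 (div_ne_zero hγ0ne hVp3)
    exact (lt_min h1 h2).ne'
  intro x1 y1 x2 y2 h1 h2 hu1 hu2 hxx hyy
  have E1 := h.eq_of_nonsingular h1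
  have E2 := h.eq_of_nonsingular h2
  have hη1 : (p ^ 3 * y1) ^ 2 = (p ^ 2 * (x1 - e1)) * (p ^ 2 * (x1 - e1) - α) *
      (p ^ 2 * (x1 - e1) - β) := by
    rw [hα, hβ]
    linear_combination p ^ 6 * E1
  have hη2 : (p ^ 3 * y2) ^ 2 = (p ^ 2 * (x2 - e1)) * (p ^ 2 * (x2 - e1) - α) *
      (p ^ 2 * (x2 - e1) - β) := by
    rw [hα, hβ]
    linear_combination p ^ 6 * E2
  have hu : V (p ^ 2 * (x1 - e1) - p ^ 2 * (x2 - e1)) < γ0 := by
    have e : p ^ 2 * (x1 - e1) - p ^ 2 * (x2 - e1) = p ^ 2 * (x1 - x2) := by ring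
    rw [e, map_mul, mul_comm]
    exact (lt_div_iff₀ hpos2).1 (hxx.trans_le (min_le_left _ _))
  have hη : V (p ^ 3 * y1 - p ^ 3 * y2) < γ0 := by
    have e : p ^ 3 * y1 - p ^ 3 * y2 = p ^ 3 * (y1 - y2) := by ring
    rw [e, map_mul, mul_comm]
    exact (lt_div_iff₀ hpos3).1 (hyy.trans_le (min_le_right _ _))
  by_cases hx : x1 = x2
  · rcases sub_some_of_X_eq h h1 h2 hx with ⟨hy, hz⟩ | ⟨hy, hz⟩
    · rw [hz]
      trivial
    · rw [hz]
      by_cases hy0 : y1 = 0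
      · rw [(add_self_eq_zero_iff h h1).2 hy0]
        trivial
      · obtain ⟨X3, Y3, h3, hadd, hX3, -⟩ := add_self_some h h1 hy0
        rw [hadd]
        show 1 ≤ V (p ^ 2 * (X3 - e1))
        have h2y : 2 * (p ^ 3 * y1) ≠ 0 := mul_ne_zero h20 (mul_ne_zero hp3 hy0)
        have hη' : V (2 * (p ^ 3 * y1)) < γ0 := by
          have e : p ^ 3 * y1 - p ^ 3 * y2 = 2 * (p ^ 3 * y1) := by rw [hy]; ring
          rw [← e]
          exact hη
        have hs := close_double hp.two.le hu1.le hα1.le hβ1.le hη1 hη' h2y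
        have e : p ^ 2 * (X3 - e1) = ((3 * (p ^ 2 * (x1 - e1)) ^ 2 -
            2 * (α + β) * (p ^ 2 * (x1 - e1)) + α * β) / (2 * (p ^ 3 * y1))) ^ 2 +
            (α + β - p ^ 2 * (x1 - e1) - p ^ 2 * (x1 - e1)) := by
          have h2y' : 2 * y1 ≠ 0 := mul_ne_zero h20 hy0
          have k2 : (3 * (p ^ 2 * (x1 - e1)) ^ 2 - 2 * (α + β) * (p ^ 2 * (x1 - e1)) + α * β) /
              (2 * (p ^ 3 * y1)) = p * ((3 * (x1 - e1) ^ 2 -
                2 * ((e2 - e1) + (e3 - e1)) * (x1 - e1) + (e2 - e1) * (e3 - e1)) / (2 * y1)) := by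
            have k3 : 3 * (p ^ 2 * (x1 - e1)) ^ 2 - 2 * (α + β) * (p ^ 2 * (x1 - e1)) + α * β =
                p ^ 3 * (p * (3 * (x1 - e1) ^ 2 -
                2 * ((e2 - e1) + (e3 - e1)) * (x1 - e1) + (e2 - e1) * (e3 - e1))) := by
              rw [hα, hβ]
              ring
            have k4 : 2 * (p ^ 3 * y1) = p ^ 3 * (2 * y1) := by ring
            rw [k3, k4, mul_div_mul_left _ _ hp3, mul_div_assoc]
          have e5 : (((x1 - e1) ^ 2 - (e1 - e2) * (e1 - e3)) / (2 * y1)) ^ 2 =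
              ((3 * (x1 - e1) ^ 2 - 2 * ((e2 - e1) + (e3 - e1)) * (x1 - e1) +
                (e2 - e1) * (e3 - e1)) / (2 * y1)) ^ 2 +
                ((e2 - e1) + (e3 - e1) - (x1 - e1) - (x1 - e1)) := by
            rw [div_pow, div_pow, div_add' _ _ _ (pow_ne_zero 2 h2y')]
            congr 1
            linear_combination (-4 * ((e2 - e1) + (e3 - e1) - (x1 - e1) - (x1 - e1))) * E1
          rw [k2, hX3, e5, hα, hβ]
          ring
        rw [e]
        apply close_final _ hs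
        have m1 : V (p ^ 2 * (x1 - e1)) < 1 := hu1
        exact Valuation.map_sub_lt V (Valuation.map_sub_lt V (Valuation.map_add_lt V hα1 hβ1) m1) m1
  · obtain ⟨x3, y3, h3, hsub, hx3⟩ := sub_some_of_X_ne h h1 h2 hx
    rw [hsub]
    show 1 ≤ V (p ^ 2 * (x3 - e1))
    have hune : p ^ 2 * (x1 - e1) ≠ p ^ 2 * (x2 - e1) := by
      intro h0
      have := mul_left_cancel₀ hp2 h0
      exact hx (sub_left_injective this)
    have hs := close_slope hp.two.le hu1.le hu2.le hα1.le hβ1.le hη1 hη2 hD hu hη hune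
    have e : p ^ 2 * (x3 - e1) = ((p ^ 3 * y1 + p ^ 3 * y2) /
        (p ^ 2 * (x1 - e1) - p ^ 2 * (x2 - e1))) ^ 2 +
        (α + β - p ^ 2 * (x1 - e1) - p ^ 2 * (x2 - e1)) := by
      have hp0 : p ≠ 0 := hp.ne
      have hxd : x1 - x2 ≠ 0 := sub_ne_zero.2 hx
      have k2 : (p ^ 3 * y1 + p ^ 3 * y2) / (p ^ 2 * (x1 - e1) - p ^ 2 * (x2 - e1)) =
          p * ((y1 + y2) / (x1 - x2)) := by
        have k3 : p ^ 2 * (x1 - e1) - p ^ 2 * (x2 - e1) = p ^ 2 * (x1 - x2) := by ring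
        have k4 : p ^ 3 * y1 + p ^ 3 * y2 = p ^ 2 * (p * (y1 + y2)) := by ring
        rw [k3, k4, mul_div_mul_left _ _ hp2, mul_div_assoc]
      rw [k2, hx3, hα, hβ]
      ring
    rw [e]
    apply close_final _ hs
    exact Valuation.map_sub_lt V (Valuation.map_sub_lt V (Valuation.map_add_lt V hα1 hβ1) hu1) hu2

end Pool.Agent.Work.MP_787500_nt.RS
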