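import Mathlib
import Pool.Agent.Work.MP_787500_nt.RS.Defs
import Pool.Agent.Work.MP_787500_nt.RS.Iso
import Pool.Agent.Work.MP_787500_nt.RS.Close

/-!
# Module FINIDX: finitely many classes modulo the neighbourhood of zero
-/

set_option autoImplicit false

namespace Pool.Agent.Work.MP_787500_nt.RS

open WithZero WeierstrassCurve WeierstrassCurve.Affine

variable {C : Type*} [Field C] [CharZero C] [DecidableEq C] {V : Valuation C ℤᵐ⁰}
variable {W : WeierstrassCurve.Affine C} {e1 e2 e3 p : C}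

/-- the class of a point -/
def finidx_R (V : Valuation C ℤᵐ⁰) (e1 p : C) (γ : ℤᵐ⁰) (S : Finset (C × C))
    (P : W.Point) : Option S → Prop
  | none => InG V e1 p P
  | some s => ∃ (x y : C) (hn : W.Nonsingular x y), P = Point.some x y hn ∧
      V (p ^ 2 * (x - e1)) < 1 ∧ V (x - s.1.1) < γ ∧ V (y - s.1.2) < γ

omit [CharZero C] [DecidableEq C] in
theorem finidx_close {x x' s : C} {γ : ℤᵐ⁰} (h : V (x - s) < γ) (h' : V (x' - s) < γ) :
    V (x - x') < γ := by
  have e : x - x' = (x - s) - (x' - s) := by ring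
  rw [e]
  exact Valuation.map_sub_lt V h h'

theorem finite_classes (hT : TotBdd V) (h : TwoTors W e1 e2 e3) (hp : Small V e1 e2 e3 p) :
    ∃ (n : ℕ) (f : W.Point → Fin n), ∀ P Q : W.Point, f P = f Q → InG V e1 p (P - Q) := by
  classical
  obtain ⟨γ, hγ, hclose⟩ := close_points h hp
  have hp2 : p ^ 2 ≠ 0 := pow_ne_zero 2 hp.ne
  have hp3 : p ^ 3 ≠ 0 := pow_ne_zero 3 hp.ne
  have hpos2 : 0 < V (p ^ 2) := zero_lt_iff.2 ((Valuation.ne_zero_iff V).2 hp2)
  have hpos3 : 0 < V (p ^ 3) := zero_lt_iff.2 ((Valuation.ne_zero_iff V).2 hp3)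
  obtain ⟨S1, hS1⟩ := hT (max (1 / V (p ^ 2)) (V e1)) γ hγ
  obtain ⟨S2, hS2⟩ := hT (1 / V (p ^ 3)) γ hγ
  have hex : ∀ P : W.Point, ∃ c : Option (S1 ×ˢ S2 : Finset (C × C)),
      finidx_R V e1 p γ (S1 ×ˢ S2) P c := by
    intro P
    by_cases hP : InG V e1 p P
    · exact ⟨none, hP⟩
    · rcases P with _ | ⟨x, y, hn⟩
      · exact absurd trivial hP
      · have hu : V (p ^ 2 * (x - e1)) < 1 := not_le.1 hP
        have hx : V x ≤ max (1 / V (p ^ 2)) (V e1) := by
          have e : x = (x - e1) + e1 := by ring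
          have h1 : V (x - e1) ≤ 1 / V (p ^ 2) := by
            rw [le_div_iff₀ hpos2, mul_comm, ← map_mul]
            exact hu.le
          calc V x = V ((x - e1) + e1) := by rw [← e]
            _ ≤ max (V (x - e1)) (V e1) := V.map_add _ _
            _ ≤ _ := max_le_max h1 le_rfl
        have hy : V y ≤ 1 / V (p ^ 3) := by
          have heq := h.eq_of_nonsingular hn
          rw [le_div_iff₀ hpos3, mul_comm, ← map_mul]
          have h2 : V (p ^ 3 * y) ^ 2 ≤ 1 ^ 2 := by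
            have e : (p ^ 3 * y) ^ 2 = (p ^ 2 * (x - e1)) *
                (p ^ 2 * (x - e1) - p ^ 2 * (e2 - e1)) *
                (p ^ 2 * (x - e1) - p ^ 2 * (e3 - e1)) := by
              linear_combination p ^ 6 * heq
            have h3 : V (p ^ 2 * (x - e1) - p ^ 2 * (e2 - e1)) ≤ 1 :=
              (Valuation.map_sub_lt V hu (hp.h12.trans (iso_four hp))).le
            have h4 : V (p ^ 2 * (x - e1) - p ^ 2 * (e3 - e1)) ≤ 1 :=
              (Valuation.map_sub_lt V hu (hp.h13.trans (iso_four hp))).le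
            rw [← map_pow, e, map_mul, map_mul V (p ^ 2 * (x - e1)), one_pow]
            exact mul_le_one' (mul_le_one' hu.le h3) h4
          exact (pow_le_pow_iff_left₀ zero_le zero_le (by norm_num)).1 h2
        obtain ⟨s1, hs1, hs1'⟩ := hS1 x hx
        obtain ⟨s2, hs2, hs2'⟩ := hS2 y hy
        exact ⟨some ⟨(s1, s2), Finset.mem_product.2 ⟨hs1, hs2⟩⟩, x, y, hn, rfl, hu, hs1', hs2'⟩
  choose f hf using hex
  obtain ⟨n, ⟨e⟩⟩ := Finite.exists_equiv_fin (Option (S1 ×ˢ S2 : Finset (C × C)))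
  refine ⟨n, fun P => e (f P), ?_⟩
  intro P Q hPQ
  have h1 : f P = f Q := e.injective hPQ
  have hP := hf P
  have hQ := hf Q
  rw [← h1] at hQ
  rcases hc : f P with _ | s
  · rw [hc] at hP hQ
    exact (sub_mem h hp hP hQ).1
  · rw [hc] at hP hQ
    obtain ⟨x1, y1, h1', rfl, hu1, hx1, hy1⟩ := hP
    obtain ⟨x2, y2, h2', rfl, hu2, hx2, hy2⟩ := hQ
    exact hclose x1 y1 x2 y2 h1' h2' hu1 hu2 (finidx_close hx1 hx2) (finidx_close hy1 hy2)

end Pool.Agent.Work.MP_787500_nt.RS
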