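import Mathlib
import Pool.Agent.Work.MP_787500_nt.RS.Defs
import Pool.Agent.Work.MP_787500_nt.RS.Iso

/-!
# Module HALF: halving near zero

`Q = (x, y)` with `X = x - e1`, `1 ≤ V (p^2 X)` and `V (X / y) ≤ V (2 p)` is `2 P` with `P` in the
neighbourhood.
-/

set_option autoImplicit false

namespace Pool.Agent.Work.MP_787500_nt.RS

open WithZero WeierstrassCurve WeierstrassCurve.Affine

variable {C : Type*} [Field C] [CharZero C] [DecidableEq C] {V : Valuation C ℤᵐ⁰}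
variable {W : WeierstrassCurve.Affine C} {e1 e2 e3 p : C}

omit [CharZero C] [DecidableEq C] in
theorem half_root (hS : SqNear V) (hp : Small V e1 e2 e3 p) {X a : C}
    (ha : V (p ^ 2 * a) < V 4) (hX : 1 ≤ V (p ^ 2 * X)) :
    ∃ g : C, g ^ 2 = 1 - a / X ∧ g ≠ 0 ∧ V (1 + g) = V 2 := by
  have h1 : V ((1 - a / X) - 1) < V 4 := by
    have e : (1 - a / X) - 1 = -((p ^ 2 * a) / (p ^ 2 * X)) := by
      rw [mul_div_mul_left _ _ (pow_ne_zero 2 hp.ne)]
      ring
    rw [e, Valuation.map_neg, map_div₀]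
    have hpos : 0 < V (p ^ 2 * X) := lt_of_lt_of_le zero_lt_one hX
    have hle : V (p ^ 2 * a) / V (p ^ 2 * X) ≤ V (p ^ 2 * a) :=
      (div_le_iff₀ hpos).2 (le_mul_of_one_le_right zero_le hX)
    exact hle.trans_lt ha
  obtain ⟨g, hg, hg1⟩ := hS _ h1
  refine ⟨g, hg, ?_, ?_⟩
  · intro h0
    rw [h0, zero_sub, Valuation.map_neg, map_one] at hg1
    exact absurd hg1 (not_lt.2 hp.two.le)
  · have e : 1 + g = 2 + (g - 1) := by ring
    rw [e]
    exact Valuation.map_add_eq_of_lt_left V hg1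

theorem exists_half_of_small (hS : SqNear V) (h : TwoTors W e1 e2 e3) (hp : Small V e1 e2 e3 p)
    {Q : W.Point} (hQ : InG V e1 p Q) (ht : V (tpar e1 Q) ≤ V (2 * p)) :
    ∃ P : W.Point, InG V e1 p P ∧ Q = P + P := by
  rcases Q with _ | ⟨x, y, hn⟩
  · exact ⟨Point.zero, trivial, (add_zero (0 : W.Point)).symm⟩
  · have hG : 1 ≤ V (p ^ 2 * (x - e1)) := hQ
    have ht' : V ((x - e1) / y) ≤ V (2 * p) := ht
    obtain ⟨hX, hy, -⟩ := iso_y h hp hn hG
    have heq := h.eq_of_nonsingular hn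
    obtain ⟨g2, hg2, hg20, hV2⟩ := half_root hS hp hp.h12 hG
    obtain ⟨g3, hg3, hg30, hV3⟩ := half_root hS hp hp.h13 hG
    set r1 : C := y / ((x - e1) * g2 * g3) with hr1
    have hden : (x - e1) * g2 * g3 ≠ 0 := mul_ne_zero (mul_ne_zero hX hg20) hg30
    have hr : r1 * ((x - e1) * g2 * g3) = y := div_mul_cancel₀ _ hden
    have hg2' : (x - e1) * g2 ^ 2 = x - e2 := by
      rw [hg2]
      field_simp
      ring
    have hg3' : (x - e1) * g3 ^ 2 = x - e3 := by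
      rw [hg3]
      field_simp
      ring
    have h1 : r1 ^ 2 = x - e1 := by
      have hne : (x - e1) ^ 2 * g2 ^ 2 * g3 ^ 2 ≠ 0 :=
        mul_ne_zero (mul_ne_zero (pow_ne_zero 2 hX) (pow_ne_zero 2 hg20)) (pow_ne_zero 2 hg30)
      apply mul_right_cancel₀ hne
      calc r1 ^ 2 * ((x - e1) ^ 2 * g2 ^ 2 * g3 ^ 2) = (r1 * ((x - e1) * g2 * g3)) ^ 2 := by ring
        _ = (x - e1) * (x - e2) * (x - e3) := by rw [hr, heq]
        _ = (x - e1) * ((x - e1) * g2 ^ 2) * ((x - e1) * g3 ^ 2) := by rw [hg2', hg3']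
        _ = _ := by ring
    have h2 : (r1 * g2) ^ 2 = x - e2 := by rw [mul_pow, h1, hg2']
    have h3 : (r1 * g3) ^ 2 = x - e3 := by rw [mul_pow, h1, hg3']
    have hyr : y = r1 * (r1 * g2) * (r1 * g3) := by
      calc y = r1 * ((x - e1) * g2 * g3) := hr.symm
        _ = r1 * (r1 ^ 2 * g2 * g3) := by rw [h1]
        _ = _ := by ring
    refine ⟨halfPt h h1 h2 h3, ?_, (halfPt_add_self h h1 h2 h3 hn hyr).symm⟩
    show 1 ≤ V (p ^ 2 * ((x + r1 * (r1 * g2) + (r1 * g2) * (r1 * g3) + (r1 * g3) * r1) - e1))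
    have e : p ^ 2 * ((x + r1 * (r1 * g2) + (r1 * g2) * (r1 * g3) + (r1 * g3) * r1) - e1) =
        p ^ 2 * (r1 ^ 2 * ((1 + g2) * (1 + g3))) := by
      linear_combination -p ^ 2 * h1
    have e2' : V (p ^ 2 * (r1 ^ 2 * ((1 + g2) * (1 + g3)))) = V ((2 * p) ^ 2 * (x - e1)) := by
      rw [h1, map_mul, map_mul V (x - e1), map_mul V (1 + g2), hV2, hV3, ← map_mul, ← map_mul,
        ← map_mul]
      congr 1
      ring
    rw [e, e2']
    have h4 := (val_tpar h hp hn hG).2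
    rw [map_mul, map_pow, ← h4]
    exact mul_le_mul_left (pow_le_pow_left₀ zero_le ht' 2) _

end Pool.Agent.Work.MP_787500_nt.RS
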