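import Mathlib
import Pool.Agent.Work.MP_787500_nt.H10_Rank

/-!
# Module HERB: index of the doubles through a subgroup of finite index (Herbrand quotient)

`A` an abelian group, `G` a subgroup of finite index without elements of order two. Then
`[A : 2A] = #A[2] * [G : 2G]`:  `[A : 2A] [2A : 2G] = [A : 2G] = [A : G] [G : 2G]`, and the map
doubling `A → 2A / 2G` is surjective with kernel `G + A[2]`, so
`[2A : 2G] = [A : G + A[2]] = [A : G] / #A[2]` (since `G ∩ A[2] = 0`), i.e.
`[2A : 2G] * #A[2] = [A : G]`. All of `A / G`, `G / 2G`, `A[2]` are finite.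
`G / 2G` has at most `Nat.card ι` elements by `hc`.
-/

set_option autoImplicit false

namespace Pool.Agent.Work.MP_787500_nt.RS

private theorem herb_index_le {A : Type*} [AddCommGroup A] (H : AddSubgroup A) {ι : Type*}
    [Finite ι] (f : A → ι) (hf : ∀ a b, f a = f b → a - b ∈ H) :
    H.index ≠ 0 ∧ H.index ≤ Nat.card ι := by
  have hinj : Function.Injective (fun q : A ⧸ H => f q.out) := by
    intro p q hpq
    have h1 := hf _ _ hpq
    rw [← QuotientAddGroup.out_eq' p, ← QuotientAddGroup.out_eq' q, QuotientAddGroup.eq]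
    have h2 := H.neg_mem h1
    rw [neg_sub, sub_eq_neg_add] at h2
    exact h2
  have hfin : Finite (A ⧸ H) := Finite.of_injective _ hinj
  refine ⟨?_, ?_⟩
  · rw [AddSubgroup.index]
    exact Nat.card_pos.ne'
  · rw [AddSubgroup.index]
    exact Nat.card_le_card_of_injective _ hinj

theorem index_dbl_le {A : Type*} [AddCommGroup A] (G : AddSubgroup A) {n : ℕ} (f : A → Fin n)
    (hf : ∀ a b, f a = f b → a - b ∈ G) (h0 : ∀ g ∈ G, g + g = 0 → g = 0)
    (hfin : Finite (dbl A).ker) {ι : Type*} [Finite ι] (c : A → ι)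
    (hc : ∀ a ∈ G, ∀ b ∈ G, c a = c b → ∃ k ∈ G, a - b = k + k) :
    (dbl A).range.index ≠ 0 ∧ (dbl A).range.index ≤ Nat.card (dbl A).ker * Nat.card ι := by
  have hG := (herb_index_le G f hf).1
  set D := G.map (dbl A) with hD
  -- the index of the doubles in `G`
  have hDG : D ≤ G := by
    rintro x ⟨g, hg, rfl⟩
    simp only [nsmulAddMonoidHom_apply]
    exact G.nsmul_mem hg 2
  have hrel : D.relIndex G ≠ 0 ∧ D.relIndex G ≤ Nat.card ι := by
    have := herb_index_le (D.addSubgroupOf G) (fun g : G => c g) (by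
      intro a b hab
      obtain ⟨k, hk, hkk⟩ := hc a a.2 b b.2 hab
      rw [AddSubgroup.mem_addSubgroupOf]
      refine ⟨k, hk, ?_⟩
      simp only [nsmulAddMonoidHom_apply, AddSubgroup.coe_sub]
      rw [hkk, two_nsmul])
    exact this
  have e1 : D.relIndex G * G.index = D.index := AddSubgroup.relIndex_mul_index hDG
  have hDr : D ≤ (dbl A).range := by
    rintro x ⟨g, -, rfl⟩
    exact ⟨g, rfl⟩
  have e2 : D.relIndex (dbl A).range * (dbl A).range.index = D.index :=
    AddSubgroup.relIndex_mul_index hDr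
  have e3 : D.relIndex (dbl A).range = (G ⊔ (dbl A).ker).index := by
    have h1 := AddSubgroup.relIndex_map_map (dbl A) G ⊤
    rw [← AddMonoidHom.range_eq_map, top_sup_eq, AddSubgroup.relIndex_top_right] at h1
    exact h1
  have e4 : G.relIndex (G ⊔ (dbl A).ker) * (G ⊔ (dbl A).ker).index = G.index :=
    AddSubgroup.relIndex_mul_index le_sup_left
  have e5 : G.relIndex (G ⊔ (dbl A).ker) = Nat.card (dbl A).ker := by
    rw [AddSubgroup.relIndex_sup_left, ← AddSubgroup.inf_relIndex_right]
    have : G ⊓ (dbl A).ker = ⊥ := by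
      rw [eq_bot_iff]
      rintro x ⟨hx, hx'⟩
      rw [AddSubgroup.mem_bot]
      apply h0 x hx
      have := AddMonoidHom.mem_ker.1 hx'
      rw [nsmulAddMonoidHom_apply, two_nsmul] at this
      exact this
    rw [this, AddSubgroup.relIndex_bot_left]
  have hB : (G ⊔ (dbl A).ker).index ≠ 0 := by
    intro h
    rw [h, mul_zero] at e4
    exact hG e4.symm
  have hk : Nat.card (dbl A).ker ≠ 0 := Nat.card_pos.ne'
  have key : (dbl A).range.index = D.relIndex G * Nat.card (dbl A).ker := by
    rw [e5] at e4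
    rw [e3, ← e1, ← e4] at e2
    apply Nat.eq_of_mul_eq_mul_left (Nat.pos_of_ne_zero hB)
    rw [e2]
    ring
  rw [key]
  refine ⟨mul_ne_zero hrel.1 hk, ?_⟩
  rw [mul_comm]
  exact Nat.mul_le_mul_left _ hrel.2

end Pool.Agent.Work.MP_787500_nt.RS
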