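import Mathlib
import Pool.Agent.Work.MP_787500_nt.H10_Gen
import Pool.Agent.Work.MP_787500_nt.RS.Defs
import Pool.Agent.Work.MP_787500_nt.RS.Iso
import Pool.Agent.Work.MP_787500_nt.RS.Half
import Pool.Agent.Work.MP_787500_nt.RS.FinIdx
import Pool.Agent.Work.MP_787500_nt.RS.Herb
import Pool.Agent.Work.MP_787500_nt.RS.ComplA
import Pool.Agent.Work.MP_787500_nt.RS.ComplB

/-!
# Module LOCCOUNT: the index of the doubles over the completion

Assembly. Choose `p = algebraMap .. (2 ^ N)` for large `N` (or any small element) such that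
`Small (VC v) e1 e2 e3 p`. The subgroup `G = {P | InG V e1 p P}` (closed under subtraction by
`sub_mem`), classes modulo `G` from `finite_classes`, no 2-torsion by `double_ne`. The class map
`c : W.Point → 𝓞 F ⧸ dyIdeal v`: for `P` near zero, `V (t(P) / p) ≤ 1` (`val_tpar_le`), choose
`r : 𝓞 F` with `V (r - t(P)/p) < V 2` hence `≤` (`exists_int_near`), `c P = mk r`; equal classes of
`P`, `Q` give `V (t(P) - t(Q)) ≤ V (2 p)`, so `P - Q = K + K` by `sub_mem` and
`exists_half_of_small`. Then `index_dbl_le`. The kernel of doubling has at most 4 elements by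
`two_torsion_cases` (H9_Alg), `𝓞 F ⧸ dyIdeal v` is finite (the ideal is not zero).
-/

set_option autoImplicit false

namespace Pool.Agent.Work.MP_787500_nt.RS

open WithZero IsDedekindDomain NumberField WeierstrassCurve WeierstrassCurve.Affine

variable {F : Type*} [Field F] [NumberField F] (v : HeightOneSpectrum (𝓞 F))

private theorem exists_small (hv : (2 : 𝓞 F) ∈ v.asIdeal) (e1 e2 e3 : v.adicCompletion F) :
    ∃ p : v.adicCompletion F, Small (VC v) e1 e2 e3 p := by
  have h2 : VC v (2 : v.adicCompletion F) < 1 := VC_two_lt hv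
  have h20 : (2 : v.adicCompletion F) ≠ 0 := completion_two_ne_zero
  have h4 : VC v (4 : v.adicCompletion F) ≠ 0 := by
    rw [Valuation.ne_zero_iff, show (4 : v.adicCompletion F) = 2 * 2 by norm_num]
    exact mul_ne_zero h20 h20
  obtain ⟨δ1, hδ1, H1⟩ := exists_lt_of_ne_zero (a := VC v (e2 - e1)) h4
  obtain ⟨δ2, hδ2, H2⟩ := exists_lt_of_ne_zero (a := VC v (e3 - e1)) h4
  have hmin : min δ1 δ2 ≠ 0 := by
    rcases min_choice δ1 δ2 with h | h <;> rw [h]
    · exact hδ1
    · exact hδ2
  obtain ⟨N, hN⟩ := exists_pow_lt₀ h2 (Units.mk0 (min δ1 δ2) hmin)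
  rw [Units.val_mk0] at hN
  have hle : VC v ((2 ^ N : v.adicCompletion F) ^ 2) < min δ1 δ2 := by
    refine lt_of_le_of_lt ?_ hN
    rw [map_pow, map_pow, pow_two]
    exact (mul_le_mul' (pow_le_one' h2.le N) le_rfl).trans (one_mul _).le
  refine ⟨2 ^ N, h2, pow_ne_zero _ h20, ?_, ?_⟩
  · rw [map_mul, mul_comm]
    exact H1 _ (hle.trans_le (min_le_left _ _))
  · rw [map_mul, mul_comm]
    exact H2 _ (hle.trans_le (min_le_right _ _))

private theorem finite_quot : Finite (𝓞 F ⧸ dyIdeal v) := by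
  refine Ideal.finiteQuotientOfFreeOfNeBot _ ?_
  intro h
  have h2 : (2 : 𝓞 F) ∈ dyIdeal v := by
    rw [mem_dyIdeal, map_ofNat]
  rw [h, Ideal.mem_bot] at h2
  exact two_ne_zero h2

open scoped Classical in
private theorem ker_dbl {C : Type*} [Field C] [CharZero C] {W : WeierstrassCurve.Affine C}
    {e1 e2 e3 : C} (h : TwoTors W e1 e2 e3) :
    Finite (dbl W.Point).ker ∧ Nat.card (dbl W.Point).ker ≤ 4 := by
  let g : Fin 4 → W.Point := ![0, tor h, tor h.rot, tor h.rot.rot]
  have hg : ∀ P : (dbl W.Point).ker, ∃ i, g i = P.1 := by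
    rintro ⟨P, hP⟩
    rw [AddMonoidHom.mem_ker, nsmulAddMonoidHom_apply, two_nsmul] at hP
    rcases two_torsion_cases h hP with h1 | h1 | h1 | h1
    · exact ⟨0, h1.symm⟩
    · exact ⟨1, h1.symm⟩
    · exact ⟨2, h1.symm⟩
    · exact ⟨3, h1.symm⟩
  choose i hi using hg
  have hinj : Function.Injective i := by
    intro P Q hPQ
    apply Subtype.ext
    rw [← hi P, ← hi Q, hPQ]
  refine ⟨Finite.of_injective i hinj, ?_⟩
  simpa using Nat.card_le_card_of_injective i hinj

open scoped Classical in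
theorem index_local (hv : (2 : 𝓞 F) ∈ v.asIdeal)
    {W : WeierstrassCurve.Affine (v.adicCompletion F)} {e1 e2 e3 : v.adicCompletion F}
    (h : TwoTors W e1 e2 e3) :
    (dbl W.Point).range.index ≠ 0 ∧
      (dbl W.Point).range.index ≤ 4 * Nat.card (𝓞 F ⧸ dyIdeal v) := by
  have : CharZero (v.adicCompletion F) :=
    charZero_of_injective_algebraMap (algebraMap F (v.adicCompletion F)).injective
  obtain ⟨p, hp⟩ := exists_small v hv e1 e2 e3
  obtain ⟨n, f, hf⟩ := finite_classes (totBdd v) h hp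
  let G : AddSubgroup W.Point := AddSubgroup.ofSub {P | InG (VC v) e1 p P} ⟨0, trivial⟩
    (fun x hx y hy => by
      rw [← sub_eq_add_neg]
      exact (sub_mem h hp hx hy).1)
  have memG : ∀ P, P ∈ G ↔ InG (VC v) e1 p P := fun P => Iff.rfl
  obtain ⟨hker, hker4⟩ := ker_dbl h
  have := hker
  have := finite_quot v
  have h20 : VC v (2 : v.adicCompletion F) ≠ 0 :=
    (Valuation.ne_zero_iff _).2 completion_two_ne_zero
  have hp0 : VC v p ≠ 0 := (Valuation.ne_zero_iff _).2 hp.ne
  have hex : ∀ P : W.Point, ∃ r : 𝓞 F, InG (VC v) e1 p P →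
      VC v (algebraMap F (v.adicCompletion F) (algebraMap (𝓞 F) F r) - tpar e1 P / p) <
        VC v 2 := by
    intro P
    by_cases hP : InG (VC v) e1 p P
    · have h1 : VC v (tpar e1 P / p) ≤ 1 := by
        rw [map_div₀]
        exact div_le_one_of_le₀ (val_tpar_le h hp hP) zero_le
      obtain ⟨r, hr⟩ := exists_int_near v _ h1 h20
      exact ⟨r, fun _ => hr⟩
    · exact ⟨0, fun hh => absurd hh hP⟩
  choose r hr using hex
  have hc : ∀ a ∈ G, ∀ b ∈ G, Ideal.Quotient.mk (dyIdeal v) (r a) =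
      Ideal.Quotient.mk (dyIdeal v) (r b) → ∃ k ∈ G, a - b = k + k := by
    intro a ha b hb hab
    rw [memG] at ha hb
    rw [Ideal.Quotient.eq, mem_dyIdeal, ← VC_algebraMap] at hab
    obtain ⟨s1, s2⟩ := sub_mem h hp ha hb
    have h2v : v.valuation F 2 = VC v (2 : v.adicCompletion F) := by
      rw [← VC_algebraMap, map_ofNat]
    rw [h2v, map_sub, map_sub] at hab
    have h3 : VC v (tpar e1 a / p - tpar e1 b / p) ≤ VC v 2 := by
      have e : tpar e1 a / p - tpar e1 b / p =
          ((algebraMap F (v.adicCompletion F) (algebraMap (𝓞 F) F (r a)) -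
            algebraMap F (v.adicCompletion F) (algebraMap (𝓞 F) F (r b))) -
          (algebraMap F (v.adicCompletion F) (algebraMap (𝓞 F) F (r a)) - tpar e1 a / p)) +
          (algebraMap F (v.adicCompletion F) (algebraMap (𝓞 F) F (r b)) - tpar e1 b / p) := by
        ring
      rw [e]
      exact (Valuation.map_add _ _ _).trans (max_le ((Valuation.map_sub _ _ _).trans
        (max_le hab (hr a ha).le)) (hr b hb).le)
    have h4 : VC v (tpar e1 (a - b)) ≤ VC v (2 * p) := by
      rw [s2, map_mul]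
      have e : tpar e1 a - tpar e1 b = (tpar e1 a / p - tpar e1 b / p) * p := by
        rw [← sub_div, div_mul_cancel₀ _ hp.ne]
      rw [e, map_mul]
      exact mul_le_mul' h3 le_rfl
    exact exists_half_of_small (sqNear v hv) h hp s1 h4
  obtain ⟨h5, h6⟩ := index_dbl_le G f (fun a b hab => hf a b hab)
    (fun g hg hg2 => double_ne h hp hg hg2) hker
    (fun P => Ideal.Quotient.mk (dyIdeal v) (r P)) hc
  exact ⟨h5, h6.trans (Nat.mul_le_mul hker4 le_rfl)⟩

end Pool.Agent.Work.MP_787500_nt.RS
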