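import Mathlib
import Pool.Agent.Work.MP_787500_nt.H10_Kappa2

/-!
# Module LOCKUM: solutions of the covering give points with the right Kummer class

`Kum2 h P d2 d3` (H10_Kappa2): second and third coordinate of the Kummer class of `P`.
* `Kum2.of_isSquare`: scale the square roots: if `d2 d2' = c^2` take `s2' = s2 * c / d2`.
* `exists_kum2_of_sol`: `w ≠ 0`: the point `x = X / w^2`, `y = t z1 z2 z3 / w^3` with
  `t^2 = d1 d2 d3`; `x - e_i = d_i (z_i / w)^2`. If `z2 ≠ 0` and `z3 ≠ 0` use `kum2_some` and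
  `Kum2.of_isSquare`. If `z2 = 0` then `x = e2`, `P = (e2, 0)` and the class of `x - e1`, `x - e3` is
  known (`kumS_rFun` for `h` and `h.rot.rot`, and `KumS.mul_third` for the second coordinate, since
  `d2 ~ d1 d3`); similarly `z3 = 0`. `w = 0`: `d_i z_i^2 = X ≠ 0`, so `d1 d2 d3 ~ X^3` is a square,
  `X` is a square, all `d_i` are squares: take `P = 0` (`kum2_zero` in H10_Example, with constant
  square roots `s2, s3`: half of zero is zero).
* `Kum2.isSquare_mul`: `P - P' = R + R` gives `P + P' = (R + P') + (R + P')`; `Kum2.add` and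
  `Kum2.isSquare_of_double`.
-/

set_option autoImplicit false

namespace Pool.Agent.Work.MP_787500_nt.RS

open WeierstrassCurve WeierstrassCurve.Affine

variable {C : Type*} [Field C] [CharZero C] {W : WeierstrassCurve.Affine C} {e1 e2 e3 : C}

open scoped Classical in
private theorem lk_kumS_of_isSquare {h : TwoTors W e1 e2 e3}
    {Q : (W⁄(AlgebraicClosure C)).Point} {s : AlgebraicClosure C} {d d' : C} (H : KumS h Q s d)
    (n : d' ≠ 0) (hs : IsSquare (d * d')) : ∃ s' : AlgebraicClosure C, KumS h Q s' d' := by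
  obtain ⟨c, hc⟩ := hs
  have hd : d ≠ 0 := H.ne'
  have hc0 : c ≠ 0 := by
    rintro rfl
    rw [mul_zero] at hc
    exact (mul_ne_zero hd n) hc
  set A := algebraMap C (AlgebraicClosure C) with hA
  have hcA : A c ≠ 0 := by rw [Ne, map_eq_zero]; exact hc0
  have hdA : A d ≠ 0 := by rw [Ne, map_eq_zero]; exact hd
  have hfix : ∀ σ : AlgebraicClosure C ≃ₐ[C] AlgebraicClosure C, σ (A c / A d) = A c / A d := by
    intro σ
    rw [map_div₀, hA, AlgEquiv.commutes, AlgEquiv.commutes]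
  refine ⟨s * (A c / A d), mul_ne_zero H.ne (div_ne_zero hcA hdA), ?_, ?_, ?_⟩
  · have h1 := H.sq
    rw [← hA] at h1
    have h2 : A d * A d' = A c * A c := by rw [← map_mul, hc, map_mul]
    rw [mul_pow, ← h1, div_pow]
    field_simp
    linear_combination h2
  · intro σ hσ
    rw [map_mul, hfix σ, H.pos σ hσ]
  · intro σ hσ
    rw [map_mul, hfix σ, H.neg σ hσ, neg_mul]

open scoped Classical in
theorem Kum2.of_isSquare {h : TwoTors W e1 e2 e3} {P : (W⁄C).Point} {d2 d3 d2' d3' : C}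
    (H : Kum2 h P d2 d3) (n2 : d2' ≠ 0) (n3 : d3' ≠ 0) (s2 : IsSquare (d2 * d2'))
    (s3 : IsSquare (d3 * d3')) : Kum2 h P d2' d3' := by
  obtain ⟨Q, t2, t3, hQ, k2, k3⟩ := H
  obtain ⟨t2', k2'⟩ := lk_kumS_of_isSquare k2 n2 s2
  obtain ⟨t3', k3'⟩ := lk_kumS_of_isSquare k3 n3 s3
  exact ⟨Q, t2', t3', hQ, k2', k3'⟩

open scoped Classical in
private theorem lk_kum2_zero (h : TwoTors W e1 e2 e3) : Kum2 h (0 : (W⁄C).Point) 1 1 := by
  refine ⟨0, 1, 1, by rw [add_zero, map_zero], ?_, ?_⟩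
  · refine ⟨one_ne_zero, by rw [map_one, one_pow], fun σ _ => map_one σ, fun σ hσ => ?_⟩
    exact absurd (by rw [map_zero, sub_zero]; exact inA_zero _) hσ
  · refine ⟨one_ne_zero, by rw [map_one, one_pow], fun σ _ => map_one σ, fun σ hσ => ?_⟩
    exact absurd (by rw [map_zero, sub_zero]; exact inA_zero _) hσ

open scoped Classical in
theorem exists_kum2_of_sol (h : TwoTors W e1 e2 e3) {d1 d2 d3 : C} (n1 : d1 ≠ 0) (n2 : d2 ≠ 0)
    (n3 : d3 ≠ 0) (hsq : IsSquare (d1 * d2 * d3)) {X w z1 z2 z3 : C} (h0 : w ≠ 0 ∨ X ≠ 0)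
    (E1 : d1 * z1 ^ 2 = X - e1 * w ^ 2) (E2 : d2 * z2 ^ 2 = X - e2 * w ^ 2)
    (E3 : d3 * z3 ^ 2 = X - e3 * w ^ 2) : ∃ P : (W⁄C).Point, Kum2 h P d2 d3 := by
  obtain ⟨t, ht⟩ := hsq
  by_cases hw : w = 0
  · subst hw
    have hX : X ≠ 0 := h0.resolve_left (fun hh => hh rfl)
    rw [zero_pow two_ne_zero, mul_zero, sub_zero] at E1 E2 E3
    have hz2 : z2 ≠ 0 := by
      rintro rfl
      rw [zero_pow two_ne_zero, mul_zero] at E2
      exact hX E2.symm
    have hz3 : z3 ≠ 0 := by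
      rintro rfl
      rw [zero_pow two_ne_zero, mul_zero] at E3
      exact hX E3.symm
    have hXs : X = (t * z1 * z2 * z3 / X) ^ 2 := by
      rw [div_pow, eq_div_iff (pow_ne_zero 2 hX)]
      have : (d1 * z1 ^ 2) * (d2 * z2 ^ 2) * (d3 * z3 ^ 2) = X * X * X := by rw [E1, E2, E3]
      linear_combination -this + (z1 ^ 2 * z2 ^ 2 * z3 ^ 2) * ht
    refine ⟨0, Kum2.of_isSquare (lk_kum2_zero h) n2 n3 ?_ ?_⟩
    · refine ⟨t * z1 * z2 * z3 / X / z2, ?_⟩
      rw [one_mul, div_mul_div_comm, ← sq, ← sq, ← hXs, ← E2]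
      field_simp
    · refine ⟨t * z1 * z2 * z3 / X / z3, ?_⟩
      rw [one_mul, div_mul_div_comm, ← sq, ← sq, ← hXs, ← E3]
      field_simp
  · have hw2 : w ^ 2 ≠ 0 := pow_ne_zero 2 hw
    have q1 : X / w ^ 2 - e1 = d1 * (z1 / w) ^ 2 := by
      rw [div_pow]
      field_simp
      linear_combination -E1
    have q2 : X / w ^ 2 - e2 = d2 * (z2 / w) ^ 2 := by
      rw [div_pow]
      field_simp
      linear_combination -E2
    have q3 : X / w ^ 2 - e3 = d3 * (z3 / w) ^ 2 := by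
      rw [div_pow]
      field_simp
      linear_combination -E3
    set x := X / w ^ 2 with hx
    have hns : (W⁄C).Nonsingular x (t * (z1 / w) * (z2 / w) * (z3 / w)) := by
      apply (h.bc C).nonsingular_of_eq
      show _ = (x - e1) * (x - e2) * (x - e3)
      rw [q1, q2, q3]
      linear_combination (-((z1 / w) ^ 2 * (z2 / w) ^ 2 * (z3 / w) ^ 2)) * ht
    refine ⟨Point.some x _ hns, ?_⟩
    by_cases hz2 : z2 = 0
    · have hxe : x = e2 := by
        rw [hz2, zero_div, zero_pow two_ne_zero, mul_zero] at q2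
        exact sub_eq_zero.1 q2
      obtain ⟨Q, hQ⟩ := exists_half (h.bc (AlgebraicClosure C)) (incl W (Point.some x _ hns))
      have hx1 : x ≠ e1 := by rw [hxe]; exact h.h12.symm
      have hx3 : x ≠ e3 := by rw [hxe]; exact h.h23
      have k3 := kumS_rFun (h := h.rot.rot) hQ hx3
      have k1 := kumS_rFun (h := h) hQ hx1
      have k : Kum2 h (Point.some x _ hns) ((x - e3) * (x - e1)) (x - e3) :=
        ⟨Q, _, _, hQ, KumS.mul_third (h := h.rot.rot) k3 k1 (two_torsion_of_half hQ), k3⟩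
      refine Kum2.of_isSquare k n2 n3 ⟨t * (z1 / w) * (z3 / w), ?_⟩ ⟨d3 * (z3 / w), ?_⟩
      · rw [q1, q3]
        linear_combination ((z1 / w) ^ 2 * (z3 / w) ^ 2) * ht
      · rw [q3]; ring
    by_cases hz3 : z3 = 0
    · have hxe : x = e3 := by
        rw [hz3, zero_div, zero_pow two_ne_zero, mul_zero] at q3
        exact sub_eq_zero.1 q3
      obtain ⟨Q, hQ⟩ := exists_half (h.bc (AlgebraicClosure C)) (incl W (Point.some x _ hns))
      have hx1 : x ≠ e1 := by rw [hxe]; exact h.h31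
      have hx2 : x ≠ e2 := by rw [hxe]; exact h.h23.symm
      have k1 := kumS_rFun (h := h) hQ hx1
      have k2 := kumS_rFun (h := h.rot) hQ hx2
      have k : Kum2 h (Point.some x _ hns) (x - e2) ((x - e1) * (x - e2)) :=
        ⟨Q, _, _, hQ, k2, KumS.mul_third (h := h) k1 k2 (two_torsion_of_half hQ)⟩
      refine Kum2.of_isSquare k n2 n3 ⟨d2 * (z2 / w), ?_⟩ ⟨t * (z1 / w) * (z2 / w), ?_⟩
      · rw [q2]; ring
      · rw [q1, q2]
        linear_combination ((z1 / w) ^ 2 * (z2 / w) ^ 2) * ht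
    · have hx2 : x ≠ e2 := by
        rw [← sub_ne_zero, q2]
        exact mul_ne_zero n2 (pow_ne_zero 2 (div_ne_zero hz2 hw))
      have hx3 : x ≠ e3 := by
        rw [← sub_ne_zero, q3]
        exact mul_ne_zero n3 (pow_ne_zero 2 (div_ne_zero hz3 hw))
      refine Kum2.of_isSquare (kum2_some h hns hx2 hx3) n2 n3 ⟨d2 * (z2 / w), ?_⟩ ⟨d3 * (z3 / w), ?_⟩
      · rw [q2]; ring
      · rw [q3]; ring

open scoped Classical in
theorem Kum2.isSquare_mul {h : TwoTors W e1 e2 e3} {P P' R : (W⁄C).Point} {d2 d3 d2' d3' : C}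
    (H : Kum2 h P d2 d3) (H' : Kum2 h P' d2' d3') (hR : P - P' = R + R) :
    IsSquare (d2 * d2') ∧ IsSquare (d3 * d3') := by
  apply (H.add H').isSquare_of_double (R := R + P')
  have h1 : P = R + R + P' := by rw [← hR]; abel
  rw [h1]
  abel

end Pool.Agent.Work.MP_787500_nt.RS
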