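import Mathlib
import Pool.Agent.Work.MP_787500_nt.H10_Gen
import Pool.Agent.Work.MP_787500_nt.RS.LocKum

/-!
# Module MAINC: the global count with the full local condition at one dyadic place

Follow `main_count` (H10_Gen), with the invariants
`((multPlaces → Prop) × (addPlaces → Prop) × (addPlaces → Prop)) × (E(C) ⧸ 2 E(C))`, where
`C = w.adicCompletion F`, the first part is the first part of `invs e1 e2 e3 w w d2 d3`
(`parity_of_invs` uses only this part; restate it if needed), and the second part of an everywhere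
locally soluble triple is the class of a point `P` over `C` with `Kum2 (h.bc C) P (ι d2) (ι d3)`
given by `exists_kum2_of_sol`. Equal invariants: `P - P' = R + R`, so `ι (d2 d2')` and `ι (d3 d3')`
are squares in `C` (`Kum2.isSquare_mul`), hence locally squares (`locSq_of_completion`,
`LocSq.of_isSquare`), and they have even valuations away from 2; `PropP` gives that they are squares.
The number of invariants is at most `2 ^ condExp * (4 * 2 ^ m)`, so
`2 ^ (rank + 2) ≤ [E(F) : 2 E(F)] ≤ 2 ^ (condExp + m + 2)`; in case of equality all invariants are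
attained and every everywhere locally soluble triple comes from a point, as in `main_count`.
(The local group is `((W⁄C)⁄C).Point`.)
-/

set_option autoImplicit false

namespace Pool.Agent.Work.MP_787500_nt.RS

open WithZero IsDedekindDomain NumberField WeierstrassCurve WeierstrassCurve.Affine

variable {F : Type*} [Field F] [NumberField F]

/-- equal invariants force equal parities at all places not above 2 -/
private theorem parity_of_fst {e1 e2 e3 : F} (h12 : e1 ≠ e2) (h23 : e2 ≠ e3) (h31 : e3 ≠ e1)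
    {w w' : HeightOneSpectrum (𝓞 F)} {d1 d2 d3 d1' d2' d3' : F} (hs : ELS e1 e2 e3 d1 d2 d3)
    (hs' : ELS e1 e2 e3 d1' d2' d3')
    (h : (invs e1 e2 e3 w w' d2 d3).1 = (invs e1 e2 e3 w w' d2' d3').1) {v : HeightOneSpectrum (𝓞 F)}
    (hv : (2 : 𝓞 F) ∉ v.asIdeal) :
    (IsSquare (v.valuation F d2) ↔ IsSquare (v.valuation F d2')) ∧
    (IsSquare (v.valuation F d3) ↔ IsSquare (v.valuation F d3')) := by
  by_cases hadd : v ∈ addPlaces e1 e2 e3
  · have h1 := congrArg (fun x => x.2.1 ⟨v, hadd⟩) h
    have h2 := congrArg (fun x => x.2.2 ⟨v, hadd⟩) h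
    exact ⟨iff_of_eq h1, iff_of_eq h2⟩
  have hsq : IsSquare (diffVal e1 e2 e3 v) := by
    by_contra hcon
    exact hadd ⟨hv, hcon⟩
  by_cases hall : v.valuation F (e1 - e2) = v.valuation F (e2 - e3) ∧
      v.valuation F (e2 - e3) = v.valuation F (e3 - e1)
  · obtain ⟨g1, g2⟩ := hall
    have g3 : diffVal e1 e2 e3 v = v.valuation F (e2 - e3) := by
      rw [diffVal, g1, ← g2, max_self, max_self]
    rw [g3] at hsq
    have e2s : v.valuation F (e2 - e3) = v.valuation F (e2 - e1) := by
      rw [← g1, Valuation.map_sub_swap]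
    have e3s : v.valuation F (e3 - e1) = v.valuation F (e3 - e2) := by
      rw [← g2, Valuation.map_sub_swap]
    have a2 := hs.rot.even h23 e2s hsq
    have a2' := hs'.rot.even h23 e2s hsq
    have a3 := hs.rot.rot.even h31 e3s (by rw [← g2]; exact hsq)
    have a3' := hs'.rot.rot.even h31 e3s (by rw [← g2]; exact hsq)
    exact ⟨iff_of_true a2 a2', iff_of_true a3 a3'⟩
  · have hmult : v ∈ multPlaces e1 e2 e3 := ⟨hv, hsq, hall⟩
    have h1 := iff_of_eq (congrArg (fun x => x.1 ⟨v, hmult⟩) h)
    by_cases hfar : v.valuation F (e2 - e3) = v.valuation F (e2 - e1) ∧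
        v.valuation F (e2 - e3) = diffVal e1 e2 e3 v
    · have a2 := hs.rot.even h23 hfar.1 (by rw [hfar.2]; exact hsq)
      have a2' := hs'.rot.even h23 hfar.1 (by rw [hfar.2]; exact hsq)
      exact ⟨iff_of_true a2 a2', (sel_iff h1).1 hfar⟩
    · have hb : IsSquare (v.valuation F d2) ↔ IsSquare (v.valuation F d2') := (sel_iff h1).2 hfar
      refine ⟨hb, ?_⟩
      rcases far_cases e1 e2 e3 v with hf | hf | hf
      · have a1 := hs.even h12 hf.1 (by rw [hf.2]; exact hsq)
        have a1' := hs'.even h12 hf.1 (by rw [hf.2]; exact hsq)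
        rw [← hs.even_iff a1, ← hs'.even_iff a1']
        exact hb
      · exact absurd hf hfar
      · have a3 := hs.rot.rot.even h31 hf.1 (by rw [hf.2]; exact hsq)
        have a3' := hs'.rot.rot.even h31 hf.1 (by rw [hf.2]; exact hsq)
        exact iff_of_true a3 a3'


omit [NumberField F] in
private theorem card_fst {S T : Set (HeightOneSpectrum (𝓞 F))} (hS : S.Finite) (hT : T.Finite) :
    Nat.card ((S → Prop) × (T → Prop) × (T → Prop)) = 2 ^ (S.ncard + 2 * T.ncard) := by
  have : Finite S := hS.to_subtype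
  have : Finite T := hT.to_subtype
  have h : Nat.card Prop = 2 := by
    rw [Nat.card_eq_fintype_card]; rfl
  rw [Nat.card_prod, Nat.card_prod, Nat.card_fun, Nat.card_fun, h,
    Nat.card_coe_set_eq, Nat.card_coe_set_eq]
  ring

open scoped Classical in
private theorem key_local (hF : PropP F) {W : WeierstrassCurve.Affine F}
    {e1 e2 e3 : F} (h : TwoTors W e1 e2 e3)
    {w : HeightOneSpectrum (𝓞 F)} (hw : (2 : 𝓞 F) ∈ w.asIdeal)
    [CharZero (w.adicCompletion F)]
    {P P' : ((W⁄(w.adicCompletion F))⁄(w.adicCompletion F)).Point}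
    {d1 d2 d3 d1' d2' d3' : F} (hs : ELS e1 e2 e3 d1 d2 d3) (hs' : ELS e1 e2 e3 d1' d2' d3')
    (hP : Kum2 (h.bc (w.adicCompletion F)) P (algebraMap F (w.adicCompletion F) d2)
      (algebraMap F (w.adicCompletion F) d3))
    (hP' : Kum2 (h.bc (w.adicCompletion F)) P' (algebraMap F (w.adicCompletion F) d2')
      (algebraMap F (w.adicCompletion F) d3'))
    (h1 : (invs e1 e2 e3 w w d2 d3).1 = (invs e1 e2 e3 w w d2' d3').1)
    (h2 : (QuotientAddGroup.mk P :
      ((W⁄(w.adicCompletion F))⁄(w.adicCompletion F)).Point ⧸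
        (dbl ((W⁄(w.adicCompletion F))⁄(w.adicCompletion F)).Point).range) =
      QuotientAddGroup.mk P') :
    IsSquare (d2 * d2') ∧ IsSquare (d3 * d3') := by
  rw [QuotientAddGroup.eq] at h2
  obtain ⟨R, hR⟩ := h2
  rw [nsmulAddMonoidHom_apply, two_nsmul] at hR
  have hR' : P - P' = -R + -R := by
    have : P - P' = -(-P + P') := by abel
    rw [this, ← hR]; abel
  obtain ⟨s2, s3⟩ := Kum2.isSquare_mul hP hP' hR'
  have hp := fun (v : HeightOneSpectrum (𝓞 F)) (hv : (2 : 𝓞 F) ∉ v.asIdeal) =>
    parity_of_fst h.h12 h.h23 h.h31 hs hs' h1 hv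
  have val_ne : ∀ (v : HeightOneSpectrum (𝓞 F)) {d : F}, d ≠ 0 → v.valuation F d ≠ 0 :=
    fun v d hd => ((v.valuation F).ne_zero_iff).2 hd
  rw [← map_mul] at s2 s3
  constructor
  · refine hF w hw _ (mul_ne_zero hs.h2 hs'.h2) ?_ (locSq_of_completion w (LocSq.of_isSquare s2))
    intro v hv
    rw [map_mul]
    exact isSquare_mul_of_iff (val_ne v hs.h2) (val_ne v hs'.h2) (hp v hv).1
  · refine hF w hw _ (mul_ne_zero hs.h3 hs'.h3) ?_ (locSq_of_completion w (LocSq.of_isSquare s3))
    intro v hv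
    rw [map_mul]
    exact isSquare_mul_of_iff (val_ne v hs.h3) (val_ne v hs'.h3) (hp v hv).2

open scoped Classical in
theorem main_count' (hF : PropP F) {W : WeierstrassCurve.Affine F}
    [WeierstrassCurve.IsElliptic W] {e1 e2 e3 : F} (h : TwoTors W e1 e2 e3)
    {w : HeightOneSpectrum (𝓞 F)} (hw : (2 : 𝓞 F) ∈ w.asIdeal) {m : ℕ}
    (h0 : (dbl ((W⁄(w.adicCompletion F))⁄(w.adicCompletion F)).Point).range.index ≠ 0)
    (hm : (dbl ((W⁄(w.adicCompletion F))⁄(w.adicCompletion F)).Point).range.index ≤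
      4 * 2 ^ m) :
    AddGroup.FG W.Point ∧ Module.finrank ℤ W.Point ≤ m + condExp e1 e2 e3 ∧
    (Module.finrank ℤ W.Point = m + condExp e1 e2 e3 →
      ∀ d1 d2 d3 : F, ELS e1 e2 e3 d1 d2 d3 → HomSol e1 e2 e3 d1 d2 d3 F) := by
  have hchar : CharZero (w.adicCompletion F) :=
    charZero_of_injective_algebraMap (algebraMap F (w.adicCompletion F)).injective
  have fST := places_finite h.h12 h.h23 h.h31
  have fS : (multPlaces e1 e2 e3).Finite := fST.subset Set.subset_union_left
  have fT : (addPlaces e1 e2 e3).Finite := fST.subset Set.subset_union_right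
  have hS : Finite (multPlaces e1 e2 e3) := fS.to_subtype
  have hT : Finite (addPlaces e1 e2 e3) := fT.to_subtype
  -- local points
  have hloc : ∀ d : F × F × F, ∃ P : ((W⁄(w.adicCompletion F))⁄(w.adicCompletion F)).Point,
      ELS e1 e2 e3 d.1 d.2.1 d.2.2 →
      Kum2 (h.bc (w.adicCompletion F)) P (algebraMap F (w.adicCompletion F) d.2.1)
        (algebraMap F (w.adicCompletion F) d.2.2) := by
    intro d
    by_cases hd : ELS e1 e2 e3 d.1 d.2.1 d.2.2
    · obtain ⟨X, w', z1, z2, z3, hne, E1, E2, E3⟩ := hd.loc w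
      have hsq : IsSquare (algebraMap F (w.adicCompletion F) d.1 *
          algebraMap F (w.adicCompletion F) d.2.1 * algebraMap F (w.adicCompletion F) d.2.2) := by
        obtain ⟨q, hq⟩ := hd.sq
        exact ⟨algebraMap F (w.adicCompletion F) q, by rw [← map_mul, ← map_mul, hq, map_mul]⟩
      obtain ⟨P, hP⟩ := exists_kum2_of_sol (h.bc (w.adicCompletion F))
        ((map_ne_zero _).2 hd.h1) ((map_ne_zero _).2 hd.h2) ((map_ne_zero _).2 hd.h3) hsq
        hne E1 E2 E3
      exact ⟨P, fun _ => hP⟩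
    · exact ⟨0, fun hh => absurd hh hd⟩
  choose π hπ using hloc
  let I : Type _ := ((multPlaces e1 e2 e3 → Prop) × (addPlaces e1 e2 e3 → Prop) ×
    (addPlaces e1 e2 e3 → Prop)) × (((W⁄(w.adicCompletion F))⁄(w.adicCompletion F)).Point ⧸
        (dbl ((W⁄(w.adicCompletion F))⁄(w.adicCompletion F)).Point).range)
  have hfinloc : Finite (((W⁄(w.adicCompletion F))⁄(w.adicCompletion F)).Point ⧸
      (dbl ((W⁄(w.adicCompletion F))⁄(w.adicCompletion F)).Point).range) := by
    rw [AddSubgroup.index_eq_card] at h0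
    exact Nat.finite_of_card_ne_zero h0
  have hfinI : Finite I := by
    show Finite (_ × _)
    infer_instance
  let J : F × F × F → I := fun d => ((invs e1 e2 e3 w w d.2.1 d.2.2).1, QuotientAddGroup.mk (π d))
  have key : ∀ {d d' : F × F × F}, ELS e1 e2 e3 d.1 d.2.1 d.2.2 →
      ELS e1 e2 e3 d'.1 d'.2.1 d'.2.2 → J d = J d' →
      IsSquare (d.2.1 * d'.2.1) ∧ IsSquare (d.2.2 * d'.2.2) := by
    intro d d' hs hs' hJ
    have a1 := congrArg Prod.fst hJ
    have a2 := congrArg Prod.snd hJ
    exact key_local hF h hw hs hs' (hπ d hs) (hπ d' hs') a1 a2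
  -- Kummer classes
  have hk : ∀ P : W.Point, ∃ d : F × F × F, ELS e1 e2 e3 d.1 d.2.1 d.2.2 ∧
      HomSol e1 e2 e3 d.1 d.2.1 d.2.2 F ∧
      KumRel h (show (W⁄F).Point from P) d.1 d.2.1 d.2.2 := by
    intro P
    obtain ⟨d1, d2, d3, n1, n2, n3, hsq, hsol, hrel⟩ := exists_kumRel h (show (W⁄F).Point from P)
    exact ⟨(d1, d2, d3), ⟨n1, n2, n3, hsq, fun v => hsol.map _⟩, hsol, hrel⟩
  choose κ hκ1 hκ2 hκ3 using hk
  let f : W.Point ⧸ (dbl W.Point).range → I := fun q => J (κ q.out)
  have hf : Function.Injective f := by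
    intro q q' hq
    have h1 := key (hκ1 q.out) (hκ1 q'.out) hq
    obtain ⟨R, hR⟩ := exists_double_of_kumRel h (hκ3 q.out) (hκ3 q'.out) h1.1 h1.2
    have hR' : q.out - q'.out = (show W.Point from R) + (show W.Point from R) := hR
    rw [← q.out_eq', ← q'.out_eq', QuotientAddGroup.eq]
    refine ⟨-(show W.Point from R), ?_⟩
    rw [nsmulAddMonoidHom_apply, two_nsmul]
    calc -(show W.Point from R) + -(show W.Point from R)
        = -((show W.Point from R) + (show W.Point from R)) := by abel
      _ = -(q.out - q'.out) := by rw [hR']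
      _ = -q.out + q'.out := by abel
  have hfinQ : Finite (W.Point ⧸ (dbl W.Point).range) := Finite.of_injective f hf
  have hidx : (dbl W.Point).range.FiniteIndex := AddSubgroup.finiteIndex_of_finite_quotient
  have hFG : AddGroup.FG W.Point := fg_of_finiteIndex (by rw [h.a1]) (by rw [h.a3]) hidx
  have hcardI : Nat.card I ≤ 2 ^ (m + condExp e1 e2 e3 + 2) := by
    have e : Nat.card I = 2 ^ condExp e1 e2 e3 *
        (dbl ((W⁄(w.adicCompletion F))⁄(w.adicCompletion F)).Point).range.index := by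
      rw [AddSubgroup.index_eq_card, condExp, ← card_fst fS fT]
      exact Nat.card_prod _ _
    rw [e]
    refine (Nat.mul_le_mul le_rfl hm).trans (le_of_eq ?_)
    rw [pow_add, pow_add]; ring
  have hle' : (dbl W.Point).range.index ≤ Nat.card I := by
    rw [AddSubgroup.index_eq_card]
    exact Nat.card_le_card_of_injective f hf
  have hle : (dbl W.Point).range.index ≤ 2 ^ (m + condExp e1 e2 e3 + 2) := hle'.trans hcardI
  have hker : Finite (dbl W.Point).ker := by
    have h5 := index_dbl_eq W.Point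
    have h6 : (dbl W.Point).range.index ≠ 0 := hidx.index_ne_zero
    have h7 : Nat.card (dbl W.Point).ker ≠ 0 := by
      intro h8
      rw [h8, mul_zero] at h5
      exact h6 h5
    exact Nat.finite_of_card_ne_zero h7
  have h4 : 4 ≤ Nat.card (dbl W.Point).ker := card_ker_dbl_ge h
  have hge : 2 ^ (Module.finrank ℤ W.Point + 2) ≤ (dbl W.Point).range.index := by
    rw [index_dbl_eq, pow_add]
    exact Nat.mul_le_mul le_rfl h4
  refine ⟨hFG, ?_, ?_⟩
  · have h9 := (Nat.pow_le_pow_iff_right (by norm_num : 1 < 2)).1 (hge.trans hle)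
    omega
  · intro hrk d1 d2 d3 hs
    have hcard : Nat.card (W.Point ⧸ (dbl W.Point).range) = Nat.card I := by
      apply le_antisymm
      · rw [← AddSubgroup.index_eq_card]; exact hle'
      · rw [← AddSubgroup.index_eq_card]
        refine hcardI.trans ?_
        rw [← hrk]; exact hge
    have hbij : Function.Bijective f := (Nat.bijective_iff_injective_and_card f).2 ⟨hf, hcard⟩
    obtain ⟨q, hq⟩ := hbij.2 (J (d1, d2, d3))
    obtain ⟨s2, s3⟩ := key (d := κ q.out) (d' := (d1, d2, d3)) (hκ1 q.out) hs hq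
    have s1 : IsSquare ((κ q.out).1 * d1) := by
      obtain ⟨a, ha⟩ := (hκ1 q.out).sq
      obtain ⟨b, hb⟩ := hs.sq
      obtain ⟨c, hc⟩ := s2
      obtain ⟨e, he⟩ := s3
      have n2 := (hκ1 q.out).h2
      have n3 := (hκ1 q.out).h3
      have hc0 : c ≠ 0 := by
        rintro rfl
        exact mul_ne_zero n2 hs.h2 (by rw [hc]; ring)
      have he0 : e ≠ 0 := by
        rintro rfl
        exact mul_ne_zero n3 hs.h3 (by rw [he]; ring)
      refine ⟨a * b / (c * e), ?_⟩
      simp only at hc he
      field_simp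
      linear_combination (d1 * d2 * d3) * ha + (a * a) * hb - ((κ q.out).1 * d1 * (e * e)) * hc -
        ((κ q.out).1 * d1 * ((κ q.out).2.1 * d2)) * he
    exact (hκ2 q.out).of_isSquare hs.h1 hs.h2 hs.h3 s1 s2 s3

end Pool.Agent.Work.MP_787500_nt.RS
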