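import Mathlib
import Pool.Agent.Work.MP_787500_nt.H10_Main
import Pool.Agent.Work.MP_787500_nt.RS.LocCount
import Pool.Agent.Work.MP_787500_nt.RS.Dyad
import Pool.Agent.Work.MP_787500_nt.RS.MainC

/-!
# Module BOUND: the general bound

Assembly, as `general` in H10_Final: `general_tower` gives `PropP F`, `exists_dyadic_small` the
place, `index_local` (for the curve `((legendre ..)⁄C)⁄C`, with `TwoTors.bc` twice) the local index,
`main_count'` the count, `cobdry_of_two_pow` and `kummer_data` the Tate-Shafarevich group.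
-/

set_option autoImplicit false

namespace Pool.Agent.Work.MP_787500_nt.RS

open WithZero IsDedekindDomain NumberField WeierstrassCurve WeierstrassCurve.Affine

universe u

variable {K F : Type u} [Field K] [NumberField K] [Field F] [NumberField F] [Algebra K F]

theorem bound {q : ℕ} {s : K} (hb : IsBase K q s) (hF : InTwoTower K F) {e1 e2 e3 : F}
    (h12 : e1 ≠ e2) (h23 : e2 ≠ e3) (h31 : e3 ≠ e1) :
    (multPlaces e1 e2 e3 ∪ addPlaces e1 e2 e3).Finite ∧
      RankShaBound (legendre e1 e2 e3) (Module.finrank K F + condExp e1 e2 e3) := by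
  classical
  obtain ⟨hK, hs, hq, hq16⟩ := hb
  refine ⟨places_finite h12 h23 h31, ?_⟩
  have hP : PropP F := general_tower hK hs hq hq16 hF
  obtain ⟨w, hw, hcard⟩ := exists_dyadic_small (F := F) hK hs hq hq16
  have h := legendre_twoTors h12 h23 h31
  have := legendre_elliptic h12 h23 h31
  obtain ⟨i1, i2⟩ := index_local w hw ((h.bc (w.adicCompletion F)).bc (w.adicCompletion F))
  obtain ⟨hFG, hrk, hsol⟩ := main_count' hP h hw i1 (i2.trans (Nat.mul_le_mul le_rfl hcard))
  refine ⟨?_, ?_, fun heq c hc hloc ⟨k, hk⟩ => ?_⟩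
  · convert hFG
  · convert hrk
  · refine cobdry_of_two_pow (W := legendre e1 e2 e3)
      (fun c => ∀ v : HeightOneSpectrum (𝓞 F), LocTriv (legendre e1 e2 e3) (v.adicCompletion F) c)
      (fun c n hc v => (hc v).nsmul n) ?_ k c hc hloc hk
    intro c hc hloc h2
    obtain ⟨d1, d2, d3, n1, n2, n3, hsq, hl, hg⟩ := kummer_data h hc h2
    exact hg (hsol (by convert heq) d1 d2 d3 ⟨n1, n2, n3, hsq, fun v => hl _ (hloc v)⟩)

end Pool.Agent.Work.MP_787500_nt.RS
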