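import Mathlib
import Pool.Agent.Work.MP_787500_nt.H9_Alg
import Pool.Agent.Work.MP_787500_nt.RS.Defs

/-!
# Module ISOM: the map `(x, y) ↦ (u^2 x + r, u^3 y)` is a homomorphism

`W : y^2 = (x-e1)(x-e2)(x-e3)`, `W' : y^2 = (x-f1)(x-f2)(x-f3)`, `f_i = u^2 e_i + r`. Slopes are
multiplied by `u`. Cases: a point is zero; `x1 = x2`, `y1 = -y2`; `x1 = x2`, `y1 = y2 ≠ 0`
(tangents, `slope_of_Y_ne`); `x1 ≠ x2` (`slope_of_X_ne`). (`Point.add_some`, `addX`, `addY`, as in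
`add_self_some`, `some_add_tor` of H9_Alg.)
-/

set_option autoImplicit false

namespace Pool.Agent.Work.MP_787500_nt.RS

open WeierstrassCurve WeierstrassCurve.Affine

variable {L : Type*} [Field L] [CharZero L] [DecidableEq L]
variable {W W' : WeierstrassCurve.Affine L} {e1 e2 e3 f1 f2 f3 u r : L}

omit [DecidableEq L] in
private theorem isom_ns (h : TwoTors W e1 e2 e3) (h' : TwoTors W' f1 f2 f3)
    (h1 : f1 = u ^ 2 * e1 + r) (h2 : f2 = u ^ 2 * e2 + r) (h3 : f3 = u ^ 2 * e3 + r) {x y : L}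
    (hn : W.Nonsingular x y) : W'.Nonsingular (u ^ 2 * x + r) (u ^ 3 * y) := by
  have heq := h.eq_of_nonsingular hn
  apply h'.nonsingular_of_eq
  rw [h1, h2, h3]
  linear_combination u ^ 6 * heq

private theorem isom_slope (h : TwoTors W e1 e2 e3) (h' : TwoTors W' f1 f2 f3) (hu : u ≠ 0)
    (h1 : f1 = u ^ 2 * e1 + r) (h2 : f2 = u ^ 2 * e2 + r) (h3 : f3 = u ^ 2 * e3 + r)
    {x1 y1 x2 y2 : L} (n1 : W.Nonsingular x1 y1) (n2 : W.Nonsingular x2 y2)
    (hxy : ¬(x1 = x2 ∧ y1 = W.negY x2 y2)) :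
    W'.slope (u ^ 2 * x1 + r) (u ^ 2 * x2 + r) (u ^ 3 * y1) (u ^ 3 * y2) =
      u * W.slope x1 x2 y1 y2 := by
  have q1 := h.eq_of_nonsingular n1
  have q2 := h.eq_of_nonsingular n2
  by_cases hx : x1 = x2
  · subst hx
    have hyn : y1 ≠ W.negY x1 y2 := fun hh => hxy ⟨rfl, hh⟩
    rw [h.negY_eq] at hyn
    have hyy : y1 = y2 := by
      have : y1 = y2 ∨ y1 = -y2 := by
        apply sq_eq_sq_iff_eq_or_eq_neg.1
        rw [q1, q2]
      exact this.resolve_right hyn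
    subst hyy
    have hy : y1 ≠ 0 := by
      intro h0
      apply hyn
      rw [h0, neg_zero]
    have h2y : (2 : L) * y1 ≠ 0 := mul_ne_zero two_ne_zero hy
    have hyn1 : y1 ≠ W.negY x1 y1 := by rw [h.negY_eq]; exact hyn
    have hyn2 : u ^ 3 * y1 ≠ W'.negY (u ^ 2 * x1 + r) (u ^ 3 * y1) := by
      rw [h'.negY_eq]
      intro hh
      have h5 : u ^ 3 * (2 * y1) = 0 := by linear_combination hh
      exact (mul_ne_zero (pow_ne_zero 3 hu) h2y) h5
    rw [slope_of_Y_ne rfl hyn2, slope_of_Y_ne rfl hyn1, h'.negY_eq, h.negY_eq, h'.a1, h'.a2, h'.a4,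
      h.a1, h.a2, h.a4, h1, h2, h3]
    have e1' : y1 - -y1 = 2 * y1 := by ring
    have e2' : u ^ 3 * y1 - -(u ^ 3 * y1) = u ^ 3 * (2 * y1) := by ring
    rw [e1', e2']
    field_simp
    ring
  · have hx' : u ^ 2 * x1 + r ≠ u ^ 2 * x2 + r := by
      intro hh
      apply hx
      have h5 : u ^ 2 * (x1 - x2) = 0 := by linear_combination hh
      exact sub_eq_zero.1 ((mul_eq_zero.1 h5).resolve_left (pow_ne_zero 2 hu))
    have hx0 : x1 - x2 ≠ 0 := sub_ne_zero.2 hx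
    rw [slope_of_X_ne hx', slope_of_X_ne hx]
    have e1' : u ^ 2 * x1 + r - (u ^ 2 * x2 + r) = u ^ 2 * (x1 - x2) := by ring
    rw [e1']
    field_simp

theorem exists_isom (h : TwoTors W e1 e2 e3) (h' : TwoTors W' f1 f2 f3) (hu : u ≠ 0)
    (h1 : f1 = u ^ 2 * e1 + r) (h2 : f2 = u ^ 2 * e2 + r) (h3 : f3 = u ^ 2 * e3 + r) :
    ∃ φ : W.Point →+ W'.Point, ∀ (x y : L) (hn : W.Nonsingular x y),
      ∃ hn' : W'.Nonsingular (u ^ 2 * x + r) (u ^ 3 * y),
        φ (Point.some x y hn) = Point.some _ _ hn' := by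
  let f : W.Point → W'.Point := fun P => match P with
    | .zero => .zero
    | .some x y hn => .some (u ^ 2 * x + r) (u ^ 3 * y) (isom_ns h h' h1 h2 h3 hn)
  have f0 : f 0 = 0 := rfl
  have fs : ∀ (x y : L) (hn : W.Nonsingular x y), f (Point.some x y hn) =
      Point.some (u ^ 2 * x + r) (u ^ 3 * y) (isom_ns h h' h1 h2 h3 hn) := fun _ _ _ => rfl
  refine ⟨⟨⟨f, f0⟩, ?_⟩, fun x y hn => ⟨isom_ns h h' h1 h2 h3 hn, rfl⟩⟩
  intro P Q
  show f (P + Q) = f P + f Q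
  rcases P with _ | ⟨x1, y1, n1⟩
  · rw [← Point.zero_def, zero_add, f0, zero_add]
  rcases Q with _ | ⟨x2, y2, n2⟩
  · rw [← Point.zero_def, add_zero, f0, add_zero]
  by_cases hxy : x1 = x2 ∧ y1 = W.negY x2 y2
  · obtain ⟨hx, hy⟩ := hxy
    rw [Point.add_of_Y_eq hx hy, f0, fs x1 y1 n1, fs x2 y2 n2]
    symm
    apply Point.add_of_Y_eq
    · rw [hx]
    · rw [h'.negY_eq, hy, h.negY_eq]; ring
  · have hxy' : ¬(u ^ 2 * x1 + r = u ^ 2 * x2 + r ∧
        u ^ 3 * y1 = W'.negY (u ^ 2 * x2 + r) (u ^ 3 * y2)) := by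
      rintro ⟨hh1, hh2⟩
      apply hxy
      constructor
      · have h5 : u ^ 2 * (x1 - x2) = 0 := by linear_combination hh1
        exact sub_eq_zero.1 ((mul_eq_zero.1 h5).resolve_left (pow_ne_zero 2 hu))
      · rw [h'.negY_eq] at hh2
        rw [h.negY_eq]
        have h5 : u ^ 3 * (y1 + y2) = 0 := by linear_combination hh2
        have h6 := (mul_eq_zero.1 h5).resolve_left (pow_ne_zero 3 hu)
        linear_combination h6
    have hs := isom_slope h h' hu h1 h2 h3 n1 n2 hxy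
    rw [Point.add_some hxy, fs x1 y1 n1, fs x2 y2 n2, fs _ _ (nonsingular_add n1 n2 hxy),
      Point.add_some hxy']
    simp only [Point.some.injEq]
    rw [addX, addX, addY, addY, negAddY, negAddY, addX, addX, hs, h.negY_eq, h'.negY_eq, h.a1,
      h.a2, h'.a1, h'.a2, h1, h2, h3]
    constructor <;> ring

end Pool.Agent.Work.MP_787500_nt.RS
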