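import Mathlib

/-!
# Module RANKALG: pure algebra for the lower bound of the rank

`A` a finitely generated abelian group with commuting endomorphisms: `g` with `g^(2^n) = -1`, `J` with
`J^2 = -1`, `c` injective, `g` commutes with `J` and `c`, `J c = - c J`, and `A` contains an element `P`
of infinite order. Then the rank is at least `2 * 2^n`.
Proof: `V = ℚ ⊗ A` (or any description) is a nonzero finite dimensional `ℚ`-space; `ℚ[X]` acts through
`g`, and `X^(2^n) + 1` acts as 0; it is the cyclotomic polynomial `Φ_(2^(n+1))`, irreducible over `ℚ`, so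
`V` is a vector space over the field `E = ℚ[X]/(X^(2^n) + 1)` of degree `2^n`; `J` and `c` are
`E`-linear and bijective (`c` is injective on a finite dimensional space). If `dim_E V = 1` they are
scalars and commute, `J c = c J = -J c`, so `J c = 0`, a contradiction. So `dim_E V ≥ 2` and
`dim_ℚ V = 2^n * dim_E V ≥ 2 * 2^n`; `finrank_ℤ A = dim_ℚ V`.
(Alternative without base change: the ring `ℤ[X]/(X^(2^n)+1)` is a domain, free of rank `2^n` over `ℤ`;
`A` modulo torsion is a torsion free module over it; if it had rank 1, etc.)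
-/

set_option autoImplicit false

namespace Pool.Agent.Work.MP_787500_nt.RS

open Polynomial

private theorem cyc_eq (n : ℕ) : cyclotomic (2 ^ (n + 1)) ℚ = (X ^ (2 ^ n) + 1 : ℚ[X]) := by
  rw [cyclotomic_prime_pow_eq_geom_sum Nat.prime_two]
  simp [Finset.sum_range_succ]
  ring

private theorem cyc_irr (n : ℕ) : Irreducible (X ^ (2 ^ n) + 1 : ℚ[X]) := by
  rw [← cyc_eq n]
  exact cyclotomic.irreducible_rat (n := 2 ^ (n + 1)) (by positivity)

/-- linear algebra over `ℚ` -/
private theorem lin_ge {V : Type*} [AddCommGroup V] [Module ℚ V] [Module.Finite ℚ V] [Nontrivial V]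
    (n : ℕ) (g J c : Module.End ℚ V)
    (hg : g ^ (2 ^ n) = -1) (hgJ : Commute g J) (hgc : Commute g c)
    (hJc : J * c = -(c * J)) (hJ : J * J = -1) (hc : Function.Injective c) :
    2 * 2 ^ n ≤ Module.finrank ℚ V := by
  have hirr := cyc_irr n
  have : Fact (Irreducible (X ^ (2 ^ n) + 1 : ℚ[X])) := ⟨hirr⟩
  set p : ℚ[X] := X ^ (2 ^ n) + 1 with hp
  have hp0 : aeval g p = 0 := by
    rw [hp, map_add, map_pow, aeval_X, map_one, hg]
    simp
  let φ : AdjoinRoot p →ₐ[ℚ] Module.End ℚ V := Ideal.Quotient.liftₐ (Ideal.span {p}) (aeval g) (by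
    intro a ha
    obtain ⟨b, rfl⟩ := Ideal.mem_span_singleton'.1 ha
    rw [map_mul, hp0, mul_zero])
  have hφ : ∀ q : ℚ[X], φ (AdjoinRoot.mk p q) = aeval g q := fun q => rfl
  let : Module (AdjoinRoot p) V := Module.compHom V φ.toRingHom
  have hsmul : ∀ (e : AdjoinRoot p) (v : V), e • v = φ e v := fun _ _ => rfl
  have : IsScalarTower ℚ (AdjoinRoot p) V := ⟨fun r e v => by
    rw [hsmul, hsmul, map_smul]; rfl⟩
  have hcom : ∀ f : Module.End ℚ V, Commute g f → ∀ (e : AdjoinRoot p) (v : V),
      f (e • v) = e • f v := by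
    intro f hf e v
    induction e using AdjoinRoot.induction_on with
    | ih q =>
      rw [hsmul, hsmul, hφ]
      have h1 : Commute (aeval g q) f := by
        induction q using Polynomial.induction_on' with
        | add q r hq hr => rw [map_add]; exact hq.add_left hr
        | monomial k a =>
          rw [aeval_monomial]
          exact (Algebra.commute_algebraMap_left a f).mul_left (hf.pow_left k)
      exact (LinearMap.congr_fun h1.eq v).symm
  have hdeg : Module.finrank ℚ (AdjoinRoot p) = 2 ^ n := by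
    have h1 : p ≠ 0 := hirr.ne_zero
    rw [(AdjoinRoot.powerBasis h1).finrank, AdjoinRoot.powerBasis_dim]
    rw [hp]
    compute_degree!
  have hmul := Module.finrank_mul_finrank ℚ (AdjoinRoot p) V
  have : Module.Finite (AdjoinRoot p) V := Module.Finite.of_restrictScalars_finite ℚ _ _
  have h2 : 2 ≤ Module.finrank (AdjoinRoot p) V := by
    by_contra hlt
    have h3 : Module.finrank (AdjoinRoot p) V ≤ 1 := by omega
    obtain ⟨v, hv⟩ := finrank_le_one_iff.1 h3
    have hJJ : ∀ x, J (J x) = -x := fun x => LinearMap.congr_fun hJ x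
    have hJC : ∀ x, J (c x) = -c (J x) := fun x => LinearMap.congr_fun hJc x
    obtain ⟨x0, hx0⟩ := exists_ne (0 : V)
    obtain ⟨a, ha⟩ := hv (J v)
    obtain ⟨b, hb⟩ := hv (c v)
    have h4 : ∀ x, J (c x) = c (J x) := by
      intro x
      obtain ⟨t, rfl⟩ := hv x
      rw [hcom c hgc, hcom J hgJ, ← hb, hcom J hgJ, hcom J hgJ, hcom c hgc, ← ha, hcom c hgc, ← hb]
      rw [smul_smul, smul_smul, smul_smul, smul_smul]
      congr 1
      ring
    have h5 : ∀ x, J x = 0 := by
      intro x
      apply hc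
      rw [map_zero]
      have h6 := h4 x
      rw [hJC] at h6
      have h8 : (2 : ℚ) • c (J x) = 0 := by
        rw [two_smul]
        nth_rw 1 [← h6]
        exact neg_add_cancel _
      exact (smul_eq_zero.1 h8).resolve_left two_ne_zero
    have h7 := hJJ x0
    rw [h5] at h7
    exact hx0 (neg_eq_zero.1 h7.symm)
  rw [← hmul, hdeg]
  nlinarith [show 0 < 2 ^ n from by positivity]

theorem finrank_ge {A : Type*} [AddCommGroup A] [Module.Finite ℤ A] (n : ℕ) (g J c : A →+ A)
    (hg : ∀ x, (g^[2 ^ n]) x = -x) (hgJ : ∀ x, g (J x) = J (g x)) (hgc : ∀ x, g (c x) = c (g x))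
    (hJc : ∀ x, J (c x) = -c (J x)) (hJ : ∀ x, J (J x) = -x) (hc : Function.Injective c) (P : A)
    (hP : ∀ m : ℕ, m ≠ 0 → m • P ≠ 0) : 2 * 2 ^ n ≤ Module.finrank ℤ A := by
  let f : A →ₗ[ℤ] TensorProduct ℤ ℚ A := TensorProduct.mk ℤ ℚ A 1
  have hb : IsBaseChange ℚ f := TensorProduct.isBaseChange ℤ A ℚ
  rw [← hb.finrank_eq]
  let Φ := Module.End.baseChangeHom ℤ ℚ A
  have hΦ : ∀ (h : A →+ A), Φ h.toIntLinearMap = (h.toIntLinearMap).baseChange ℚ := fun _ => rfl
  have hP0 : (1 : ℚ) ⊗ₜ[ℤ] P ≠ 0 := by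
    let e : ℤ →ₗ[ℤ] A := LinearMap.toSpanSingleton ℤ A P
    have he : Function.Injective e := by
      rw [injective_iff_map_eq_zero]
      intro m hm
      by_contra hm0
      have h1 : m • P = 0 := hm
      apply hP m.natAbs (Int.natAbs_ne_zero.2 hm0)
      rcases Int.natAbs_eq m with h | h
      · rw [h] at h1
        rw [← natCast_zsmul]
        exact h1
      · rw [h, neg_smul] at h1
        rw [← natCast_zsmul]
        exact neg_eq_zero.1 h1
    have h2 := Module.Flat.lTensor_preserves_injective_linearMap (M := ℚ) e he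
    intro h3
    have h4 : e.lTensor ℚ ((1 : ℚ) ⊗ₜ[ℤ] (1 : ℤ)) = 0 := by
      rw [LinearMap.lTensor_tmul]
      have : e 1 = P := by simp [e]
      rw [this, h3]
    have h5 := h2 (h4.trans (map_zero _).symm)
    have h6 := congrArg (TensorProduct.rid ℤ ℚ) h5
    simp at h6
  have : Nontrivial (TensorProduct ℤ ℚ A) := ⟨_, _, hP0⟩
  refine lin_ge n (Φ g.toIntLinearMap) (Φ J.toIntLinearMap) (Φ c.toIntLinearMap) ?_ ?_ ?_ ?_ ?_ ?_
  · rw [← map_pow, ← map_one Φ, ← map_neg]
    congr 1
    ext x
    rw [Module.End.pow_apply]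
    exact hg x
  · apply Commute.map (f := Φ)
    ext x
    exact hgJ x
  · apply Commute.map (f := Φ)
    ext x
    exact hgc x
  · rw [← map_mul, ← map_mul, ← map_neg]
    congr 1
    ext x
    exact hJc x
  · rw [← map_mul, ← map_one Φ, ← map_neg]
    congr 1
    ext x
    exact hJ x
  · exact Module.Flat.lTensor_preserves_injective_linearMap (M := ℚ) c.toIntLinearMap hc

end Pool.Agent.Work.MP_787500_nt.RS
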