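import Mathlib

/-!
# Module RANKSPLIT: the rank is at least the sum of the ranks of almost disjoint subgroups

Two subgroups whose intersection is killed by 2: the sum of the ranks is at most the rank: the map
`B × B' → A`, `(x, y) ↦ x + y` has kernel isomorphic to the intersection, which is torsion. (Or with
`Submodule` ranks: `finrank (B ⊔ B') + finrank (B ⊓ B') = finrank B + finrank B'`, rank of a torsion
group is 0.)
-/

set_option autoImplicit false

namespace Pool.Agent.Work.MP_787500_nt.RS

theorem finrank_add_le {A : Type*} [AddCommGroup A] [Module.Finite ℤ A] (B B' : AddSubgroup A)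
    (h : ∀ x ∈ B, x ∈ B' → x + x = 0) :
    Module.finrank ℤ B + Module.finrank ℤ B' ≤ Module.finrank ℤ A := by
  let s : Submodule ℤ A := AddSubgroup.toIntSubmodule B
  let t : Submodule ℤ A := AddSubgroup.toIntSubmodule B'
  have h1 := Submodule.rank_sup_add_rank_inf_eq s t
  have h2 : Module.rank ℤ (s ⊓ t : Submodule ℤ A) = 0 := by
    rw [rank_eq_zero_iff]
    rintro ⟨x, hx⟩
    refine ⟨2, two_ne_zero, ?_⟩
    apply Subtype.ext
    have h3 := h x hx.1 hx.2
    show (2 : ℤ) • x = 0
    rw [two_smul, h3]
  rw [h2, add_zero] at h1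
  have h4 : Module.finrank ℤ (s ⊔ t : Submodule ℤ A) = Module.finrank ℤ s + Module.finrank ℤ t := by
    have h5 : Module.rank ℤ s < Cardinal.aleph0 := Module.rank_lt_aleph0 ℤ s
    have h6 : Module.rank ℤ t < Cardinal.aleph0 := Module.rank_lt_aleph0 ℤ t
    unfold Module.finrank
    rw [h1, Cardinal.toNat_add h5 h6]
  have h7 : Module.finrank ℤ (s ⊔ t : Submodule ℤ A) ≤ Module.finrank ℤ A :=
    Submodule.finrank_le _
  calc Module.finrank ℤ B + Module.finrank ℤ B' = Module.finrank ℤ s + Module.finrank ℤ t := rfl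
    _ = Module.finrank ℤ (s ⊔ t : Submodule ℤ A) := h4.symm
    _ ≤ Module.finrank ℤ A := h7

end Pool.Agent.Work.MP_787500_nt.RS
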