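import Mathlib
import Pool.Agent.Work.MP_787500_nt.H9_Descent
import Pool.Agent.Work.MP_787500_nt.RS.Defs
import Pool.Agent.Work.MP_787500_nt.RS.Isom
import Pool.Agent.Work.MP_787500_nt.RS.RankAlg
import Pool.Agent.Work.MP_787500_nt.RS.RankSplit

/-!
# Module RANKSTEP: the new part of the Mordell-Weil group in one step of the tower

`W` over `K` is `y^2 = x (x - 1)(x + 1)`. Over `F ∋ i` there is the endomorphism `J`,
`(x, y) ↦ (-x, i y)` (`exists_isom` with `u^2 = -1`: take `u = i^3 = -i`, so `u^3 = i`; `r = 0`,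
`(f1, f2, f3) = (0, -1, 1)`, `h.swap`). The automorphisms act by `Point.map`. `J^2 = -1`; `J` commutes
with `g` if `g i = i` and anticommutes with `c` if `c i = -i` (`(x, -y) = -(x, y)`).
* `rank_base`: `finrank_ge` with `n = 0` and `g = -1`.
* `rank_step`: let `τ = g^(2^n)`, `B = {P | τ P = P}`, `B' = {P | τ P = -P}`. `finrank_add_le` for `B`,
  `B'`; the map `(W⁄F').Point → (W⁄F).Point` is injective with image in `B`, so
  `finrank (W⁄F').Point ≤ finrank B`; `g`, `J`, `c` preserve `B'` (they commute with `τ`), on `B'` one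
  has `g^(2^n) = -1`, the given point `P` is in `B'`, and `finrank_ge` gives `2 * 2^n ≤ finrank B'`.
  (`Point.map` for the inclusion `F' → F`: `IsScalarTower.toAlgHom K F' F`.)
-/

set_option autoImplicit false

namespace Pool.Agent.Work.MP_787500_nt.RS

open WeierstrassCurve WeierstrassCurve.Affine

open scoped Classical in
/-- the automorphisms act on the points -/
private noncomputable def mp {K F : Type*} [Field K] [Field F] [Algebra K F]
    (W : WeierstrassCurve.Affine K) (f : F ≃ₐ[K] F) : (W⁄F).Point →+ (W⁄F).Point :=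
  Point.map (W' := W) (f : F →ₐ[K] F)

open scoped Classical in
private theorem mp_mul {K F : Type*} [Field K] [Field F] [Algebra K F]
    (W : WeierstrassCurve.Affine K) (f g : F ≃ₐ[K] F) (P : (W⁄F).Point) :
    mp W (f * g) P = mp W f (mp W g P) := by
  rw [mp, mp, mp, Point.map_map]
  rfl

open scoped Classical in
private theorem mp_one {K F : Type*} [Field K] [Field F] [Algebra K F]
    (W : WeierstrassCurve.Affine K) (P : (W⁄F).Point) : mp W (1 : F ≃ₐ[K] F) P = P := by
  cases P <;> rfl

open scoped Classical in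
private theorem mp_pow {K F : Type*} [Field K] [Field F] [Algebra K F]
    (W : WeierstrassCurve.Affine K) (f : F ≃ₐ[K] F) (k : ℕ) (P : (W⁄F).Point) :
    mp W (f ^ k) P = (mp W f)^[k] P := by
  induction k generalizing P with
  | zero => rw [pow_zero, mp_one]; rfl
  | succ k ih => rw [pow_succ, mp_mul, ih]; rfl

open scoped Classical in
private theorem exists_J {K F : Type*} [Field K] [CharZero K] [Field F] [Algebra K F]
    {W : WeierstrassCurve.Affine K} (h : TwoTors W 0 1 (-1)) {i : F} (hi : i ^ 2 = -1) :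
    ∃ J : (W⁄F).Point →+ (W⁄F).Point, (∀ P, J (J P) = -P) ∧
      (∀ f : F ≃ₐ[K] F, f i = i → ∀ P, mp W f (J P) = J (mp W f P)) ∧
      (∀ f : F ≃ₐ[K] F, f i = -i → ∀ P, J (mp W f P) = -(mp W f (J P))) := by
  have : CharZero F := charZero_of_injective_algebraMap (algebraMap K F).injective
  have hF : TwoTors (W⁄F) 0 1 (-1) := by
    have := h.bc F
    rwa [map_zero, map_one, map_neg, map_one] at this
  have hi3 : (-i) ^ 3 = i := by linear_combination (-i) * hi
  have hi2 : (-i) ^ 2 = -1 := by linear_combination hi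
  have hi0 : -i ≠ 0 := by
    intro h0
    rw [h0] at hi2
    norm_num at hi2
  obtain ⟨φ, hφ⟩ := exists_isom (u := -i) (r := 0) hF hF.swap hi0 (by ring)
    (by rw [hi2]; ring) (by rw [hi2]; ring)
  have hφ' : ∀ (x y : F) (hn : (W⁄F).Nonsingular x y), ∃ hn' : (W⁄F).Nonsingular (-x) (i * y),
      φ (Point.some x y hn) = Point.some _ _ hn' := by
    intro x y hn
    obtain ⟨hn', h1⟩ := hφ x y hn
    have e1 : (-i) ^ 2 * x + 0 = -x := by rw [hi2]; ring
    have e2 : (-i) ^ 3 * y = i * y := by rw [hi3]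
    refine ⟨by rw [← e1, ← e2]; exact hn', ?_⟩
    rw [h1]
    simp only [Point.some.injEq]
    exact ⟨e1, e2⟩
  have hneg : ∀ (x y : F) (hn : (W⁄F).Nonsingular x y), ∃ hn' : (W⁄F).Nonsingular x (-y),
      -(Point.some x y hn) = Point.some _ _ hn' := by
    intro x y hn
    refine ⟨by rw [← hF.negY_eq x y]; exact (nonsingular_neg ..).2 hn, ?_⟩
    rw [Point.neg_some]
    simp only [Point.some.injEq, true_and]
    exact hF.negY_eq x y
  have hbn : ∀ (f : F ≃ₐ[K] F) {x y : F}, (W⁄F).Nonsingular x y →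
      (W⁄F).Nonsingular (f x) (f y) := by
    intro f x y hn
    exact (W.baseChange_nonsingular (f := (f : F →ₐ[K] F)) f.injective x y).mpr hn
  refine ⟨φ, ?_, ?_, ?_⟩
  · intro P
    rcases P with _ | ⟨x, y, hn⟩
    · change φ (φ 0) = -0
      rw [map_zero, map_zero, neg_zero]
    · obtain ⟨h1, e1⟩ := hφ' x y hn
      obtain ⟨h2, e2⟩ := hφ' _ _ h1
      obtain ⟨h3, e3⟩ := hneg x y hn
      rw [e1, e2, e3]
      simp only [Point.some.injEq]
      exact ⟨by ring, by linear_combination y * hi⟩
  · intro f hf P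
    rcases P with _ | ⟨x, y, hn⟩
    · change mp W f (φ 0) = φ (mp W f 0)
      rw [map_zero, map_zero, map_zero]
    · obtain ⟨h1, e1⟩ := hφ' x y hn
      rw [e1, mp, Point.map_some, Point.map_some]
      obtain ⟨h2, e2⟩ := hφ' (f x) (f y) (hbn f hn)
      refine Eq.trans ?_ e2.symm
      simp only [Point.some.injEq]
      exact ⟨map_neg f x, (map_mul f i y).trans (by rw [hf])⟩
  · intro f hf P
    rcases P with _ | ⟨x, y, hn⟩
    · change φ (mp W f 0) = -(mp W f (φ 0))
      rw [map_zero, map_zero, map_zero, neg_zero]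
    · obtain ⟨h1, e1⟩ := hφ' x y hn
      rw [e1, mp, Point.map_some, Point.map_some]
      obtain ⟨h2, e2⟩ := hφ' (f x) (f y) (hbn f hn)
      refine Eq.trans e2 ?_
      obtain ⟨h3, e3⟩ := hneg (f (-x)) (f (i * y)) (hbn f h1)
      refine Eq.trans ?_ e3.symm
      simp only [Point.some.injEq]
      refine ⟨(map_neg f x).symm, ?_⟩
      rw [map_mul, hf]
      ring

open scoped Classical in
theorem rank_base {K F : Type*} [Field K] [CharZero K] [Field F] [Algebra K F]
    {W : WeierstrassCurve.Affine K} (h : TwoTors W 0 1 (-1)) (hFG : AddGroup.FG (W⁄F).Point)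
    {i : F} (hi : i ^ 2 = -1) (c : F ≃ₐ[K] F) (hc : c i = -i) (P : (W⁄F).Point)
    (hP : ∀ m : ℕ, m ≠ 0 → m • P ≠ 0) : 2 ≤ Module.finrank ℤ (W⁄F).Point := by
  have : Module.Finite ℤ (W⁄F).Point := Module.Finite.iff_addGroup_fg.2 hFG
  obtain ⟨J, hJ, -, hJc⟩ := exists_J h hi (F := F)
  have h1 := finrank_ge (A := (W⁄F).Point) 0 (-(AddMonoidHom.id _)) J (mp W c) ?_ ?_ ?_ ?_ hJ ?_ P hP
  · simpa using h1
  · intro x; rfl
  · intro x
    exact (map_neg J x).symm
  · intro x
    exact (map_neg (mp W c) x).symm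
  · exact hJc c hc
  · exact Point.map_injective _

open scoped Classical in
theorem rank_step {K F' F : Type*} [Field K] [CharZero K] [Field F'] [Field F] [Algebra K F']
    [Algebra K F] [Algebra F' F] [IsScalarTower K F' F] {W : WeierstrassCurve.Affine K}
    (h : TwoTors W 0 1 (-1)) (hFG : AddGroup.FG (W⁄F).Point) {i : F}
    (hi : i ^ 2 = -1) (n : ℕ) (g c : F ≃ₐ[K] F) (hgc : g * c = c * g) (hg : g i = i)
    (hc : c i = -i) (hfix : ∀ x : F', (g ^ (2 ^ n)) (algebraMap F' F x) = algebraMap F' F x)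
    {x y : F} (hn : (W⁄F).Nonsingular x y)
    (hx : (g ^ (2 ^ n)) x = x) (hy : (g ^ (2 ^ n)) y = -y)
    (hP : ∀ m : ℕ, m ≠ 0 → m • (Point.some x y hn : (W⁄F).Point) ≠ 0) :
    Module.finrank ℤ (W⁄F').Point + 2 ^ (n + 1) ≤ Module.finrank ℤ (W⁄F).Point := by
  have hfin : Module.Finite ℤ (W⁄F).Point := Module.Finite.iff_addGroup_fg.2 hFG
  have : CharZero F := charZero_of_injective_algebraMap (algebraMap K F).injective
  have hF : TwoTors (W⁄F) 0 1 (-1) := by
    have := h.bc F
    rwa [map_zero, map_one, map_neg, map_one] at this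
  obtain ⟨J, hJ, hJg, hJc⟩ := exists_J h hi (F := F)
  set τ : (W⁄F).Point →+ (W⁄F).Point := mp W (g ^ (2 ^ n)) with hτ
  have hτi : (g ^ (2 ^ n)) i = i := by
    have : ∀ k : ℕ, (g ^ k) i = i := by
      intro k
      induction k with
      | zero => rfl
      | succ k ih => rw [pow_succ, AlgEquiv.mul_apply, hg, ih]
    exact this _
  have hgcom : Commute g c := hgc
  have cJ : ∀ P, τ (J P) = J (τ P) := hJg _ hτi
  have cg : ∀ P, τ (mp W g P) = mp W g (τ P) := by
    intro P
    rw [hτ, ← mp_mul, ← mp_mul, (Commute.refl g).pow_left (2 ^ n) |>.eq]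
  have cc : ∀ P, τ (mp W c P) = mp W c (τ P) := by
    intro P
    rw [hτ, ← mp_mul, ← mp_mul, hgcom.pow_left (2 ^ n) |>.eq]
  let B : AddSubgroup (W⁄F).Point :=
    { carrier := {P | τ P = P}
      add_mem' := by
        intro a b (ha : τ a = a) (hb : τ b = b)
        show τ (a + b) = a + b
        rw [map_add, ha, hb]
      zero_mem' := map_zero τ
      neg_mem' := by
        intro a (ha : τ a = a)
        show τ (-a) = -a
        rw [map_neg, ha] }
  let B' : AddSubgroup (W⁄F).Point :=
    { carrier := {P | τ P = -P}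
      add_mem' := by
        intro a b (ha : τ a = -a) (hb : τ b = -b)
        show τ (a + b) = -(a + b)
        rw [map_add, ha, hb, neg_add]
      zero_mem' := by
        show τ 0 = -0
        rw [map_zero, neg_zero]
      neg_mem' := by
        intro a (ha : τ a = -a)
        show τ (-a) = -(-a)
        rw [map_neg, ha] }
  have mB : ∀ P, P ∈ B ↔ τ P = P := fun P => Iff.rfl
  have mB' : ∀ P, P ∈ B' ↔ τ P = -P := fun P => Iff.rfl
  have h1 := finrank_add_le B B' (by
    intro P hP1 hP2
    rw [mB] at hP1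
    rw [mB', hP1] at hP2
    nth_rw 1 [hP2]
    exact neg_add_cancel P)
  have finB : Module.Finite ℤ B :=
    inferInstanceAs (Module.Finite ℤ (AddSubgroup.toIntSubmodule B))
  have finB' : Module.Finite ℤ B' :=
    inferInstanceAs (Module.Finite ℤ (AddSubgroup.toIntSubmodule B'))
  have h2 : Module.finrank ℤ (W⁄F').Point ≤ Module.finrank ℤ B := by
    let ι : (W⁄F').Point →+ (W⁄F).Point := Point.map (W' := W) (IsScalarTower.toAlgHom K F' F)
    have hι : ∀ P, ι P ∈ B := by
      intro P
      rw [mB]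
      rcases P with _ | ⟨x, y, hn⟩
      · rfl
      · show mp W (g ^ (2 ^ n)) (Point.map (W' := W) (IsScalarTower.toAlgHom K F' F) _) =
          Point.map (W' := W) (IsScalarTower.toAlgHom K F' F) _
        rw [mp, Point.map_some, Point.map_some]
        simp only [Point.some.injEq]
        exact ⟨hfix x, hfix y⟩
    let ι' : (W⁄F').Point →+ B := ι.codRestrict B hι
    have hinj : Function.Injective ι'.toIntLinearMap := by
      intro a b hab
      exact Point.map_injective (W' := W) (IsScalarTower.toAlgHom K F' F)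
        (congrArg Subtype.val hab)
    exact LinearMap.finrank_le_finrank_of_injective hinj
  have h3 : 2 * 2 ^ n ≤ Module.finrank ℤ B' := by
    let gB : B' →+ B' := ((mp W g).comp B'.subtype).codRestrict B' (by
      rintro ⟨P, hP⟩
      rw [mB'] at hP
      show τ (mp W g P) = -(mp W g P)
      rw [cg, hP, map_neg])
    let JB : B' →+ B' := (J.comp B'.subtype).codRestrict B' (by
      rintro ⟨P, hP⟩
      rw [mB'] at hP
      show τ (J P) = -(J P)
      rw [cJ, hP, map_neg])
    let cB : B' →+ B' := ((mp W c).comp B'.subtype).codRestrict B' (by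
      rintro ⟨P, hP⟩
      rw [mB'] at hP
      show τ (mp W c P) = -(mp W c P)
      rw [cc, hP, map_neg])
    have hgB : ∀ P : B', ((gB P : B') : (W⁄F).Point) = mp W g P := fun _ => rfl
    have hJB : ∀ P : B', ((JB P : B') : (W⁄F).Point) = J P := fun _ => rfl
    have hcB : ∀ P : B', ((cB P : B') : (W⁄F).Point) = mp W c P := fun _ => rfl
    have hit : ∀ (k : ℕ) (P : B'), ((gB^[k] P : B') : (W⁄F).Point) = (mp W g)^[k] P := by
      intro k
      induction k with
      | zero => intro P; rfl
      | succ k ih =>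
        intro P
        rw [Function.iterate_succ_apply, ih, hgB, Function.iterate_succ_apply]
    have hmem : (Point.some x y hn : (W⁄F).Point) ∈ B' := by
      rw [mB', Point.neg_some]
      show mp W (g ^ (2 ^ n)) _ = _
      rw [mp, Point.map_some]
      simp only [Point.some.injEq]
      exact ⟨hx, hy.trans (hF.negY_eq x y).symm⟩
    refine finrank_ge n gB JB cB ?_ ?_ ?_ ?_ ?_ ?_ ⟨_, hmem⟩ ?_
    · intro P
      apply Subtype.ext
      rw [hit, ← mp_pow]
      exact P.2
    · intro P
      apply Subtype.ext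
      rw [hgB, hJB, hJB, hgB]
      exact hJg g hg P
    · intro P
      apply Subtype.ext
      rw [hgB, hcB, hcB, hgB, ← mp_mul, ← mp_mul, hgc]
    · intro P
      apply Subtype.ext
      rw [hJB, hcB]
      exact hJc c hc P
    · intro P
      apply Subtype.ext
      rw [hJB, hJB]
      exact hJ P
    · intro P Q hPQ
      apply Subtype.ext
      exact Point.map_injective (W' := W) (c : F →ₐ[K] F) (congrArg Subtype.val hPQ)
    · intro m hm h0
      exact hP m hm (congrArg Subtype.val h0)
  calc Module.finrank ℤ (W⁄F').Point + 2 ^ (n + 1)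
      = Module.finrank ℤ (W⁄F').Point + 2 * 2 ^ n := by rw [pow_succ']
    _ ≤ Module.finrank ℤ B + Module.finrank ℤ B' := Nat.add_le_add h2 h3
    _ ≤ _ := h1

end Pool.Agent.Work.MP_787500_nt.RS
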