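import Mathlib
import Pool.Agent.Work.MP_787500_nt.H9_Alg
import Pool.Agent.Work.MP_787500_nt.RS.Defs
import Pool.Agent.Work.MP_787500_nt.RS.AgmSeq
import Pool.Agent.Work.MP_787500_nt.RS.NonTor

/-!
# Module AGMPT: a point of infinite order in every layer

`W : y^2 = x (x - 1)(x + 1)`. `w` is a unit at the dyadic place `v`, so `V w' = V 2 < 1`. By induction
`V (b m) = V 4 * V (a m)` for `m ≤ n`, with `a m, b m ≠ 0` (`agm_ne`): `V b_0 = V w' ^ 2 = V 4`,
`V a_0 = 1`; if it holds for `m`: `V (a_m + b_m) = V a_m`, `V a_(m+1) = V a_m / V 2`,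
`V b_(m+1)^2 = V a_m ^ 2 * V 4 = V a_(m+1)^2 * V 16`. Also `V u_m = 1`. The point
`P = (-u_n^2, u_n b_n / a_n)` is on `W` (`y^2 = u^2 (1 - u^4)` since `(b_n/a_n)^2 = 1 - u^4`, `agm_ne`;
`nonsingular_of_eq`). With `y_n = b_n/a_n`: `V y_n = V 4`, `V u_n = 1` (`u^4 = 1 - y_n^2`),
`u^4 + 1 = 2 - y_n^2` has valuation `V 2` (`V 16 < V 2`), so `2 P` has first coordinate
`((u^4 + 1)/(2 u y_n))^2` (`add_self_some`, `(e1, e2, e3) = (0, 1, -1)`) of valuation
`(V 2 / (V 2 * V 4))^2 > 1`; so `2 P` is not torsion by `not_torsion_of_large`, hence `P` is not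
torsion.
-/

set_option autoImplicit false

namespace Pool.Agent.Work.MP_787500_nt.RS

open WithZero IsDedekindDomain NumberField WeierstrassCurve WeierstrassCurve.Affine

private theorem agm_val {F : Type*} [Field F] [CharZero F] (V : Valuation F ℤᵐ⁰)
    {w w' i : F} {a b u : ℕ → F} {n : ℕ} (H : Agm w w' i a b u n) (h2 : V 2 < 1)
    (hw : V w = 1) {m : ℕ} (hm : m ≤ n) : V (b m) = V 2 ^ 2 * V (a m) := by
  have h20 : V 2 ≠ 0 := (V.ne_zero_iff).2 two_ne_zero
  have h22 : V 2 ^ 2 < 1 := pow_lt_one₀ zero_le h2 two_ne_zero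
  induction m with
  | zero =>
    have hmul : V w * V w' = V 2 := by rw [← map_mul, H.mul]
    rw [hw, one_mul] at hmul
    have hi : V i = 1 := by
      have : V i ^ 2 = 1 := by rw [← map_pow, H.i2, Valuation.map_neg, map_one]
      exact (pow_eq_one_iff.1 this).resolve_right two_ne_zero
    rw [H.a0, H.b0, map_mul, Valuation.map_neg, map_pow, map_pow, hi, hw, hmul, one_pow, mul_one,
      one_mul]
  | succ m ih =>
    have hb := ih (by omega)
    obtain ⟨ha0, _, _, _, _, _⟩ := agm_ne H (m := m) (by omega)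
    have hVa0 : V (a m) ≠ 0 := (V.ne_zero_iff).2 ha0
    have hlt : V (b m) < V (a m) := by
      rw [hb]
      calc V 2 ^ 2 * V (a m) < 1 * V (a m) :=
            mul_lt_mul_of_pos_right h22 (zero_lt_iff.2 hVa0)
        _ = V (a m) := one_mul _
    have ha : V (a (m + 1)) * V 2 = V (a m) := by
      rw [H.as m (by omega), map_div₀, V.map_add_eq_of_lt_left hlt, div_mul_cancel₀ _ h20]
    have e : V (b (m + 1)) ^ 2 = (V 2 ^ 2 * V (a (m + 1))) ^ 2 := by
      rw [← map_pow, H.bs m (by omega), map_mul, hb, ← ha]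
      simp only [pow_two, mul_comm, mul_left_comm]
    exact (pow_left_inj₀ zero_le zero_le two_ne_zero).1 e

variable {F : Type*} [Field F] [NumberField F] [DecidableEq F] {W : WeierstrassCurve.Affine F}

theorem agm_point (h : TwoTors W 0 1 (-1)) {v : HeightOneSpectrum (𝓞 F)}
    (hv : (2 : 𝓞 F) ∈ v.asIdeal) {w w' i : F} {a b u : ℕ → F} {n : ℕ} (H : Agm w w' i a b u n)
    (hw : v.valuation F w = 1) :
    ∃ hn : W.Nonsingular (-u n ^ 2) (u n * b n / a n),
      ∀ m : ℕ, m ≠ 0 → m • (Point.some _ _ hn : W.Point) ≠ 0 := by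
  obtain ⟨ha0, hb0, _, _, hu0, heq⟩ := agm_ne H (le_refl n)
  have hval := agm_val (v.valuation F) H (by
    have e : (2 : F) = algebraMap (𝓞 F) F 2 := by rw [map_ofNat]
    rw [e, HeightOneSpectrum.valuation_lt_one_iff_mem]
    exact hv) hw (le_refl n)
  have h2 : v.valuation F 2 < 1 := by
    have e : (2 : F) = algebraMap (𝓞 F) F 2 := by rw [map_ofNat]
    rw [e, HeightOneSpectrum.valuation_lt_one_iff_mem]
    exact hv
  set V := v.valuation F with hV
  have h20 : V 2 ≠ 0 := (V.ne_zero_iff).2 two_ne_zero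
  have h22 : V 2 ^ 2 < 1 := pow_lt_one₀ zero_le h2 two_ne_zero
  set z : F := b n / a n with hz
  have hz0 : z ≠ 0 := div_ne_zero hb0 ha0
  have hVz : V z = V 2 ^ 2 := by
    rw [hz, map_div₀, hval, mul_div_cancel_right₀ _ ((V.ne_zero_iff).2 ha0)]
  have hu4 : u n ^ 4 = 1 - z ^ 2 := by
    rw [hz]
    field_simp
    exact heq
  have hVz2 : V (z ^ 2) < V 2 := by
    rw [map_pow, hVz]
    calc (V 2 ^ 2) ^ 2 = V 2 ^ 3 * V 2 := by rw [← pow_mul, ← pow_succ]
      _ < 1 * V 2 := mul_lt_mul_of_pos_right (pow_lt_one₀ zero_le h2 three_ne_zero)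
          (zero_lt_iff.2 h20)
      _ = V 2 := one_mul _
  have hVu : V (u n) = 1 := by
    have : V (u n) ^ 4 = 1 := by
      rw [← map_pow, hu4, V.map_sub_eq_of_lt_left (by rw [map_one]; exact hVz2.trans h2), map_one]
    exact (pow_eq_one_iff.1 this).resolve_right four_ne_zero
  have hyz : u n * b n / a n = u n * z := by rw [hz, mul_div_assoc]
  rw [hyz]
  have hns : W.Nonsingular (-u n ^ 2) (u n * z) := by
    apply h.nonsingular_of_eq
    linear_combination (u n ^ 2) * hu4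
  refine ⟨hns, fun m hm h0 => ?_⟩
  have hy : u n * z ≠ 0 := mul_ne_zero hu0 hz0
  obtain ⟨X, Y, hn', hadd, hX, -⟩ := add_self_some h hns hy
  have hVX : 1 < V X := by
    have e1 : X = ((2 - z ^ 2) / (2 * (u n * z))) ^ 2 := by
      rw [← sub_zero X, hX]
      congr 2
      linear_combination hu4
    have e2 : V X * (V 2 ^ 2) ^ 2 = 1 := by
      rw [e1, map_pow, map_div₀, V.map_sub_eq_of_lt_left hVz2, map_mul, map_mul, hVu, hVz, one_mul,
        ← mul_pow]
      rw [div_mul_eq_mul_div, div_self (mul_ne_zero h20 (pow_ne_zero 2 h20)), one_pow]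
    by_contra hc
    rw [not_lt] at hc
    have : V X * (V 2 ^ 2) ^ 2 < 1 := by
      calc V X * (V 2 ^ 2) ^ 2 ≤ 1 * (V 2 ^ 2) ^ 2 := mul_le_mul_left hc _
        _ = (V 2 ^ 2) ^ 2 := one_mul _
        _ < 1 := pow_lt_one₀ zero_le h22 two_ne_zero
    exact this.ne e2
  apply not_torsion_of_large h hv hn' hVX hm
  rw [← hadd, smul_add, h0, add_zero]

end Pool.Agent.Work.MP_787500_nt.RS
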