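import Mathlib
import Pool.Agent.Work.MP_787500_nt.H10_Base
import Pool.Agent.Work.MP_787500_nt.H10_Quad
import Pool.Agent.Work.MP_787500_nt.RS.Defs
import Pool.Agent.Work.MP_787500_nt.RS.AgmSeq

/-!
# Module GEN: the generating automorphisms

* `exists_conj`: `c i = -i` because `i ∉ K` (`-1` is not a square in `K`).
* `exists_gen`: an automorphism `σ` with `σ i = i` and, for all `n`, `σ^(2^n)` fixes `b_0, .., b_n`
  and `σ^(2^n) b_(n+1) = - b_(n+1)`.
  Start: `b_1^2 = a_0 b_0 = - w^2 w'^2 i = -4 i`, so `b_1^4 = -16` and `b_1` has degree 4 over `K`, or: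
  `-4 i` is not a square in `K(i)`: if `-i = (x + y i)^2`, `x, y ∈ K`, then `x^2 = y^2`,
  `2 x y = -1`, so `2 x^2 = ±1`, and `±2` is not a square in `K`
  (a square `z^2 = r`, `z ∈ K`, `r ∈ ℚ` forces `r` or `-7 r` to be a square in `ℚ`: write
  `z = x + y s`, `exists_coords`, `not_rat` in H10_Quad or H10_Base). So there is `σ` over `K(i)` with
  `σ b_1 = -b_1` (transitivity of the Galois group on the roots of a minimal polynomial, or
  `IntermediateField` / `AlgEquiv` extension lemmas; fixed field argument: if all `σ` fixing `i` fix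
  `b_1`, then `b_1 ∈ K(i)`).
  Step: `τ = σ^(2^n)` fixes `i, b_0, .., b_n`, hence `a_0, .., a_(n+1)`, and
  `τ b_(n+1) = -b_(n+1)`; so `(τ b_(n+2))^2 = τ (a_(n+1) b_(n+1)) = - b_(n+2)^2`,
  `τ b_(n+2) = ± i b_(n+2)`, `τ^2 b_(n+2) = - b_(n+2)`, and `τ^2` fixes `b_(n+1)`; `τ^2 = σ^(2^(n+1))`.
-/

set_option autoImplicit false

namespace Pool.Agent.Work.MP_787500_nt.RS

universe u

variable {K : Type u} [Field K] [NumberField K]
variable {s w w' : K} {i : AlgebraicClosure K} {a b u : ℕ → AlgebraicClosure K}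

omit [NumberField K] in
/-- an element outside `K` is moved -/
private theorem exists_moved [CharZero K] {z : AlgebraicClosure K}
    (hz : ∀ x : K, algebraMap K (AlgebraicClosure K) x ≠ z) :
    ∃ σ : AlgebraicClosure K ≃ₐ[K] AlgebraicClosure K, σ z ≠ z := by
  by_contra hcon
  push Not at hcon
  obtain ⟨x, hx⟩ := (InfiniteGalois.mem_range_algebraMap_iff_fixed z).2 hcon
  exact hz x hx

private theorem rat_sq (hK : Module.finrank ℚ K = 2) (hs : s ^ 2 = -7) {z : K} {r : ℚ}
    (h : z ^ 2 = (r : K)) : IsSquare r ∨ IsSquare (-7 * r) := by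
  have hs' : s ^ 2 = -((7 : ℕ) : K) := by rw [hs]; norm_num
  obtain ⟨x, y, rfl⟩ := Quad.exists_coords hK hs' (by norm_num) z
  have h1 : ((x ^ 2 - 7 * y ^ 2 - r : ℚ) : K) + ((2 * x * y : ℚ) : K) * s = 0 := by
    push_cast
    linear_combination h - (y : K) ^ 2 * hs
  obtain ⟨h2, h3⟩ := Quad.not_rat hs' (by norm_num) _ _ h1
  rcases mul_eq_zero.1 h3 with h4 | h4
  · right
    have hx : x = 0 := by linarith
    refine ⟨7 * y, ?_⟩
    rw [hx] at h2
    linear_combination 7 * h2
  · left
    refine ⟨x, ?_⟩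
    rw [h4] at h2
    linear_combination -h2

private theorem not_rat_sq {r : ℚ} {m : ℕ} (h : r = m) (hm : ¬ IsSquare m) : ¬ IsSquare r := by
  rw [h, Rat.isSquare_natCast_iff]
  exact hm

theorem exists_conj (hK : Module.finrank ℚ K = 2) (hs : s ^ 2 = -7)
    (hi : i ^ 2 = -1) : ∃ c : AlgebraicClosure K ≃ₐ[K] AlgebraicClosure K, c i = -i := by
  obtain ⟨σ, hσ⟩ := exists_moved (z := i) (by
    intro x hx
    have h1 : x ^ 2 = ((-1 : ℚ) : K) := by
      apply (algebraMap K (AlgebraicClosure K)).injective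
      rw [map_pow, hx, hi]
      simp
    rcases rat_sq hK hs h1 with h2 | h2
    · obtain ⟨t, ht⟩ := h2
      nlinarith [mul_self_nonneg t]
    · exact not_rat_sq (m := 7) (by norm_num) (by
        intro h3
        obtain ⟨t, ht⟩ := h3
        have : t ≤ 2 ∨ 3 ≤ t := by omega
        rcases this with h4 | h4
        · interval_cases t <;> omega
        · nlinarith) h2)
  refine ⟨σ, ?_⟩
  have h1 : (σ i) ^ 2 = i ^ 2 := by rw [← map_pow, hi, map_neg, map_one]
  exact (sq_eq_sq_iff_eq_or_eq_neg.1 h1).resolve_left hσ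

theorem exists_gen (hK : Module.finrank ℚ K = 2) (hs : s ^ 2 = -7)
    (h : ∀ n, Agm (algebraMap K (AlgebraicClosure K) w) (algebraMap K (AlgebraicClosure K) w')
      i a b u n) :
    ∃ σ : AlgebraicClosure K ≃ₐ[K] AlgebraicClosure K, σ i = i ∧
      ∀ n, (σ ^ (2 ^ n)) (b (n + 1)) = -b (n + 1) ∧ ∀ m ≤ n, (σ ^ (2 ^ n)) (b m) = b m := by
  have hi := (h 0).i2
  obtain ⟨c, hc⟩ := exists_conj hK hs hi
  have hb1 : b 1 ^ 2 = -4 * i := by
    rw [(h 1).bs 0 (by norm_num), (h 0).a0, (h 0).b0]
    linear_combination (-i) * (algebraMap K (AlgebraicClosure K) w *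
      algebraMap K (AlgebraicClosure K) w' + 2) * (h 0).mul
  -- the first automorphism
  have key : ∃ σ : AlgebraicClosure K ≃ₐ[K] AlgebraicClosure K, σ i = i ∧ σ (b 1) = -b 1 := by
    by_contra hcon
    push Not at hcon
    have hfix : ∀ σ : AlgebraicClosure K ≃ₐ[K] AlgebraicClosure K, σ i = i → σ (b 1) = b 1 := by
      intro σ hσ
      have h1 : (σ (b 1)) ^ 2 = b 1 ^ 2 := by
        rw [← map_pow, hb1, map_mul, hσ, map_neg, map_ofNat]
      exact (sq_eq_sq_iff_eq_or_eq_neg.1 h1).resolve_right (hcon σ hσ)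
    have hcb : (c (b 1)) ^ 2 = 4 * i := by
      rw [← map_pow, hb1, map_mul, hc, map_neg, map_ofNat]
      ring
    have ht : b 1 * c (b 1) = 4 ∨ b 1 * c (b 1) = -4 := by
      apply sq_eq_sq_iff_eq_or_eq_neg.1
      rw [mul_pow, hb1, hcb]
      linear_combination (-16) * hi
    obtain ⟨ε, hε, hε'⟩ : ∃ ε : ℚ, (ε = 8 ∨ ε = -8) ∧
        2 * (b 1 * c (b 1)) = algebraMap ℚ (AlgebraicClosure K) ε := by
      rcases ht with ht | ht
      · exact ⟨8, Or.inl rfl, by rw [ht]; norm_num⟩
      · exact ⟨-8, Or.inr rfl, by rw [ht]; norm_num⟩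
    have hε0 : b 1 * c (b 1) ≠ 0 := by
      rcases ht with ht | ht <;> rw [ht] <;> norm_num
    have hb0 : b 1 ≠ 0 := left_ne_zero_of_mul hε0
    have hprod : ∀ σ : AlgebraicClosure K ≃ₐ[K] AlgebraicClosure K,
        σ (b 1 * c (b 1)) = b 1 * c (b 1) := by
      intro σ
      rcases ht with ht | ht
      · rw [ht, map_ofNat]
      · rw [ht, map_neg, map_ofNat]
    have hinv : ∀ σ : AlgebraicClosure K ≃ₐ[K] AlgebraicClosure K,
        σ (b 1 + c (b 1)) = b 1 + c (b 1) := by
      intro σ
      have h1 : (σ i) ^ 2 = i ^ 2 := by rw [← map_pow, hi, map_neg, map_one]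
      have hp := hprod σ
      rw [map_mul] at hp
      rcases sq_eq_sq_iff_eq_or_eq_neg.1 h1 with h2 | h2
      · have h3 := hfix σ h2
        rw [h3] at hp
        rw [map_add, h3, mul_left_cancel₀ hb0 hp]
      · have h3 := hfix (c⁻¹ * σ) (by
          rw [AlgEquiv.mul_apply, h2, map_neg]
          have : c⁻¹ i = -i := by
            rw [← neg_eq_iff_eq_neg, ← map_neg, ← hc]
            exact c.symm_apply_apply i
          rw [this, neg_neg])
        rw [AlgEquiv.mul_apply] at h3
        have h4 : σ (b 1) = c (b 1) := by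
          have h5 : c (c⁻¹ (σ (b 1))) = σ (b 1) := c.apply_symm_apply (σ (b 1))
          rw [h3] at h5
          exact h5.symm
        rw [h4, mul_comm (b 1)] at hp
        rw [map_add, h4, mul_left_cancel₀ (right_ne_zero_of_mul hε0) hp, add_comm]
    obtain ⟨z, hz⟩ := (InfiniteGalois.mem_range_algebraMap_iff_fixed (b 1 + c (b 1))).2 hinv
    have hz2 : z ^ 2 = (ε : K) := by
      apply (algebraMap K (AlgebraicClosure K)).injective
      have h5 : algebraMap K (AlgebraicClosure K) (ε : K) = algebraMap ℚ (AlgebraicClosure K) ε := by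
        simp
      rw [map_pow, hz, h5, ← hε']
      linear_combination hb1 + hcb
    have n8 : ¬ IsSquare 8 := by
      rintro ⟨t, ht⟩
      have : t ≤ 2 ∨ 3 ≤ t := by omega
      rcases this with h4 | h4
      · interval_cases t <;> omega
      · nlinarith
    have n56 : ¬ IsSquare 56 := by
      rintro ⟨t, ht⟩
      have : t ≤ 7 ∨ 8 ≤ t := by omega
      rcases this with h4 | h4
      · interval_cases t <;> omega
      · nlinarith
    rcases hε with rfl | rfl
    · rcases rat_sq hK hs hz2 with h6 | ⟨t, ht⟩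
      · exact not_rat_sq (m := 8) (by norm_num) n8 h6
      · nlinarith [mul_self_nonneg t]
    · rcases rat_sq hK hs hz2 with ⟨t, ht⟩ | h6
      · nlinarith [mul_self_nonneg t]
      · exact not_rat_sq (m := 56) (by norm_num) n56 h6
  obtain ⟨σ, hσi, hσb⟩ := key
  refine ⟨σ, hσi, ?_⟩
  have hpi : ∀ k : ℕ, (σ ^ k) i = i := by
    intro k
    induction k with
    | zero => rfl
    | succ k ih => rw [pow_succ, AlgEquiv.mul_apply, hσi, ih]
  intro n
  induction n with
  | zero =>
    refine ⟨by rw [pow_zero, pow_one]; exact hσb, ?_⟩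
    intro m hm
    obtain rfl : m = 0 := by omega
    rw [(h 0).b0, map_mul, map_neg, hpi, map_pow, AlgEquiv.commutes]
  | succ n ih =>
    obtain ⟨ih1, ih2⟩ := ih
    set τ := σ ^ (2 ^ n) with hτ
    have hτi : τ i = i := hpi _
    have hpow : σ ^ (2 ^ (n + 1)) = τ * τ := by rw [hτ, ← pow_add, pow_succ, mul_two]
    have ha : ∀ m ≤ n + 1, τ (a m) = a m := by
      intro m
      induction m with
      | zero =>
        intro _
        rw [(h 0).a0, map_pow, AlgEquiv.commutes]
      | succ m ihm =>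
        intro hm
        rw [(h (m + 1)).as m (by omega), map_div₀, map_add, map_ofNat, ihm (by omega),
          ih2 m (by omega)]
    constructor
    · have h1 : (τ (b (n + 2))) ^ 2 = (i * b (n + 2)) ^ 2 := by
        rw [← map_pow, (h (n + 2)).bs (n + 1) (by omega), map_mul, ha _ le_rfl, ih1, mul_pow,
          (h (n + 2)).bs (n + 1) (by omega), hi]
        ring
      rw [hpow, AlgEquiv.mul_apply]
      rcases sq_eq_sq_iff_eq_or_eq_neg.1 h1 with h2 | h2
      · rw [h2, map_mul, hτi, h2]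
        linear_combination (b (n + 2)) * hi
      · rw [h2, map_neg, map_mul, hτi, h2]
        linear_combination (b (n + 2)) * hi
    · intro m hm
      rw [hpow, AlgEquiv.mul_apply]
      rcases Nat.lt_or_ge m (n + 1) with h1 | h1
      · rw [ih2 m (by omega), ih2 m (by omega)]
      · obtain rfl : m = n + 1 := by omega
        rw [ih1, map_neg, ih1, neg_neg]

end Pool.Agent.Work.MP_787500_nt.RS
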