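import Mathlib
import Pool.Agent.Work.MP_787500_nt.RS.Defs

/-!
The layers of the tower.
-/

set_option autoImplicit false

namespace Pool.Agent.Work.MP_787500_nt.RS

universe u

/-- the `n`-th layer `K(i, b_0, .., b_n)` -/
noncomputable def lay {K : Type u} [Field K] (i : AlgebraicClosure K)
    (b : ℕ → AlgebraicClosure K) (n : ℕ) : IntermediateField K (AlgebraicClosure K) :=
  IntermediateField.adjoin K ({i} ∪ {z | ∃ m, m ≤ n ∧ z = b m})

end Pool.Agent.Work.MP_787500_nt.RS
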