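import Mathlib
import Pool.Agent.Work.MP_787500_nt.RS.LayDefs
import Pool.Agent.Work.MP_787500_nt.RS.Gen

/-!
# Module LAYDEG: the degree of the layers

`lay i b n = K(i, b_0, .., b_n)` has degree `2^(n+1)` over `K`. Induction:
* `lay i b 0 = K(i)` (`b_0 = - i w'^2`), of degree 2 since `i ∉ K` (`exists_conj`: `c i = -i ≠ i`).
* `lay i b (n+1) = (lay i b n)(b_(n+1))`, and `b_(n+1)^2 = a_n b_n ∈ lay i b n` (`a_m ∈ lay i b n` for
  `m ≤ n + 1` by induction), so the degree of the step is at most 2; it is 2 because
  `τ = σ^(2^n)` (`exists_gen`) fixes `i, b_0, .., b_n`, hence `lay i b n`, and moves `b_(n+1) ≠ 0`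
  (`agm_ne`).
-/

set_option autoImplicit false

namespace Pool.Agent.Work.MP_787500_nt.RS

universe u

variable {K : Type u} [Field K] [NumberField K]
variable {s w w' : K} {i : AlgebraicClosure K} {a b u : ℕ → AlgebraicClosure K}

open Polynomial IntermediateField in
omit [NumberField K] in
/-- adjoining a square root outside the field doubles the degree -/
private theorem finrank_step (E E' : IntermediateField K (AlgebraicClosure K))
    (z : AlgebraicClosure K) (hz : z ∉ E) (hz2 : z ^ 2 ∈ E)
    (hE' : E' = adjoin K ((E : Set (AlgebraicClosure K)) ∪ {z})) :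
    Module.finrank K E' = 2 * Module.finrank K E := by
  have hint : IsIntegral E z := (Algebra.IsAlgebraic.isAlgebraic (R := E) z).isIntegral
  have h1 : Module.finrank E E⟮z⟯ = 2 := by
    rw [adjoin.finrank hint]
    apply le_antisymm
    · have h2 : (minpoly E z).natDegree ≤ (X ^ 2 - C (⟨z ^ 2, hz2⟩ : E)).natDegree := by
        apply natDegree_le_natDegree
        apply minpoly.min
        · exact monic_X_pow_sub_C _ two_ne_zero
        · rw [map_sub, map_pow, aeval_X, aeval_C]
          exact sub_self _
      rwa [natDegree_X_pow_sub_C] at h2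
    · rw [minpoly.two_le_natDegree_iff hint]
      rintro ⟨x, hx⟩
      apply hz
      rw [← hx]
      exact x.2
  have h2 : Module.finrank K (E⟮z⟯.restrictScalars K) = Module.finrank K E * 2 := by
    rw [← h1]
    exact (Module.finrank_mul_finrank K E E⟮z⟯).symm
  rw [hE', ← restrictScalars_adjoin, h2, mul_comm]

theorem finrank_lay (hK : Module.finrank ℚ K = 2) (hs : s ^ 2 = -7)
    (h : ∀ n, Agm (algebraMap K (AlgebraicClosure K) w) (algebraMap K (AlgebraicClosure K) w')
      i a b u n) (n : ℕ) : Module.finrank K (lay i b n) = 2 ^ (n + 1) := by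
  have mi : ∀ n, i ∈ lay i b n := fun n =>
    IntermediateField.subset_adjoin K _ (Or.inl rfl)
  have mb : ∀ n m, m ≤ n → b m ∈ lay i b n := fun n m hm =>
    IntermediateField.subset_adjoin K _ (Or.inr ⟨m, hm, rfl⟩)
  have ma : ∀ n m, m ≤ n + 1 → a m ∈ lay i b n := by
    intro n m
    induction m with
    | zero =>
      intro _
      rw [(h 0).a0]
      exact pow_mem (IntermediateField.algebraMap_mem _ _) 2
    | succ m ih =>
      intro hm
      rw [(h (m + 1)).as m (by omega)]
      exact div_mem (add_mem (ih (by omega)) (mb n m (by omega))) (ofNat_mem _ 2)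
  induction n with
  | zero =>
    obtain ⟨c, hc⟩ := exists_conj hK hs (h 0).i2
    have hi : i ∉ (⊥ : IntermediateField K (AlgebraicClosure K)) := by
      intro hi
      obtain ⟨x, hx⟩ := IntermediateField.mem_bot.1 hi
      have h1 : c i = i := by rw [← hx, AlgEquiv.commutes]
      rw [hc] at h1
      have h2 : i = 0 := by
        have h3 : (2 : AlgebraicClosure K) * i = 0 := by linear_combination -h1
        exact (mul_eq_zero.1 h3).resolve_left two_ne_zero
      have h4 := (h 0).i2
      rw [h2] at h4
      norm_num at h4
    have h1 := finrank_step ⊥ (lay i b 0) i hi (by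
      rw [(h 0).i2]
      exact neg_mem (one_mem _)) (by
      apply le_antisymm
      · rw [lay, IntermediateField.adjoin_le_iff]
        have h5 : i ∈ IntermediateField.adjoin K
            (((⊥ : IntermediateField K (AlgebraicClosure K)) : Set (AlgebraicClosure K)) ∪ {i}) :=
          IntermediateField.subset_adjoin K _ (Or.inr rfl)
        rintro z (hz | ⟨m, hm, rfl⟩)
        · rw [Set.mem_singleton_iff.1 hz]
          exact h5
        · obtain rfl : m = 0 := by omega
          rw [(h 0).b0]
          exact mul_mem (neg_mem h5) (pow_mem (IntermediateField.algebraMap_mem _ _) 2)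
      · rw [IntermediateField.adjoin_le_iff]
        rintro z (hz | hz)
        · exact (bot_le : (⊥ : IntermediateField K (AlgebraicClosure K)) ≤ lay i b 0) hz
        · rw [Set.mem_singleton_iff.1 hz]
          exact mi 0)
    rw [h1, IntermediateField.finrank_bot]
    norm_num
  | succ n ih =>
    obtain ⟨σ, hσi, hσ⟩ := exists_gen hK hs h
    obtain ⟨h1, h2⟩ := hσ n
    have hfix : ∀ x ∈ lay i b n, (σ ^ (2 ^ n)) x = x := by
      intro x hx
      have hle : lay i b n ≤ IntermediateField.fixedField (Subgroup.zpowers (σ ^ (2 ^ n))) := by
        rw [lay, IntermediateField.adjoin_le_iff]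
        have key : ∀ y, (σ ^ (2 ^ n)) y = y →
            y ∈ IntermediateField.fixedField (Subgroup.zpowers (σ ^ (2 ^ n))) := by
          intro y hy
          rw [IntermediateField.mem_fixedField_iff]
          intro f hf
          have : Subgroup.zpowers (σ ^ (2 ^ n)) ≤ MulAction.stabilizer _ y := by
            rw [Subgroup.zpowers_le]
            exact hy
          exact this hf
        rintro z (hz | ⟨m, hm, rfl⟩)
        · rw [Set.mem_singleton_iff.1 hz]
          apply key
          have : ∀ k : ℕ, (σ ^ k) i = i := by
            intro k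
            induction k with
            | zero => rfl
            | succ k ih => rw [pow_succ, AlgEquiv.mul_apply, hσi, ih]
          exact this _
        · exact key _ (h2 m hm)
      exact (IntermediateField.mem_fixedField_iff _ _).1 (hle hx) _ (Subgroup.mem_zpowers _)
    have hb : b (n + 1) ∉ lay i b n := by
      intro hb
      have h3 := hfix _ hb
      rw [h1] at h3
      have h4 : b (n + 1) = 0 := by
        have h5 : (2 : AlgebraicClosure K) * b (n + 1) = 0 := by linear_combination -h3
        exact (mul_eq_zero.1 h5).resolve_left two_ne_zero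
      exact (agm_ne (h (n + 1)) le_rfl).2.1 h4
    have h5 := finrank_step (lay i b n) (lay i b (n + 1)) (b (n + 1)) hb (by
      rw [(h (n + 1)).bs n (by omega)]
      exact mul_mem (ma n n (by omega)) (mb n n le_rfl)) (by
      apply le_antisymm
      · rw [lay, IntermediateField.adjoin_le_iff]
        rintro z (hz | ⟨m, hm, rfl⟩)
        · rw [Set.mem_singleton_iff.1 hz]
          exact IntermediateField.subset_adjoin K _ (Or.inl (mi n))
        · rcases Nat.lt_or_ge m (n + 1) with h6 | h6
          · exact IntermediateField.subset_adjoin K _ (Or.inl (mb n m (by omega)))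
          · obtain rfl : m = n + 1 := by omega
            exact IntermediateField.subset_adjoin K _ (Or.inr rfl)
      · rw [IntermediateField.adjoin_le_iff]
        rintro z (hz | hz)
        · have hle : lay i b n ≤ lay i b (n + 1) := by
            apply IntermediateField.adjoin.mono
            rintro y (hy | ⟨m, hm, rfl⟩)
            · exact Or.inl hy
            · exact Or.inr ⟨m, by omega, rfl⟩
          exact hle hz
        · rw [Set.mem_singleton_iff.1 hz]
          exact mb _ _ le_rfl)
    rw [h5, ih]
    ring

end Pool.Agent.Work.MP_787500_nt.RS
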