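import Mathlib
import Pool.Agent.Work.MP_787500_nt.H9_Descent
import Pool.Agent.Work.MP_787500_nt.RS.Defs

/-!
# Module CHAINA: the square root of `a b` from the 8-torsion

`M` is a subfield of the algebraically closed field `Ω` containing the coordinates of all points of
2-power order of `W : y^2 = (x-e)(x-e-a^2)(x-e-b^2)`; `c^2 = a b`. Claim: `c ∈ M`.
Let `i^2 = -1` in `Ω`. The point `P4 = (e + a b, i a b (a - b))` is on `W`
(`ab (ab - a^2)(ab - b^2) = -(ab)^2 (a-b)^2`) and `2 P4 = (e, 0)` (`add_self_some` with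
`X = ab`: `X(2P) - e = (((ab)^2 - a^2 b^2)/(2y))^2 = 0`; `y ≠ 0` because `a ≠ b` and `a, b ≠ 0`), so
`4 P4 = 0`. Let `P8` be a half of `P4` (`exists_half` in H9_Descent); `8 P8 = 0`, so the coordinates of
`P8` are in `M`, and `rFun e (e+a^2) (e+b^2) P8` is a rational function of them with coefficients in
`M`, with square `(e + a b) - e = c^2` (`rFun_sq`): so `c` or `-c` is in `M`.
-/

set_option autoImplicit false

namespace Pool.Agent.Work.MP_787500_nt.RS

open WeierstrassCurve WeierstrassCurve.Affine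

private theorem four_point {Ω : Type*} [Field Ω] [CharZero Ω] [DecidableEq Ω]
    {W : WeierstrassCurve.Affine Ω} {e a b i : Ω}
    (h : TwoTors W e (e + a ^ 2) (e + b ^ 2)) (hi : i ^ 2 = -1) :
    ∃ (y : Ω) (hn : W.Nonsingular (e + a * b) y),
      (2 ^ 2) • (Point.some (e + a * b) y hn : W.Point) = 0 := by
  have ha : a ≠ 0 := by
    rintro rfl
    exact h.h12 (by ring)
  have hb : b ≠ 0 := by
    rintro rfl
    exact h.h31 (by ring)
  have hab : a - b ≠ 0 := by
    intro hab
    rw [sub_eq_zero] at hab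
    subst hab
    exact h.h23 rfl
  have hi0 : i ≠ 0 := by
    rintro rfl
    norm_num at hi
  have hy0 : i * a * b * (a - b) ≠ 0 := by positivity
  have heq : (i * a * b * (a - b)) ^ 2 =
      (e + a * b - e) * (e + a * b - (e + a ^ 2)) * (e + a * b - (e + b ^ 2)) := by
    linear_combination (a * b * (a - b)) ^ 2 * hi
  have hn := h.nonsingular_of_eq heq
  refine ⟨_, hn, ?_⟩
  obtain ⟨X, Y, hn', hadd, hX, hY⟩ := add_self_some h hn hy0
  have hz : ((e + a * b - e) ^ 2 - (e - (e + a ^ 2)) * (e - (e + b ^ 2))) = 0 := by ring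
  have hY0 : Y = 0 := by rw [hY, hz, zero_div, zero_mul, zero_mul]
  have h2 : (Point.some X Y hn' : W.Point) + Point.some X Y hn' = 0 :=
    (add_self_eq_zero_iff h hn').2 hY0
  rw [pow_two, mul_smul, two_nsmul, two_nsmul, hadd, h2]

theorem chain_root {K Ω : Type*} [Field K] [CharZero K] [Field Ω] [Algebra K Ω] [IsAlgClosed Ω]
    [DecidableEq Ω] (M : IntermediateField K Ω) {W : WeierstrassCurve.Affine Ω} {e a b c : Ω}
    (h : TwoTors W e (e + a ^ 2) (e + b ^ 2))
    (hc : c ^ 2 = a * b) (he : e ∈ M) (ha : a ∈ M) (hb : b ∈ M) (hT : TorsIn M W) :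
    c ∈ M := by
  have : CharZero Ω := charZero_of_injective_algebraMap (algebraMap K Ω).injective
  obtain ⟨i, hi⟩ := IsAlgClosed.exists_pow_nat_eq (-1 : Ω) (n := 2) (by norm_num)
  obtain ⟨y, hn, h4⟩ := four_point h hi
  obtain ⟨Q, hQ⟩ := exists_half h (Point.some (e + a * b) y hn)
  have h8 : (2 ^ 3) • Q = 0 := by
    have : (2 ^ 3) • Q = (2 ^ 2) • (Q + Q) := by
      rw [← two_nsmul, smul_smul]
      norm_num
    rw [this, hQ, h4]
  have hsq := rFun_sq h hQ
  rcases Q with _ | ⟨x, y', hxy⟩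
  · exfalso
    have : (Point.zero : W.Point) + Point.zero = 0 := by
      rw [← Point.zero_def, add_zero]
    rw [this] at hQ
    exact Point.some_ne_zero hn hQ.symm
  · obtain ⟨hx, hy⟩ := hT 3 x y' hxy h8
    have hr : rFun e (e + a ^ 2) (e + b ^ 2) (Point.some x y' hxy : W.Point) ∈ M := by
      rw [rFun_some]
      have h2 : (2 : Ω) ∈ M := by
        have := M.algebraMap_mem (2 : K)
        rwa [map_ofNat] at this
      exact div_mem (sub_mem (pow_mem (sub_mem hx he) 2)
        (mul_mem (sub_mem he (add_mem he (pow_mem ha 2)))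
          (sub_mem he (add_mem he (pow_mem hb 2))))) (mul_mem h2 hy)
    have hsq' : (rFun e (e + a ^ 2) (e + b ^ 2) (Point.some x y' hxy : W.Point)) ^ 2 = c ^ 2 := by
      rw [hsq, hc]; ring
    rcases sq_eq_sq_iff_eq_or_eq_neg.1 hsq' with hh | hh
    · rw [← hh]; exact hr
    · have : c = -(rFun e (e + a ^ 2) (e + b ^ 2) (Point.some x y' hxy : W.Point)) := by
        rw [hh, neg_neg]
      rw [this]
      exact neg_mem hr

end Pool.Agent.Work.MP_787500_nt.RS
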