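import Mathlib
import Pool.Agent.Work.MP_787500_nt.H9_Descent
import Pool.Agent.Work.MP_787500_nt.RS.Defs
import Pool.Agent.Work.MP_787500_nt.RS.Isog

/-!
# Module CHAINB: the torsion of the next curve of the arithmetic-geometric mean

`M` is a subfield of the algebraically closed field `Ω` containing the coordinates of all points of
2-power order of `W : y^2 = (x-e)(x-e-a^2)(x-e-b^2)`; `c^2 = a b`. The same holds for
`W' : y^2 = x (x - ((a+b)/2)^2) (x - c^2)`. Proof: `exists_isog` with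
`(e1,e2,e3) = (e, e+a^2, e+b^2)`, `(f1, f2, f3) = (((a+b)/2)^2, c^2, 0)` (rotation of `h'`), `d = a b`,
`u = 1/2` gives `φ`. It is surjective: for `P' = (x', y')` solve the quadratic equation
`isogX = x'` for `X = x - e`: `X + A + B/X = (x' - f1)/u^2` (`X ≠ 0` since `B ≠ 0`), then
`y = ± sqrt`, and the sign of `y` changes the sign of `isogY`; `isogY^2 = y'^2` because both points
are on `W'`. If `2^k P' = 0` and `P' = φ P` then `φ (2^k P) = 0`, so `2^k P` is `0` or `(e, 0)` (the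
formula of `φ` gives an affine point when `x ≠ e`), so `2^(k+1) P = 0`, the coordinates of `P` are in
`M`, and so are those of `P'`, given by the formulas `isogX`, `isogY` with coefficients in `M`.
-/

set_option autoImplicit false

namespace Pool.Agent.Work.MP_787500_nt.RS

open WeierstrassCurve WeierstrassCurve.Affine

private theorem chain_data {Ω : Type*} [Field Ω] [CharZero Ω] {e a b c : Ω}
    (hc : c ^ 2 = a * b) :
    IsogData e (e + a ^ 2) (e + b ^ 2) (((a + b) / 2) ^ 2) (c ^ 2) 0 (a * b) (1 / 2) where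
  hd := by ring
  hu := by norm_num
  h2 := by linear_combination hc
  h3 := by ring

private theorem chain_surj {Ω : Type*} [Field Ω] [CharZero Ω] [IsAlgClosed Ω] {e1 e2 e3 f1 f2 f3
    d u x' y' : Ω} (h1 : e1 ≠ e2) (h2 : e3 ≠ e1) (D : IsogData e1 e2 e3 f1 f2 f3 d u)
    (heq : y' ^ 2 = (x' - f1) * (x' - f2) * (x' - f3)) :
    ∃ x y : Ω, x ≠ e1 ∧ y ^ 2 = (x - e1) * (x - e2) * (x - e3) ∧ isogX e1 f1 u x y = x' ∧
      isogY e1 e2 e3 u x y = y' := by
  obtain ⟨r, hr⟩ := IsAlgClosed.exists_pow_nat_eq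
    ((2 * e1 - e2 - e3 - (x' - f1) / u ^ 2) ^ 2 - 4 * ((e1 - e2) * (e1 - e3)))
    (n := 2) (by norm_num)
  set X : Ω := (-(2 * e1 - e2 - e3 - (x' - f1) / u ^ 2) + r) / 2 with hX
  have hB : (e1 - e2) * (e1 - e3) ≠ 0 :=
    mul_ne_zero (sub_ne_zero.2 h1) (sub_ne_zero.2 h2.symm)
  have hXq : X ^ 2 + (2 * e1 - e2 - e3 - (x' - f1) / u ^ 2) * X + (e1 - e2) * (e1 - e3) = 0 := by
    rw [hX]
    linear_combination hr / 4
  have hX0 : X ≠ 0 := by
    intro h0
    apply hB
    rw [h0] at hXq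
    linear_combination hXq
  obtain ⟨y, hy⟩ := IsAlgClosed.exists_pow_nat_eq
    (((e1 + X) - e1) * ((e1 + X) - e2) * ((e1 + X) - e3)) (n := 2) (by norm_num)
  have hu := D.hu
  have hne : e1 + X ≠ e1 := by
    intro hh
    exact hX0 (by linear_combination hh)
  have hXX : ∀ y : Ω, y ^ 2 = ((e1 + X) - e1) * ((e1 + X) - e2) * ((e1 + X) - e3) →
      isogX e1 f1 u (e1 + X) y = x' := by
    intro y hy
    have hXe : e1 + X - e1 = X := by ring
    have hq : (x' - f1) * X = u ^ 2 * (X ^ 2 + (2 * e1 - e2 - e3) * X + (e1 - e2) * (e1 - e3)) := by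
      have : (x' - f1) = u ^ 2 * ((x' - f1) / u ^ 2) := by field_simp
      rw [this]
      linear_combination (-u ^ 2) * hXq
    rw [isogX, hXe, hy, hXe]
    have : u ^ 2 * (X * (e1 + X - e2) * (e1 + X - e3)) / X ^ 2 = x' - f1 := by
      rw [div_eq_iff (pow_ne_zero 2 hX0)]
      linear_combination (-X) * hq
    rw [this]; ring
  have hYY : isogY e1 e2 e3 u (e1 + X) y ^ 2 = y' ^ 2 := by
    rw [isog_eq D hy hne, hXX y hy, heq]
  rcases sq_eq_sq_iff_eq_or_eq_neg.1 hYY with hh | hh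
  · exact ⟨e1 + X, y, hne, hy, hXX y hy, hh⟩
  · refine ⟨e1 + X, -y, hne, by rw [neg_sq, hy], hXX _ (by rw [neg_sq, hy]), ?_⟩
    have : isogY e1 e2 e3 u (e1 + X) (-y) = -isogY e1 e2 e3 u (e1 + X) y := by
      rw [isogY, isogY]; ring
    rw [this, hh, neg_neg]

theorem chain_tors {K Ω : Type*} [Field K] [CharZero K] [Field Ω] [Algebra K Ω] [IsAlgClosed Ω]
    [DecidableEq Ω] (M : IntermediateField K Ω) {W W' : WeierstrassCurve.Affine Ω} {e a b c : Ω}
    (h : TwoTors W e (e + a ^ 2) (e + b ^ 2)) (h' : TwoTors W' 0 (((a + b) / 2) ^ 2) (c ^ 2))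
    (hc : c ^ 2 = a * b) (he : e ∈ M) (ha : a ∈ M) (hb : b ∈ M) (hT : TorsIn M W) :
    TorsIn M W' := by
  have : CharZero Ω := charZero_of_injective_algebraMap (algebraMap K Ω).injective
  have D := chain_data (e := e) hc
  obtain ⟨φ, -, hφ⟩ := exists_isog h h'.rot D
  intro k x' y' hn' hk
  obtain ⟨x, y, hx, hxy, hX, hY⟩ := chain_surj h.h12 h.h31 D (h'.rot.eq_of_nonsingular hn')
  have hn := h.nonsingular_of_eq hxy
  obtain ⟨hn'', hP⟩ := hφ x y hn hx
  have hP' : φ (Point.some x y hn) = Point.some x' y' hn' := by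
    rw [hP]
    simp only [Point.some.injEq]
    exact ⟨hX, hY⟩
  have h0 : φ ((2 ^ k) • Point.some x y hn) = 0 := by
    rw [map_nsmul, hP', hk]
  have h1 : (2 ^ (k + 1)) • (Point.some x y hn : W.Point) = 0 := by
    have h2 : (2 ^ (k + 1)) • (Point.some x y hn : W.Point) =
        (2 ^ k) • (Point.some x y hn : W.Point) + (2 ^ k) • (Point.some x y hn : W.Point) := by
      rw [pow_succ, mul_smul, two_nsmul, smul_add]
    rw [h2]
    rcases hQ : (2 ^ k) • (Point.some x y hn : W.Point) with _ | ⟨X, Y, hXY⟩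
    · rw [← Point.zero_def, add_zero]
    · by_cases hXe : X = e
      · rw [add_self_eq_zero_iff h]
        have := h.eq_of_nonsingular hXY
        rw [hXe, sub_self, zero_mul, zero_mul] at this
        exact pow_eq_zero_iff (two_ne_zero) |>.1 this
      · exfalso
        obtain ⟨hn3, h3⟩ := hφ X Y hXY hXe
        rw [hQ, h3] at h0
        exact Point.some_ne_zero _ h0
  obtain ⟨hxM, hyM⟩ := hT (k + 1) x y hn h1
  have h2M : (2 : Ω) ∈ M := by
    have := M.algebraMap_mem (2 : K)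
    rwa [map_ofNat] at this
  have hf : ((a + b) / 2) ^ 2 ∈ M := pow_mem (div_mem (add_mem ha hb) h2M) 2
  have hu : (1 / 2 : Ω) ∈ M := div_mem (one_mem M) h2M
  refine ⟨?_, ?_⟩
  · rw [← hX, isogX]
    exact add_mem hf (div_mem (mul_mem (pow_mem hu 2) (pow_mem hyM 2))
      (pow_mem (sub_mem hxM he) 2))
  · rw [← hY, isogY]
    exact div_mem (mul_mem (mul_mem (pow_mem hu 3) hyM) (sub_mem (mul_mem
      (sub_mem he (add_mem he (pow_mem ha 2))) (sub_mem he (add_mem he (pow_mem hb 2))))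
      (pow_mem (sub_mem hxM he) 2))) (pow_mem (sub_mem hxM he) 2)

end Pool.Agent.Work.MP_787500_nt.RS
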