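import Mathlib
import Pool.Agent.Work.MP_787500_nt.H10_Example
import Pool.Agent.Work.MP_787500_nt.RS.Defs
import Pool.Agent.Work.MP_787500_nt.RS.AgmSeq
import Pool.Agent.Work.MP_787500_nt.RS.Cm
import Pool.Agent.Work.MP_787500_nt.RS.ChainA
import Pool.Agent.Work.MP_787500_nt.RS.ChainB

/-!
# Module AGMAB: the arithmetic-geometric mean sequence is in the maximal abelian extension

`i` is in `abField`: `σ i = ± i`, `i ≠ -i` is not even needed. All `a m`, `b m` are in
`M = abField K Ω`: induction on `m` of the statement: `a m, b m ∈ M` and, for `m = 0`,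
`TorsIn M W_0` with `W_0 = (legendre (w'^4) 1 0)⁄Ω` (`cm_torsIn`; as a curve
`y^2 = (x-e)(x-e-a_0^2)(x-e-b_0^2)` with `e = w'^4`, `e + a_0^2 = w'^4 + w^4 = 1`,
`e + b_0^2 = w'^4 + i^2 w'^4 = 0`), for `m ≥ 1`, `TorsIn M W_m` with
`W_m = legendre 0 (a_m^2) (b_m^2)` (`e = 0`). Step: `chain_root` gives `b_(m+1) ∈ M`,
`a_(m+1) = (a_m + b_m)/2`, and `chain_tors` gives `TorsIn M W_(m+1)`. Better: induction on the
existential statement `∃ W e, e ∈ M ∧ TwoTors W e (e + a m ^ 2) (e + b m ^ 2) ∧ TorsIn M W`.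
-/

set_option autoImplicit false

namespace Pool.Agent.Work.MP_787500_nt.RS

open WeierstrassCurve WeierstrassCurve.Affine

private theorem root_mem {K Ω : Type*} [Field K] [Field Ω] [Algebra K Ω] {i : Ω}
    (hi : i ^ 2 = -1) : i ∈ abField K Ω := by
  have hs : ∀ σ : Ω ≃ₐ[K] Ω, σ i = i ∨ σ i = -i := by
    intro σ
    apply sq_eq_sq_iff_eq_or_eq_neg.1
    rw [← map_pow, hi, map_neg, map_one]
  rw [mem_abField]
  intro σ τ
  rcases hs σ with h1 | h1 <;> rcases hs τ with h2 | h2 <;>
    simp only [h1, h2, map_neg]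

private theorem leg_tors {F : Type*} [Field F] {e1 e2 e3 : F} (h12 : e1 ≠ e2) (h23 : e2 ≠ e3)
    (h31 : e3 ≠ e1) : TwoTors (legendre e1 e2 e3) e1 e2 e3 :=
  ⟨rfl, rfl, rfl, rfl, rfl, h12, h23, h31⟩

private theorem two_tors_next {Ω : Type*} [Field Ω] [CharZero Ω] {W : WeierstrassCurve.Affine Ω}
    {e a b c : Ω} (h : TwoTors W e (e + a ^ 2) (e + b ^ 2)) (hc : c ^ 2 = a * b) :
    TwoTors (legendre 0 (((a + b) / 2) ^ 2) (c ^ 2)) 0 (((a + b) / 2) ^ 2) (c ^ 2) := by
  have ha : a ≠ 0 := by
    rintro rfl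
    exact h.h12 (by ring)
  have hb : b ≠ 0 := by
    rintro rfl
    exact h.h31 (by ring)
  have hs : a + b ≠ 0 := by
    intro h0
    apply h.h23
    linear_combination (a - b) * h0
  have hd : a - b ≠ 0 := by
    intro h0
    apply h.h23
    linear_combination (a + b) * h0
  apply leg_tors
  · exact (pow_ne_zero 2 (div_ne_zero hs two_ne_zero)).symm
  · rw [hc]
    intro h0
    have : ((a - b) / 2) ^ 2 = 0 := by linear_combination h0
    exact pow_ne_zero 2 (div_ne_zero hd two_ne_zero) this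
  · rw [hc]
    exact mul_ne_zero ha hb

theorem agm_mem {K Ω : Type*} [Field K] [CharZero K] [Field Ω] [Algebra K Ω] [IsAlgClosed Ω]
    {w w' : K} {i : Ω} {a b u : ℕ → Ω}
    (h : ∀ n, Agm (algebraMap K Ω w) (algebraMap K Ω w') i a b u n) :
    i ∈ abField K Ω ∧ ∀ m, a m ∈ abField K Ω ∧ b m ∈ abField K Ω := by
  classical
  have : CharZero Ω := charZero_of_injective_algebraMap (algebraMap K Ω).injective
  have hi := root_mem (K := K) (h 0).i2
  refine ⟨hi, ?_⟩
  have hadd : w + w' = 1 := (algebraMap K Ω).injective (by rw [map_add, (h 0).add, map_one])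
  have hmul : w * w' = 2 := (algebraMap K Ω).injective (by rw [map_mul, (h 0).mul, map_ofNat])
  have hw0 : w ≠ 0 := by
    rintro rfl
    rw [zero_mul] at hmul
    norm_num at hmul
  have hw0' : w' ≠ 0 := by
    rintro rfl
    rw [mul_zero] at hmul
    norm_num at hmul
  have h4 : w ^ 4 + w' ^ 4 = 1 := by
    have hv : w = 1 - w' := by linear_combination hadd
    subst hv
    linear_combination (2 * (1 - w') * w') * hmul
  have h2M : (2 : Ω) ∈ abField K Ω := by
    have := (abField K Ω).algebraMap_mem (2 : K)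
    rwa [map_ofNat] at this
  have key : ∀ m, a m ∈ abField K Ω ∧ b m ∈ abField K Ω ∧
      ∃ (W : WeierstrassCurve.Affine Ω) (e : Ω), e ∈ abField K Ω ∧
        TwoTors W e (e + a m ^ 2) (e + b m ^ 2) ∧ TorsIn (abField K Ω) W := by
    intro m
    induction m with
    | zero =>
      have hT : TwoTors (legendre (w' ^ 4) 1 0) (w' ^ 4) 1 0 := by
        apply leg_tors
        · intro h0
          rw [h0] at h4
          exact pow_ne_zero 4 hw0 (by linear_combination h4)
        · exact one_ne_zero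
        · exact (pow_ne_zero 4 hw0').symm
      have hI := cm_torsIn (Ω := Ω) hadd hmul hT
      have hb := hT.bc Ω
      refine ⟨?_, ?_, _, algebraMap K Ω w' ^ 4, ?_, ?_, hI⟩
      · rw [(h 0).a0]
        exact pow_mem ((abField K Ω).algebraMap_mem w) 2
      · rw [(h 0).b0]
        exact mul_mem (neg_mem hi) (pow_mem ((abField K Ω).algebraMap_mem w') 2)
      · exact pow_mem ((abField K Ω).algebraMap_mem w') 4
      · have e1 : algebraMap K Ω w' ^ 4 + a 0 ^ 2 = 1 := by
          rw [(h 0).a0, ← map_pow, ← map_pow, ← map_pow, ← map_add, ← pow_mul, add_comm, h4,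
            map_one]
        have e2 : algebraMap K Ω w' ^ 4 + b 0 ^ 2 = 0 := by
          rw [(h 0).b0]
          linear_combination (algebraMap K Ω w') ^ 4 * (h 0).i2
        rw [e1, e2]
        rwa [map_pow, map_one, map_zero] at hb
    | succ m ih =>
      obtain ⟨ha, hb, W, e, he, hT, hI⟩ := ih
      have hc : b (m + 1) ^ 2 = a m * b m := (h (m + 1)).bs m (Nat.lt_succ_self m)
      have hs : a (m + 1) = (a m + b m) / 2 := (h (m + 1)).as m (Nat.lt_succ_self m)
      have hbM := chain_root (abField K Ω) hT hc he ha hb hI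
      have hT' := two_tors_next hT hc
      have hI' := chain_tors (abField K Ω) hT hT' hc he ha hb hI
      refine ⟨?_, hbM, _, 0, zero_mem _, ?_, hI'⟩
      · rw [hs]
        exact div_mem (add_mem ha hb) h2M
      · rw [zero_add, zero_add, hs]
        exact hT'
  exact fun m => ⟨(key m).1, (key m).2.1⟩

end Pool.Agent.Work.MP_787500_nt.RS
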