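import Mathlib
import Pool.Agent.Work.MP_787500_nt.RS.LayDefs
import Pool.Agent.Work.MP_787500_nt.RS.AgmAb

/-!
# Module LAYGAL: the layers are abelian over `K`

`lay i b n ≤ abField K Ω` (`agm_mem`, `IntermediateField.adjoin_le_iff`). Finite dimensional: generated
by finitely many algebraic elements. For `x ∈ lay i b n` and `σ` in `Aut(Ω/K)`, `σ x ∈ lay i b n`: for all
`τ` fixing `lay i b n` pointwise, `τ (σ x) = σ (τ x) = σ x`, and `lay i b n` is the fixed field of its
fixing subgroup (`Ω/K` is Galois, `InfiniteGalois` or `IsGalois.fixedField_fixingSubgroup`-like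
lemmas). Hence `lay i b n / K` is normal (`IntermediateField.normal_iff_forall_map_le` or so), Galois;
every `σ` restricts (`AlgEquiv.restrictNormal`), every automorphism of `lay i b n` is a restriction
(`AlgEquiv.liftNormal`, surjectivity of the restriction), so they commute.
-/

set_option autoImplicit false

namespace Pool.Agent.Work.MP_787500_nt.RS

universe u

variable {K : Type u} [Field K] [NumberField K]
variable {w w' : K} {i : AlgebraicClosure K} {a b u : ℕ → AlgebraicClosure K}

theorem lay_galois
    (h : ∀ n, Agm (algebraMap K (AlgebraicClosure K) w) (algebraMap K (AlgebraicClosure K) w')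
      i a b u n) (n : ℕ) :
    FiniteDimensional K (lay i b n) ∧ IsGalois K (lay i b n) ∧
      (∀ σ τ : (lay i b n) ≃ₐ[K] (lay i b n), σ * τ = τ * σ) ∧
      (∀ σ : AlgebraicClosure K ≃ₐ[K] AlgebraicClosure K,
        ∃ τ : (lay i b n) ≃ₐ[K] (lay i b n), ∀ x : lay i b n,
          ((τ x : lay i b n) : AlgebraicClosure K) = σ x) := by
  classical
  obtain ⟨hi, hab⟩ := agm_mem h
  set E := lay i b n with hE
  have hle : E ≤ abField K (AlgebraicClosure K) := by
    rw [hE, lay, IntermediateField.adjoin_le_iff]
    rintro z (hz | ⟨m, -, rfl⟩)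
    · rw [Set.mem_singleton_iff] at hz
      rw [hz]
      exact hi
    · exact (hab m).2
  have hfinset : ({i} ∪ {z | ∃ m, m ≤ n ∧ z = b m} : Set (AlgebraicClosure K)).Finite := by
    apply (Set.finite_singleton _).union
    apply ((Set.finite_Iic n).image b).subset
    rintro z ⟨m, hm, rfl⟩
    exact ⟨m, hm, rfl⟩
  have hfd : FiniteDimensional K E := by
    have := hfinset.to_subtype
    rw [hE, lay]
    exact IntermediateField.finiteDimensional_adjoin fun x _ =>
      (AlgebraicClosure.isAlgebraic K).isAlgebraic x |>.isIntegral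
  have hst : ∀ (σ : AlgebraicClosure K ≃ₐ[K] AlgebraicClosure K) (x : AlgebraicClosure K),
      x ∈ E → σ x ∈ E := by
    intro σ x hx
    rw [← InfiniteGalois.fixedField_fixingSubgroup E, IntermediateField.mem_fixedField_iff]
    intro τ hτ
    have h1 : τ x = x := (IntermediateField.mem_fixingSubgroup_iff E τ).1 hτ x hx
    rw [mem_abField.1 (hle hx) τ σ, h1]
  have hnormal : Normal K E := by
    rw [IntermediateField.normal_iff_forall_map_le']
    rintro σ _ ⟨x, hx, rfl⟩
    exact hst σ x hx
  have hgal : IsGalois K E := { }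
  refine ⟨hfd, hgal, ?_, ?_⟩
  · intro σ τ
    obtain ⟨σ', rfl⟩ := AlgEquiv.restrictNormalHom_surjective (E := AlgebraicClosure K) σ
    obtain ⟨τ', rfl⟩ := AlgEquiv.restrictNormalHom_surjective (E := AlgebraicClosure K) τ
    rw [← map_mul, ← map_mul]
    ext x
    have e1 := AlgEquiv.restrictNormal_commutes (σ' * τ') E x
    have e2 := AlgEquiv.restrictNormal_commutes (τ' * σ') E x
    refine e1.trans (Eq.trans ?_ e2.symm)
    exact mem_abField.1 (hle x.2) σ' τ'
  · intro σ
    exact ⟨AlgEquiv.restrictNormal σ E, fun x => AlgEquiv.restrictNormal_commutes σ E x⟩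

end Pool.Agent.Work.MP_787500_nt.RS
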