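import Mathlib
import Pool.Agent.Work.MP_787500_nt.RS.Bound
import Pool.Agent.Work.MP_787500_nt.RS.LayGal
import Pool.Agent.Work.MP_787500_nt.RS.LayDeg
import Pool.Agent.Work.MP_787500_nt.RS.Unr
import Pool.Agent.Work.MP_787500_nt.RS.AgmPt
import Pool.Agent.Work.MP_787500_nt.RS.RankStep

/-!
# Module SHARP: assembly of the lower bound (helper72)
-/

set_option autoImplicit false
set_option linter.unusedSectionVars false

namespace Pool.Agent.Work.MP_787500_nt.RS

open WithZero IsDedekindDomain NumberField WeierstrassCurve WeierstrassCurve.Affine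

universe u

section mem

variable {K : Type u} [Field K] [NumberField K]
variable {w w' : K} {i : AlgebraicClosure K} {a b u : ℕ → AlgebraicClosure K}

theorem i_mem (n : ℕ) : i ∈ lay i b n :=
  IntermediateField.subset_adjoin _ _ (Or.inl rfl)

theorem b_mem {m n : ℕ} (h : m ≤ n) : b m ∈ lay i b n :=
  IntermediateField.subset_adjoin _ _ (Or.inr ⟨m, h, rfl⟩)

theorem a_mem (h : ∀ n, Agm (algebraMap K (AlgebraicClosure K) w)
    (algebraMap K (AlgebraicClosure K) w') i a b u n) {n : ℕ} :
    ∀ m ≤ n + 1, a m ∈ lay i b n := by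
  intro m
  induction m with
  | zero =>
    intro _
    rw [(h 0).a0]
    exact pow_mem ((lay i b n).algebraMap_mem w) 2
  | succ m ih =>
    intro hm
    rw [(h (m + 1)).as m (Nat.lt_succ_self m)]
    exact div_mem (add_mem (ih (by omega)) (b_mem (by omega))) (ofNat_mem _ 2)

theorem u_mem (h : ∀ n, Agm (algebraMap K (AlgebraicClosure K) w)
    (algebraMap K (AlgebraicClosure K) w') i a b u n) {n : ℕ} :
    ∀ m ≤ n + 1, u m ∈ lay i b n := by
  intro m
  induction m with
  | zero =>
    intro _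
    rw [(h 0).u0]
    exact div_mem (neg_mem (one_mem _)) ((lay i b n).algebraMap_mem w)
  | succ m ih =>
    intro hm
    rw [(h (m + 1)).us m (Nat.lt_succ_self m)]
    exact div_mem (mul_mem (pow_mem (ih (by omega)) 2) (a_mem h m (by omega)))
      (mul_mem (ofNat_mem _ 2) (a_mem h (m + 1) hm))

theorem lay_mono {m n : ℕ} (h : m ≤ n) : lay i b m ≤ lay i b n := by
  rw [lay, IntermediateField.adjoin_le_iff]
  rintro z (hz | ⟨k, hk, rfl⟩)
  · rw [Set.mem_singleton_iff.1 hz]
    exact i_mem n
  · exact b_mem (hk.trans h)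

theorem fix_lay {τ : AlgebraicClosure K ≃ₐ[K] AlgebraicClosure K} {n : ℕ} (hi : τ i = i)
    (hb : ∀ m ≤ n, τ (b m) = b m) {x : AlgebraicClosure K} (hx : x ∈ lay i b n) : τ x = x := by
  induction hx using IntermediateField.adjoin_induction with
  | mem y hy =>
    rcases hy with hz | ⟨k, hk, rfl⟩
    · rw [Set.mem_singleton_iff.1 hz, hi]
    · exact hb k hk
  | algebraMap y => exact τ.commutes y
  | add y z _ _ h1 h2 => rw [map_add, h1, h2]
  | inv y _ h1 => rw [map_inv₀, h1]
  | mul y z _ _ h1 h2 => rw [map_mul, h1, h2]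

open scoped Classical in
/-- a sequence restricted to a layer -/
noncomputable def res (i : AlgebraicClosure K) (b : ℕ → AlgebraicClosure K) (n : ℕ)
    (c : ℕ → AlgebraicClosure K) : ℕ → lay i b n :=
  fun m => if h : c m ∈ lay i b n then ⟨c m, h⟩ else 0

theorem res_coe {n : ℕ} {c : ℕ → AlgebraicClosure K} {m : ℕ} (h : c m ∈ lay i b n) :
    ((res i b n c m : lay i b n) : AlgebraicClosure K) = c m := by
  rw [res, dif_pos h]

theorem agm_res (h : ∀ n, Agm (algebraMap K (AlgebraicClosure K) w)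
    (algebraMap K (AlgebraicClosure K) w') i a b u n) (n : ℕ) :
    Agm (algebraMap K (lay i b n) w) (algebraMap K (lay i b n) w') ⟨i, i_mem n⟩
      (res i b n a) (res i b n b) (res i b n u) n := by
  have H := h n
  refine ⟨?_, ?_, ?_, ?_, ?_, ?_, ?_, ?_, ?_⟩
  · apply Subtype.ext
    exact H.add
  · apply Subtype.ext
    exact H.mul
  · apply Subtype.ext
    exact H.i2
  · apply Subtype.ext
    rw [res_coe (a_mem h 0 (by omega))]
    exact H.a0
  · apply Subtype.ext
    rw [res_coe (b_mem (by omega))]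
    exact H.b0
  · apply Subtype.ext
    rw [res_coe (u_mem h 0 (by omega))]
    exact H.u0
  · intro m hm
    apply Subtype.ext
    rw [res_coe (a_mem h (m + 1) (by omega))]
    rw [IntermediateField.coe_div, IntermediateField.coe_add, res_coe (a_mem h m (by omega)),
      res_coe (b_mem hm.le)]
    exact H.as m hm
  · intro m hm
    apply Subtype.ext
    rw [IntermediateField.coe_pow, IntermediateField.coe_mul, res_coe (b_mem (by omega)),
      res_coe (a_mem h m (by omega)), res_coe (b_mem hm.le)]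
    exact H.bs m hm
  · intro m hm
    apply Subtype.ext
    rw [IntermediateField.coe_div, IntermediateField.coe_mul, IntermediateField.coe_mul,
      IntermediateField.coe_pow, res_coe (a_mem h m (by omega)),
      res_coe (a_mem h (m + 1) (by omega)), res_coe (u_mem h m (by omega)),
      res_coe (u_mem h (m + 1) (by omega))]
    exact H.us m hm

theorem adjoin_res (n : ℕ) :
    IntermediateField.adjoin K ({(⟨i, i_mem n⟩ : lay i b n)} ∪
      {z | ∃ m, m ≤ n ∧ z = res i b n b m}) = ⊤ := by
  apply IntermediateField.map_injective (lay i b n).val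
  rw [IntermediateField.adjoin_map, ← AlgHom.fieldRange_eq_map, IntermediateField.fieldRange_val]
  show _ = IntermediateField.adjoin K _
  congr 1
  ext z
  constructor
  · rintro ⟨y, hy | ⟨m, hm, rfl⟩, rfl⟩
    · rw [Set.mem_singleton_iff.1 hy]
      exact Or.inl rfl
    · exact Or.inr ⟨m, hm, res_coe (b_mem hm)⟩
  · rintro (hz | ⟨m, hm, rfl⟩)
    · exact ⟨⟨i, i_mem n⟩, Or.inl rfl, (Set.mem_singleton_iff.1 hz).symm⟩
    · exact ⟨res i b n b m, Or.inr ⟨m, hm, rfl⟩, res_coe (b_mem hm)⟩

theorem coe_pow_apply {n : ℕ} {τ : lay i b n ≃ₐ[K] lay i b n}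
    {σ : AlgebraicClosure K ≃ₐ[K] AlgebraicClosure K}
    (h : ∀ x : lay i b n, ((τ x : lay i b n) : AlgebraicClosure K) = σ x) (k : ℕ)
    (x : lay i b n) : (((τ ^ k) x : lay i b n) : AlgebraicClosure K) = (σ ^ k) x := by
  induction k generalizing x with
  | zero => rfl
  | succ k ih => rw [pow_succ, pow_succ, AlgEquiv.mul_apply, AlgEquiv.mul_apply, ih, h]

end mem

section fields

variable {K : Type u} [Field K] [NumberField K]
variable {s w w' : K} {i : AlgebraicClosure K} {a b u : ℕ → AlgebraicClosure K}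

theorem lay_numberField (h : ∀ n, Agm (algebraMap K (AlgebraicClosure K) w)
    (algebraMap K (AlgebraicClosure K) w') i a b u n) (n : ℕ) : NumberField (lay i b n) := by
  have := (lay_galois h n).1
  exact NumberField.of_module_finite K (lay i b n)

theorem lay_tower (hK : Module.finrank ℚ K = 2) (hs : s ^ 2 = -7)
    (h : ∀ n, Agm (algebraMap K (AlgebraicClosure K) w)
    (algebraMap K (AlgebraicClosure K) w') i a b u n) (n : ℕ) [NumberField (lay i b n)] :
    InTwoTower K (lay i b n) := by
  obtain ⟨h1, h2, h3, h4⟩ := lay_galois h n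
  refine ⟨lay i b n, inferInstance, inferInstance, inferInstance, inferInstance, inferInstance, h2,
    ⟨n + 1, finrank_lay hK hs h n⟩, fun Q hQ => ?_⟩
  exact unramified (agm_res h n) (adjoin_res n) Q hQ

theorem twoTors_bc {W : WeierstrassCurve.Affine K} (hW : TwoTors W 0 1 (-1)) (F : Type u) [Field F]
    [Algebra K F] : TwoTors (W⁄F) (0 : F) 1 (-1) := by
  have := hW.bc F
  rwa [map_zero, map_one, map_neg, map_one] at this

theorem legendre_bc' (F : Type u) [Field F] [NumberField F] [Algebra K F] :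
    ((legendre (0 : K) 1 (-1))⁄F) = legendre (0 : F) 1 (-1) := by
  rw [legendre_bc, map_zero, map_one, map_neg, map_one]

theorem isBase_seven (hK : Module.finrank ℚ K = 2) (hs : s ^ 2 = -7) : IsBase K 7 s :=
  ⟨hK, by rw [hs]; norm_num, by norm_num, by norm_num⟩

/-- the rank of `y^2 = x^3 - x` over `F` -/
noncomputable def rk (F : Type u) [Field F] : ℕ := by
  classical exact Module.finrank ℤ (legendre (0 : F) 1 (-1)).Point

theorem exists_place (hK : Module.finrank ℚ K = 2) (hadd : w + w' = 1) (hmul : w * w' = 2)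
    (F : Type u) [Field F] [NumberField F] [Algebra K F] :
    ∃ v : HeightOneSpectrum (𝓞 F), (2 : 𝓞 F) ∈ v.asIdeal ∧
      v.valuation F (algebraMap K F w) = 1 := by
  obtain ⟨v, hv, h1⟩ := exists_dyadic (F := F) hK (p := w')
    (by linear_combination w' * hadd - hmul)
  refine ⟨v, hv, ?_⟩
  have : algebraMap K F w = 1 - algebraMap K F w' := by
    rw [← map_one (algebraMap K F), ← map_sub, ← hadd, add_sub_cancel_right]
  rwa [this]

theorem condExp_zero (F : Type u) [Field F] [NumberField F] : condExp (0 : F) 1 (-1) = 0 := by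
  have key : ∀ v : HeightOneSpectrum (𝓞 F), (2 : 𝓞 F) ∉ v.asIdeal →
      v.valuation F (0 - 1 : F) = 1 ∧ v.valuation F (1 - -1 : F) = 1 ∧
        v.valuation F (-1 - 0 : F) = 1 := by
    intro v hv
    have h2 : v.valuation F 2 = 1 := by
      have := (HeightOneSpectrum.valuation_eq_one_iff_notMem v (K := F)).2 hv
      rwa [map_ofNat] at this
    refine ⟨by rw [zero_sub, Valuation.map_neg, map_one], ?_,
      by rw [sub_zero, Valuation.map_neg, map_one]⟩
    rw [show (1 - -1 : F) = 2 by norm_num, h2]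
  have m0 : multPlaces (0 : F) 1 (-1) = ∅ := by
    ext v
    simp only [multPlaces, Set.mem_ofPred_eq, Set.mem_empty_iff_false, iff_false]
    rintro ⟨hv, -, h⟩
    obtain ⟨k1, k2, k3⟩ := key v hv
    exact h ⟨by rw [k1, k2], by rw [k2, k3]⟩
  have a0 : addPlaces (0 : F) 1 (-1) = ∅ := by
    ext v
    simp only [addPlaces, Set.mem_ofPred_eq, Set.mem_empty_iff_false, iff_false]
    rintro ⟨hv, h⟩
    obtain ⟨k1, k2, k3⟩ := key v hv
    apply h
    rw [diffVal, k1, k2, k3, max_self, max_self]
    exact ⟨1, (mul_one 1).symm⟩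
  rw [condExp, m0, a0, Set.ncard_empty]

/-- upper bound and the Tate-Shafarevich group -/
theorem rk_le (hK : Module.finrank ℚ K = 2) (hs : s ^ 2 = -7) {F : Type u} [Field F]
    [NumberField F] [Algebra K F] (hT : InTwoTower K F) :
    RankShaBound (legendre (0 : F) 1 (-1)) (Module.finrank K F) := by
  have hb := (bound (isBase_seven hK hs) hT (e1 := 0) (e2 := 1) (e3 := -1) (by norm_num)
    (by norm_num) (by norm_num)).2
  rwa [condExp_zero, add_zero] at hb

theorem rk_eq {F : Type u} [Field F] [NumberField F] {N : ℕ}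
    (h : RankShaBound (legendre (0 : F) 1 (-1)) N) (h2 : N ≤ rk F) :
    rk F = N ∧ ShaTwoTrivial (legendre (0 : F) 1 (-1)) :=
  ⟨Nat.le_antisymm h.2.1 h2, h.2.2 (Nat.le_antisymm h.2.1 h2)⟩

theorem rk_fg {F : Type u} [Field F] [NumberField F] {N : ℕ}
    (h : RankShaBound (legendre (0 : F) 1 (-1)) N) (K : Type u) [Field K] [NumberField K]
    [Algebra K F] : by classical exact AddGroup.FG ((legendre (0 : K) 1 (-1))⁄F).Point := by
  classical
  rw [legendre_bc']
  convert h.1

theorem rk_zero {F : Type u} [Field F] [NumberField F] [Algebra K F]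
    (hK : Module.finrank ℚ K = 2)
    (hs : s ^ 2 = -7) (hadd : w + w' = 1) (hmul : w * w' = 2) (hT : InTwoTower K F)
    {i : F} {a b u : ℕ → F} {n : ℕ}
    (H : Agm (algebraMap K F w) (algebraMap K F w') i a b u n) (c : F ≃ₐ[K] F) (hc : c i = -i) :
    2 ≤ rk F := by
  classical
  obtain ⟨v, hv, hvw⟩ := exists_place hK hadd hmul F
  have hW := legendre_twoTors (F := K) (e1 := 0) (e2 := 1) (e3 := -1) (by norm_num) (by norm_num)
    (by norm_num)
  obtain ⟨hn, hP⟩ := agm_point (twoTors_bc hW F) hv H hvw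
  have := rank_base hW (rk_fg (rk_le hK hs hT) K) H.i2 c hc (Point.some _ _ hn)
    (fun m hm => by convert hP m hm)
  rw [rk]
  rw [legendre_bc'] at this
  exact this

theorem rk_succ {F' F : Type u} [Field F'] [NumberField F'] [Algebra K F'] [Field F]
    [NumberField F] [Algebra K F] [Algebra F' F] [IsScalarTower K F' F]
    (hK : Module.finrank ℚ K = 2)
    (hs : s ^ 2 = -7) (hadd : w + w' = 1) (hmul : w * w' = 2) (hT : InTwoTower K F)
    {i : F} {a b u : ℕ → F} {n : ℕ}
    (H : Agm (algebraMap K F w) (algebraMap K F w') i a b u (n + 1)) (g c : F ≃ₐ[K] F)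
    (hgc : g * c = c * g) (hg : g i = i) (hc : c i = -i)
    (hfix : ∀ x : F', (g ^ (2 ^ n)) (algebraMap F' F x) = algebraMap F' F x)
    (hu : (g ^ (2 ^ n)) (u (n + 1)) = u (n + 1)) (ha : (g ^ (2 ^ n)) (a (n + 1)) = a (n + 1))
    (hb : (g ^ (2 ^ n)) (b (n + 1)) = -b (n + 1)) : rk F' + 2 ^ (n + 1) ≤ rk F := by
  classical
  obtain ⟨v, hv, hvw⟩ := exists_place hK hadd hmul F
  have hW := legendre_twoTors (F := K) (e1 := 0) (e2 := 1) (e3 := -1) (by norm_num) (by norm_num)
    (by norm_num)
  obtain ⟨hn, hP⟩ := agm_point (twoTors_bc hW F) hv H hvw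
  have := rank_step (F' := F') hW (rk_fg (rk_le hK hs hT) K) H.i2 n g c hgc hg hc hfix hn
    (by rw [map_neg, map_pow, hu])
    (by rw [map_div₀, map_mul, hu, ha, hb, mul_neg, neg_div]) (fun m hm => by convert hP m hm)
  rw [rk, rk]
  rw [legendre_bc', legendre_bc'] at this
  exact this

theorem rk_lay (hK : Module.finrank ℚ K = 2) (hs : s ^ 2 = -7) (hadd : w + w' = 1)
    (hmul : w * w' = 2) (h : ∀ n, Agm (algebraMap K (AlgebraicClosure K) w)
    (algebraMap K (AlgebraicClosure K) w') i a b u n) (n : ℕ) :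
    2 ^ (n + 1) ≤ rk (lay i b n) := by
  obtain ⟨σ, hσi, hσ⟩ := exists_gen hK hs h
  obtain ⟨c, hc⟩ := exists_conj hK hs (h 0).i2
  induction n with
  | zero =>
    have := lay_numberField h 0
    obtain ⟨h1, h2, h3, h4⟩ := lay_galois h 0
    obtain ⟨c', hc'⟩ := h4 c
    exact rk_zero hK hs hadd hmul (lay_tower hK hs h 0) (agm_res h 0) c'
      (Subtype.ext (by rw [hc']; exact hc))
  | succ n ih =>
    have := lay_numberField h n
    have := lay_numberField h (n + 1)
    obtain ⟨h1, h2, h3, h4⟩ := lay_galois h (n + 1)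
    obtain ⟨c', hc'⟩ := h4 c
    obtain ⟨g, hg⟩ := h4 σ
    have hgp := coe_pow_apply hg
    let _ : Algebra (lay i b n) (lay i b (n + 1)) :=
      (IntermediateField.inclusion (lay_mono (Nat.le_succ n))).toRingHom.toAlgebra
    have : IsScalarTower K (lay i b n) (lay i b (n + 1)) :=
      IsScalarTower.of_algebraMap_eq (fun x => rfl)
    obtain ⟨hb1, hb2⟩ := hσ n
    have hfi : (σ ^ (2 ^ n)) i = i := by
      clear hb1 hb2
      induction (2 ^ n) with
      | zero => rfl
      | succ k ih => rw [pow_succ, AlgEquiv.mul_apply, hσi, ih]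
    have hfix : ∀ {x : AlgebraicClosure K}, x ∈ lay i b n → (σ ^ (2 ^ n)) x = x :=
      fun hx => fix_lay hfi hb2 hx
    have key := rk_succ (F' := lay i b n) (F := lay i b (n + 1)) hK hs hadd hmul
      (lay_tower hK hs h (n + 1)) (agm_res h (n + 1)) g c' (h3 g c')
      (Subtype.ext (by rw [hg]; exact hσi)) (Subtype.ext (by rw [hc']; exact hc))
      (fun x => Subtype.ext (by rw [hgp]; exact hfix x.2))
      (Subtype.ext (by
        rw [hgp, res_coe (u_mem h (n + 1) (by omega))]
        exact hfix (u_mem h (n + 1) (by omega))))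
      (Subtype.ext (by
        rw [hgp, res_coe (a_mem h (n + 1) (by omega))]
        exact hfix (a_mem h (n + 1) (by omega))))
      (Subtype.ext (by
        rw [hgp, NegMemClass.coe_neg, res_coe (b_mem (by omega))]
        exact hb1))
    calc 2 ^ (n + 1 + 1) = 2 ^ (n + 1) + 2 ^ (n + 1) := by ring
      _ ≤ rk (lay i b n) + 2 ^ (n + 1) := Nat.add_le_add_right ih _
      _ ≤ _ := key

end fields

open scoped Classical in
theorem sharp {K : Type u} [Field K] [NumberField K] {s : K} (hK : Module.finrank ℚ K = 2)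
    (hs : s ^ 2 = -7) (n : ℕ) :
    ∃ (F : Type u) (_ : Field F) (_ : NumberField F) (_ : Algebra K F),
      IsGalois K F ∧ (∀ σ τ : F ≃ₐ[K] F, σ * τ = τ * σ) ∧ InTwoTower K F ∧
      Module.finrank K F = 2 ^ (n + 1) ∧
      Module.finrank ℤ (legendre (0 : F) 1 (-1)).Point = 2 ^ (n + 1) ∧
      ShaTwoTrivial (legendre (0 : F) 1 (-1)) := by
  have hadd : (1 + s) / 2 + (1 - s) / 2 = 1 := by ring
  have hmul : (1 + s) / 2 * ((1 - s) / 2) = 2 := by linear_combination (-1 / 4 : K) * hs
  obtain ⟨i, a, b, u, h⟩ := exists_agm (K := K) (Ω := AlgebraicClosure K) hadd hmul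
  have := lay_numberField h n
  obtain ⟨h1, h2, h3, h4⟩ := lay_galois h n
  have hT := lay_tower hK hs h n
  have hd := finrank_lay hK hs h n
  have hb := rk_le hK hs hT
  rw [hd] at hb
  obtain ⟨heq, hsha⟩ := rk_eq hb (rk_lay hK hs hadd hmul h n)
  exact ⟨lay i b n, inferInstance, inferInstance, inferInstance, h2, h3, hT, hd, heq, hsha⟩

end Pool.Agent.Work.MP_787500_nt.RS
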